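import Pool.Agent.H113Z.Dist.Defs

set_option autoImplicit false

/-! The two families of intervals are separated by the powers of `1 + √2`. -/

namespace Pool.Agent.H113Z.Dist
open Set

namespace Sep148

lemma one_lt_sqrt : (1 : ℝ) < √2 := by
  rw [Real.lt_sqrt (by norm_num)]; norm_num

lemma sqrt_lt_two : √2 < (2 : ℝ) := by
  rw [Real.sqrt_lt' (by norm_num)]; norm_num

lemma one_lt_lam : 1 < lam := by
  unfold lam; linarith [one_lt_sqrt]

lemma pow_form (D : ℕ) : ∃ A B : ℤ, lam ^ D = A + B * √2 ∧ (1 - √2) ^ D = A - B * √2 := by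
  induction D with
  | zero => exact ⟨1, 0, by simp, by simp⟩
  | succ D ih =>
    obtain ⟨A, B, h1, h2⟩ := ih
    have hs : √2 * √2 = (2 : ℝ) := Real.mul_self_sqrt (by norm_num)
    refine ⟨A + 2 * B, A + B, ?_, ?_⟩
    · rw [pow_succ, h1]; unfold lam; push_cast; linear_combination (B : ℝ) * hs
    · rw [pow_succ, h2]; push_cast; linear_combination (B : ℝ) * hs

lemma irr (p q : ℤ) (hq : q ≠ 0) : (p : ℝ) + q * √2 ≠ 0 := by
  intro h
  have h1 : Irrational ((q : ℝ) * √2) := irrational_sqrt_two.intCast_mul hq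
  exact h1.ne_int (-p) (by push_cast; linarith)

lemma dioph (D : ℕ) (hD : 0 < D) (X Y : ℕ) (hX : 0 < X) :
    1 ≤ |lam ^ D * X - Y| * ((X : ℝ) + Y) := by
  obtain ⟨A, B, h1, h2⟩ := pow_form D
  have hs : √2 * √2 = (2 : ℝ) := Real.mul_self_sqrt (by norm_num)
  have hmu : |(1 - √2 : ℝ) ^ D| ≤ 1 := by
    rw [abs_pow]
    apply pow_le_one₀ (abs_nonneg _)
    rw [abs_le]; constructor <;> linarith [one_lt_sqrt, sqrt_lt_two]
  have hl : 1 < lam ^ D := one_lt_pow₀ one_lt_lam hD.ne'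
  have hB : B ≠ 0 := by
    intro hB
    rw [hB] at h1 h2
    have := (abs_le.1 hmu).2
    simp at h1 h2
    linarith
  have hX' : (X : ℤ) ≠ 0 := by exact_mod_cast hX.ne'
  have n1 : lam ^ D * X - Y ≠ 0 := by
    have := irr (A * X - Y) (B * X) (mul_ne_zero hB hX')
    intro h; apply this; rw [h1] at h; push_cast; linarith
  have n2 : (1 - √2) ^ D * X - Y ≠ (0 : ℝ) := by
    have := irr (A * X - Y) (-(B * X)) (neg_ne_zero.2 (mul_ne_zero hB hX'))
    intro h; apply this; rw [h2] at h; push_cast; linarith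
  have e : (lam ^ D * X - Y) * ((1 - √2) ^ D * X - Y) =
      (((A * X - Y) ^ 2 - 2 * (B * X) ^ 2 : ℤ) : ℝ) := by
    rw [h1, h2]; push_cast; linear_combination (-((B : ℝ) * X) ^ 2) * hs
  have n3 : ((A * X - Y) ^ 2 - 2 * (B * X) ^ 2 : ℤ) ≠ 0 := by
    intro h
    rw [h] at e
    exact mul_ne_zero n1 n2 (by simpa using e)
  have n4 : (1 : ℝ) ≤ |(((A * X - Y) ^ 2 - 2 * (B * X) ^ 2 : ℤ) : ℝ)| := by
    have := Int.one_le_abs n3
    exact_mod_cast this
  rw [← e, abs_mul] at n4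
  refine n4.trans (mul_le_mul_of_nonneg_left ?_ (abs_nonneg _))
  have b1 := abs_sub ((1 - √2) ^ D * X : ℝ) Y
  rw [abs_mul, Nat.abs_cast, Nat.abs_cast] at b1
  have b2 : |(1 - √2 : ℝ) ^ D| * X ≤ 1 * X := mul_le_mul_of_nonneg_right hmu (Nat.cast_nonneg _)
  linarith

lemma fam_of {ν : Type} (lo hi : ν → ℝ)
    (h1 : ∀ k, 0 < lo k ∧ lo k ≤ hi k ∧ hi k ≤ 2 * lo k) (h2 : ∀ R, {k | lo k ≤ R}.Finite)
    (h3 : ∀ k k', k ≠ k' → ∀ x ∈ Icc (lo k) (hi k), x ∉ Icc (lo k') (hi k'))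
    (h4 : ∀ D : ℕ, 0 < D → ∃ R, ∀ k k', R ≤ lo k → ∀ x ∈ Icc (lo k) (hi k),
      lam ^ D * x ∉ Icc (lo k') (hi k')) : Fam lo hi := by
  refine ⟨h1, h2, fun B => ?_⟩
  choose! Rf hR using h4
  refine ⟨∑ D ∈ Finset.range (B + 1), |Rf D| * (1 + 2 * lam ^ D), ?_⟩
  intro k k' hk d hd hne x hx hx'
  have hb : ∀ D : ℕ, D ≤ B → |Rf D| * (1 + 2 * lam ^ D) ≤ lo k := by
    intro D hD
    refine le_trans ?_ hk
    exact Finset.single_le_sum (f := fun D => |Rf D| * (1 + 2 * lam ^ D))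
      (fun i _ => by have := lam_pos; positivity) (Finset.mem_range.2 (by omega))
  rcases lt_trichotomy d 0 with hd0 | hd0 | hd0
  · obtain ⟨D, rfl⟩ : ∃ D : ℕ, d = -(D : ℤ) := ⟨(-d).toNat, by omega⟩
    have hD : 0 < D := by omega
    have hDB : D ≤ B := by
      rw [abs_neg, Nat.abs_cast] at hd; exact_mod_cast hd
    have hp : 0 < lam ^ D := pow_pos lam_pos D
    rw [zpow_neg, zpow_natCast] at hx'
    have e : lam ^ D * ((lam ^ D)⁻¹ * x) = x := by field_simp
    refine hR D hD k' k ?_ _ hx' (by rw [e]; exact hx)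
    have a1 := hb D hDB
    have a2 : x ≤ lam ^ D * (2 * lo k') := by
      rw [← e]
      exact mul_le_mul_of_nonneg_left (hx'.2.trans (h1 k').2.2) hp.le
    have a3 := hx.1
    have a4 := le_abs_self (Rf D)
    have a5 := abs_nonneg (Rf D)
    have a6 : lam ^ D * (2 * |Rf D|) ≤ lam ^ D * (2 * lo k') := by nlinarith
    have a7 := le_of_mul_le_mul_left a6 hp
    linarith
  · subst hd0
    rw [zpow_zero, one_mul] at hx'
    exact h3 k k' (hne.resolve_left (by simp)) x hx hx'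
  · obtain ⟨D, rfl⟩ : ∃ D : ℕ, d = (D : ℤ) := ⟨d.toNat, by omega⟩
    have hD : 0 < D := by omega
    have hDB : D ≤ B := by
      rw [Nat.abs_cast] at hd; exact_mod_cast hd
    rw [zpow_natCast] at hx'
    refine hR D hD k k' ?_ x hx hx'
    have a1 := hb D hDB
    have hp : 0 < lam ^ D := pow_pos lam_pos D
    have a4 := le_abs_self (Rf D)
    have a5 := abs_nonneg (Rf D)
    nlinarith

lemma small (e : ℕ) (he : 3 ≤ e) : 0 < 1 / (e : ℝ) ^ 2 ∧ 1 / (e : ℝ) ^ 2 ≤ 1 / 9 := by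
  have h : (3 : ℝ) ≤ e := by exact_mod_cast he
  refine ⟨by positivity, ?_⟩
  apply one_div_le_one_div_of_le (by norm_num)
  nlinarith

lemma loZ_eq (k : IZ) : loZ k = 2 ^ k.1.1 * ((k.1.2 : ℝ) - 2 * (1 / (k.1.1 : ℝ) ^ 2)) := by
  unfold loZ; ring

lemma hiZ_eq (k : IZ) : hiZ k = 2 ^ k.1.1 * ((k.1.2 : ℝ) + 4 * (1 / (k.1.1 : ℝ) ^ 2)) := by
  unfold hiZ; ring

lemma blockZ (k k' : IZ) (h : k.1.1 < k'.1.1) : hiZ k < loZ k' := by
  obtain ⟨⟨e, n⟩, h1, h2, h3⟩ := k
  obtain ⟨⟨e', n'⟩, h1', h2', h3'⟩ := k'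
  rw [loZ_eq, hiZ_eq]
  simp only at *
  have s1 := small e h1
  have s2 := small e' h1'
  have a1 : (n : ℝ) ≤ 2 * e := by exact_mod_cast h3
  have a2 : (e : ℝ) + 1 ≤ n' := by
    have : e + 1 ≤ n' := by omega
    exact_mod_cast this
  have a3 : (2 : ℝ) ^ (e + 1) ≤ 2 ^ e' := pow_le_pow_right₀ (by norm_num) h
  have a4 : (0 : ℝ) < 2 ^ e := by positivity
  have a5 : (0 : ℝ) ≤ e := Nat.cast_nonneg _
  calc (2 : ℝ) ^ e * (n + 4 * (1 / (e : ℝ) ^ 2)) < 2 ^ e * (2 * (e + 1 - 2 / 9)) :=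
        mul_lt_mul_of_pos_left (by linarith) a4
    _ = 2 ^ (e + 1) * (e + 1 - 2 / 9) := by ring
    _ ≤ 2 ^ e' * (n' - 2 * (1 / (e' : ℝ) ^ 2)) :=
        mul_le_mul a3 (by linarith) (by linarith) (by positivity)

lemma rowZ (k k' : IZ) (h : k.1.1 = k'.1.1) (h' : k.1.2 < k'.1.2) : hiZ k < loZ k' := by
  obtain ⟨⟨e, n⟩, h1, h2, h3⟩ := k
  obtain ⟨⟨e', n'⟩, h1', h2', h3'⟩ := k'
  rw [loZ_eq, hiZ_eq]
  simp only at *
  subst h
  have s1 := small e h1
  have a2 : (n : ℝ) + 1 ≤ n' := by exact_mod_cast h'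
  exact mul_lt_mul_of_pos_left (by linarith) (by positivity)

lemma rE_ge (e : ℕ) : 10 ≤ rE e := by
  unfold rE
  have := Real.log_natCast_nonneg e
  linarith

lemma smallE (e : ℕ) : 0 < 1 / rE e ∧ 1 / rE e ≤ 1 / 10 := by
  have h := rE_ge e
  exact ⟨by positivity, one_div_le_one_div_of_le (by norm_num) h⟩

lemma loE_eq (k : IE) : loE k = 2 ^ (k.1 + 1) * (k.1 : ℝ) * (1 - 2 * (1 / rE k.1)) := by
  unfold loE; ring

lemma hiE_eq (k : IE) : hiE k = 2 ^ (k.1 + 1) * (k.1 : ℝ) * (1 + 4 * (1 / rE k.1)) := by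
  unfold hiE; ring

lemma blockE (k k' : IE) (h : k.1 < k'.1) : hiE k < loE k' := by
  obtain ⟨e, h1⟩ := k
  obtain ⟨e', h1'⟩ := k'
  rw [loE_eq, hiE_eq]
  simp only at *
  have s1 := smallE e
  have s2 := smallE e'
  have a2 : (e : ℝ) ≤ e' := by exact_mod_cast h.le
  have a3 : (2 : ℝ) ^ (e + 1 + 1) ≤ 2 ^ (e' + 1) := pow_le_pow_right₀ (by norm_num) (by omega)
  have a5 : (3 : ℝ) ≤ e := by exact_mod_cast h1
  have a4 : (0 : ℝ) < 2 ^ (e + 1) * e := by positivity
  calc (2 : ℝ) ^ (e + 1) * e * (1 + 4 * (1 / rE e)) < 2 ^ (e + 1) * e * (2 * (8 / 10)) :=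
        mul_lt_mul_of_pos_left (by linarith) a4
    _ = 2 ^ (e + 1 + 1) * e * (8 / 10) := by ring
    _ ≤ 2 ^ (e' + 1) * e' * (1 - 2 * (1 / rE e')) :=
        mul_le_mul (mul_le_mul a3 a2 (by linarith) (by positivity)) (by linarith) (by norm_num)
          (by positivity)

lemma basicZ (k : IZ) : (k.1.1 : ℝ) ≤ loZ k ∧ loZ k ≤ hiZ k ∧ hiZ k ≤ 2 * loZ k ∧
    loZ k ≤ 2 ^ k.1.1 * (2 * k.1.1) := by
  obtain ⟨⟨e, n⟩, h1, h2, h3⟩ := k
  rw [loZ_eq, hiZ_eq]
  simp only at *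
  have s1 := small e h1
  have a1 : (n : ℝ) ≤ 2 * e := by exact_mod_cast h3
  have a2 : (e : ℝ) ≤ n := by exact_mod_cast h2
  have a5 : (3 : ℝ) ≤ e := by exact_mod_cast h1
  have a3 : (2 : ℝ) ^ 1 ≤ 2 ^ e := pow_le_pow_right₀ (by norm_num) (by omega)
  have a4 : (0 : ℝ) < 2 ^ e := by positivity
  refine ⟨?_, ?_, ?_, ?_⟩
  · calc (e : ℝ) ≤ 2 ^ 1 * (n - 2 * (1 / (e : ℝ) ^ 2)) := by linarith
      _ ≤ _ := mul_le_mul_of_nonneg_right a3 (by linarith)
  · exact mul_le_mul_of_nonneg_left (by linarith) a4.le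
  · rw [mul_left_comm]
    exact mul_le_mul_of_nonneg_left (by linarith) a4.le
  · exact mul_le_mul_of_nonneg_left (by linarith) a4.le

lemma basicE (k : IE) : (k.1 : ℝ) ≤ loE k ∧ loE k ≤ hiE k ∧ hiE k ≤ 2 * loE k ∧
    loE k ≤ 2 ^ (k.1 + 1) * k.1 := by
  obtain ⟨e, h1⟩ := k
  rw [loE_eq, hiE_eq]
  simp only at *
  have s1 := smallE e
  have a5 : (3 : ℝ) ≤ e := by exact_mod_cast h1
  have a3 : (2 : ℝ) ^ 1 ≤ 2 ^ (e + 1) := pow_le_pow_right₀ (by norm_num) (by omega)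
  have a4 : (0 : ℝ) < 2 ^ (e + 1) * e := by positivity
  refine ⟨?_, ?_, ?_, ?_⟩
  · calc (e : ℝ) ≤ 2 ^ 1 * e * (8 / 10) := by linarith
      _ ≤ _ := mul_le_mul (mul_le_mul_of_nonneg_right a3 (by linarith)) (by linarith)
          (by norm_num) a4.le
  · exact mul_le_mul_of_nonneg_left (by linarith) a4.le
  · rw [mul_left_comm]
    exact mul_le_mul_of_nonneg_left (by linarith) a4.le
  · exact mul_le_of_le_one_right a4.le (by linarith)

lemma coreZ (L e n n' J u u' y : ℝ) (hL : 1 ≤ L) (he : 3 ≤ e) (hn : e ≤ n) (hn2 : n ≤ 2 * e)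
    (hn' : e ≤ n') (hJ : 0 < J) (hu : u = 1 / e ^ 2) (hu0 : 0 < u') (hu' : u' ≤ u)
    (y1 : n - 2 * u ≤ y) (y2 : y ≤ n + 4 * u) (y3 : J * (n' - 2 * u') ≤ L * y)
    (y4 : L * y ≤ J * (n' + 4 * u')) (hd : 1 ≤ |L * n - J * n'| * (n + J * n')) :
    e ≤ 120 * L ^ 2 := by
  have u1 : u ≤ 1 / 9 := by
    rw [hu]; apply one_div_le_one_div_of_le (by norm_num); nlinarith
  have u0 : 0 < u := lt_of_lt_of_le hu0 hu'
  have a1 : L * y ≤ L * (2 * e + 1) := mul_le_mul_of_nonneg_left (by linarith) (by linarith)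
  have a2 : J * ((2 * e + 1) / 4) ≤ J * (n' - 2 * u') :=
    mul_le_mul_of_nonneg_left (by linarith) hJ.le
  have a3 : J ≤ 4 * L := by
    have : J * (2 * e + 1) ≤ 4 * L * (2 * e + 1) := by linarith
    exact le_of_mul_le_mul_right this (by linarith)
  have a4 : J * u' ≤ 4 * L * u := mul_le_mul a3 hu' hu0.le (by linarith)
  have a5 : L * u ≤ L * (1 / 9) := mul_le_mul_of_nonneg_left u1 (by linarith)
  have a6 : L * 3 ≤ L * e := mul_le_mul_of_nonneg_left he (by linarith)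
  have a7 : 1 * e ≤ L * e := mul_le_mul_of_nonneg_right hL (by linarith)
  have a8 : n + J * n' ≤ 6 * (L * e) := by nlinarith
  have b1 : L * (n - 2 * u) ≤ L * y := mul_le_mul_of_nonneg_left y1 (by linarith)
  have b2 : L * y ≤ L * (n + 4 * u) := mul_le_mul_of_nonneg_left y2 (by linarith)
  have b3 : 0 < L * u := by positivity
  have b4 : 0 < J * u' := by positivity
  have a9 : |L * n - J * n'| ≤ 20 * (L * u) := by
    rw [abs_le]; constructor <;> nlinarith
  have c0 : 0 < J * n' := mul_pos hJ (by linarith)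
  have c1 : |L * n - J * n'| * (n + J * n') ≤ 20 * (L * u) * (6 * (L * e)) :=
    mul_le_mul a9 a8 (by linarith) (by linarith)
  have c2 : 20 * (L * u) * (6 * (L * e)) = 120 * L ^ 2 / e := by
    rw [hu]; field_simp; norm_num
  rw [c2] at c1
  have c3 := hd.trans c1
  rw [le_div_iff₀ (by linarith)] at c3
  linarith

lemma coreE (L e j J u u' y : ℝ) (hL : 1 ≤ L) (he : 3 ≤ e) (hj : 0 ≤ j) (hjJ : j ≤ J)
    (hJ : 0 < J) (hu : u ≤ 1 / 10) (hue : 1 ≤ 5 * e * u) (hu0 : 0 < u') (hu' : u' ≤ u)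
    (y1 : e * (1 - 2 * u) ≤ y) (y2 : y ≤ e * (1 + 4 * u))
    (y3 : J * ((e + j) * (1 - 2 * u')) ≤ L * y) (y4 : L * y ≤ J * ((e + j) * (1 + 4 * u')))
    (hd : 1 ≤ |L - J| * (1 + J)) : 1 ≤ 120 * L ^ 3 * u := by
  have u0 : 0 < u := lt_of_lt_of_le hu0 hu'
  have e0 : 0 < e := by linarith
  have a0 : e * (1 + 4 * u) ≤ e * (14 / 10) := mul_le_mul_of_nonneg_left (by linarith) e0.le
  have a1 : L * y ≤ L * (e * (14 / 10)) := mul_le_mul_of_nonneg_left (by linarith) (by linarith)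
  have a2 : J * (e * (8 / 10)) ≤ J * ((e + j) * (1 - 2 * u')) :=
    mul_le_mul_of_nonneg_left (mul_le_mul (by linarith) (by linarith) (by norm_num)
      (by linarith)) hJ.le
  have a3 : J ≤ 2 * L := by
    have h1 : J * e ≤ 2 * L * e := by nlinarith
    exact le_of_mul_le_mul_right h1 e0
  have b1 : L * (e * (1 - 2 * u)) ≤ L * y := mul_le_mul_of_nonneg_left y1 (by linarith)
  have b2 : L * y ≤ L * (e * (1 + 4 * u)) := mul_le_mul_of_nonneg_left y2 (by linarith)
  have b3 : J * (e * (1 - 2 * u)) ≤ J * ((e + j) * (1 - 2 * u')) :=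
    mul_le_mul_of_nonneg_left (mul_le_mul (by linarith) (by linarith) (by linarith)
      (by linarith)) hJ.le
  have b4 : (e + j) * (1 + 4 * u') ≤ e * (1 + 4 * u) + 2 * L * (14 / 10) := by
    have h1 : e * (1 + 4 * u') ≤ e * (1 + 4 * u) := mul_le_mul_of_nonneg_left (by linarith) e0.le
    have h2 : j * (1 + 4 * u') ≤ 2 * L * (14 / 10) :=
      mul_le_mul (by linarith) (by linarith) (by linarith) (by linarith)
    linarith
  have b5 : J * ((e + j) * (1 + 4 * u')) ≤ J * (e * (1 + 4 * u) + 2 * L * (14 / 10)) :=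
    mul_le_mul_of_nonneg_left b4 hJ.le
  have w0 : 0 < e * u := by positivity
  have w1 : J * (e * u) ≤ 2 * L * (e * u) := mul_le_mul_of_nonneg_right a3 w0.le
  have w2 : L * (e * u) ≤ L ^ 2 * (e * u) := mul_le_mul_of_nonneg_right (by nlinarith) w0.le
  have w3 : J * L ≤ 2 * L * L := mul_le_mul_of_nonneg_right a3 (by linarith)
  have w4 : L ^ 2 * 1 ≤ L ^ 2 * (5 * e * u) := mul_le_mul_of_nonneg_left hue (by positivity)
  have w5 : 0 < L * (e * u) := by positivity
  have a9 : |L - J| ≤ 40 * L ^ 2 * u := by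
    rw [abs_le]; constructor
    · have h1 : (J - L) * e ≤ 40 * L ^ 2 * u * e := by nlinarith
      have := le_of_mul_le_mul_right h1 e0
      linarith
    · have h1 : (L - J) * e ≤ 40 * L ^ 2 * u * e := by nlinarith
      exact le_of_mul_le_mul_right h1 e0
  have c1 : |L - J| * (1 + J) ≤ 40 * L ^ 2 * u * (3 * L) :=
    mul_le_mul a9 (by linarith) (by linarith) (by positivity)
  calc (1 : ℝ) ≤ _ := hd.trans c1
    _ = _ := by ring

end Sep148

open Sep148

theorem sepZ : Fam loZ hiZ := by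
  apply fam_of
  · intro k
    have h := basicZ k
    have a5 : (3 : ℝ) ≤ k.1.1 := by exact_mod_cast k.2.1
    exact ⟨by linarith, h.2.1, h.2.2.1⟩
  · intro R
    obtain ⟨N, hN⟩ := exists_nat_ge R
    refine (((Set.finite_Iic N).prod (Set.finite_Iic (2 * N))).preimage
      (Subtype.val_injective.injOn)).subset ?_
    intro k hk
    have h1 : (k.1.1 : ℝ) ≤ N := ((basicZ k).1.trans hk).trans hN
    have h2 : k.1.1 ≤ N := by exact_mod_cast h1
    have h3 := k.2.2.2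
    exact ⟨h2, by simp only [mem_Iic]; omega⟩
  · intro k k' hne x hx hx'
    have key : hiZ k < loZ k' ∨ hiZ k' < loZ k := by
      rcases lt_trichotomy k.1.1 k'.1.1 with h | h | h
      · exact Or.inl (blockZ k k' h)
      · rcases lt_trichotomy k.1.2 k'.1.2 with h' | h' | h'
        · exact Or.inl (rowZ k k' h h')
        · exact absurd (Subtype.ext (Prod.ext h h')) hne
        · exact Or.inr (rowZ k' k h.symm h')
      · exact Or.inr (blockZ k' k h)
    rcases key with h | h <;> linarith [hx.1, hx.2, hx'.1, hx'.2]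
  · intro D hD
    obtain ⟨N, hN⟩ := exists_nat_ge (120 * (lam ^ D) ^ 2)
    refine ⟨2 ^ N * (2 * N) + 1, ?_⟩
    intro k k' hk x hx hx'
    have hL : 1 ≤ lam ^ D := one_le_pow₀ one_lt_lam.le
    have hb := basicZ k
    have a5 : (3 : ℝ) ≤ k.1.1 := by exact_mod_cast k.2.1
    have hx0 : 0 < x := by linarith [hx.1]
    have hle : k.1.1 ≤ k'.1.1 := by
      by_contra hc
      have h1 := blockZ k' k (not_le.1 hc)
      have h2 : 1 * x ≤ lam ^ D * x := mul_le_mul_of_nonneg_right hL hx0.le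
      linarith [hx.1, hx'.2]
    rw [loZ_eq, hiZ_eq] at hx hx'
    obtain ⟨⟨e, n⟩, h1, h2, h3⟩ := k
    obtain ⟨⟨e', n'⟩, h1', h2', h3'⟩ := k'
    simp only at hx hx' hle h1 h2 h3 h1' h2' h3' a5
    obtain ⟨j, rfl⟩ := Nat.exists_eq_add_of_le hle
    have p0 : (0 : ℝ) < 2 ^ e := by positivity
    have hd := dioph D hD n (2 ^ j * n') (by omega)
    push_cast at hd
    have hc : (e : ℝ) ≤ 120 * (lam ^ D) ^ 2 := by
      refine coreZ (lam ^ D) e n n' (2 ^ j) (1 / (e : ℝ) ^ 2) (1 / ((e + j : ℕ) : ℝ) ^ 2)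
        (x / 2 ^ e) hL a5 (by exact_mod_cast h2) (by exact_mod_cast h3)
        (by have : e ≤ n' := by omega
            exact_mod_cast this) (by positivity) rfl (small _ h1').1 ?_ ?_ ?_ ?_ ?_ hd
      · apply one_div_le_one_div_of_le (by positivity)
        have : (e : ℝ) ≤ ((e + j : ℕ) : ℝ) := by exact_mod_cast hle
        nlinarith
      · rw [le_div_iff₀ p0]; linarith [hx.1]
      · rw [div_le_iff₀ p0]; linarith [hx.2]
      · rw [← mul_div_assoc (lam ^ D), le_div_iff₀ p0]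
        have := hx'.1
        rw [pow_add] at this
        linarith
      · rw [← mul_div_assoc (lam ^ D), div_le_iff₀ p0]
        have := hx'.2
        rw [pow_add] at this
        linarith
    have c1 : (e : ℝ) ≤ N := hc.trans hN
    have c2 : e ≤ N := by exact_mod_cast c1
    have c3 : (2 : ℝ) ^ e * (2 * e) ≤ 2 ^ N * (2 * N) :=
      mul_le_mul (pow_le_pow_right₀ (by norm_num) c2) (by linarith) (by linarith) (by positivity)
    have c4 := hb.2.2.2
    simp only at c4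
    linarith

theorem sepE : Fam loE hiE := by
  apply fam_of
  · intro k
    have h := basicE k
    have a5 : (3 : ℝ) ≤ k.1 := by exact_mod_cast k.2
    exact ⟨by linarith, h.2.1, h.2.2.1⟩
  · intro R
    obtain ⟨N, hN⟩ := exists_nat_ge R
    refine ((Set.finite_Iic N).preimage (Subtype.val_injective.injOn)).subset ?_
    intro k hk
    have h1 : (k.1 : ℝ) ≤ N := ((basicE k).1.trans hk).trans hN
    exact_mod_cast h1
  · intro k k' hne x hx hx'
    have key : hiE k < loE k' ∨ hiE k' < loE k := by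
      rcases lt_trichotomy k.1 k'.1 with h | h | h
      · exact Or.inl (blockE k k' h)
      · exact absurd (Subtype.ext h) hne
      · exact Or.inr (blockE k' k h)
    rcases key with h | h <;> linarith [hx.1, hx.2, hx'.1, hx'.2]
  · intro D hD
    obtain ⟨N, hN⟩ := exists_nat_ge (Real.exp (120 * (lam ^ D) ^ 3))
    refine ⟨2 ^ (N + 1) * N + 1, ?_⟩
    intro k k' hk x hx hx'
    have hL : 1 ≤ lam ^ D := one_le_pow₀ one_lt_lam.le
    have hb := basicE k
    have a5 : (3 : ℝ) ≤ k.1 := by exact_mod_cast k.2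
    have hx0 : 0 < x := by linarith [hx.1]
    have hle : k.1 ≤ k'.1 := by
      by_contra hc
      have h1 := blockE k' k (not_le.1 hc)
      have h2 : 1 * x ≤ lam ^ D * x := mul_le_mul_of_nonneg_right hL hx0.le
      linarith [hx.1, hx'.2]
    rw [loE_eq, hiE_eq] at hx hx'
    obtain ⟨e, h1⟩ := k
    obtain ⟨e', h1'⟩ := k'
    simp only at hx hx' hle h1 h1' a5
    obtain ⟨j, rfl⟩ := Nat.exists_eq_add_of_le hle
    have p0 : (0 : ℝ) < 2 ^ (e + 1) := by positivity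
    have hd := dioph D hD 1 (2 ^ j) one_pos
    push_cast at hd
    rw [mul_one] at hd
    have r0 : 0 < rE e := by linarith [rE_ge e]
    have pe : (2 : ℝ) ^ (e + j + 1) = 2 ^ (e + 1) * 2 ^ j := by ring
    have hc : 1 ≤ 120 * (lam ^ D) ^ 3 * (1 / rE e) := by
      refine coreE (lam ^ D) e j (2 ^ j) (1 / rE e) (1 / rE (e + j))
        (x / 2 ^ (e + 1)) hL a5 (Nat.cast_nonneg _)
        (by have := (Nat.lt_two_pow_self (n := j)).le
            exact_mod_cast this) (by positivity) (smallE e).2 ?_ (smallE _).1 ?_ ?_ ?_ ?_ ?_ hd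
      · rw [← mul_div_assoc, le_div_iff₀ r0]
        have := Real.log_le_sub_one_of_pos (x := (e : ℝ)) (by linarith)
        unfold rE
        linarith
      · apply one_div_le_one_div_of_le r0
        unfold rE
        have : (e : ℝ) ≤ ((e + j : ℕ) : ℝ) := by exact_mod_cast hle
        have := Real.log_le_log (by linarith) this
        linarith
      · rw [le_div_iff₀ p0]; linarith [hx.1]
      · rw [div_le_iff₀ p0]; linarith [hx.2]
      · rw [← mul_div_assoc (lam ^ D), le_div_iff₀ p0]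
        have := hx'.1
        rw [pe] at this
        push_cast at this
        linarith
      · rw [← mul_div_assoc (lam ^ D), div_le_iff₀ p0]
        have := hx'.2
        rw [pe] at this
        push_cast at this
        linarith
    rw [← mul_div_assoc, le_div_iff₀ r0] at hc
    have c0 : Real.log e ≤ 120 * (lam ^ D) ^ 3 := by
      unfold rE at hc
      linarith
    have c1 : (e : ℝ) ≤ N := by
      rw [Real.log_le_iff_le_exp (by linarith)] at c0
      exact c0.trans hN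
    have c2 : e ≤ N := by exact_mod_cast c1
    have c3 : (2 : ℝ) ^ (e + 1) * e ≤ 2 ^ (N + 1) * N :=
      mul_le_mul (pow_le_pow_right₀ (by norm_num) (by omega)) c1 (by linarith) (by positivity)
    have c4 := hb.2.2.2
    simp only at c4
    linarith

end Pool.Agent.H113Z.Dist
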