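import Pool.Agent.H148Z.FanDefs

set_option autoImplicit false

namespace Pool.Agent.H148Z.Fan

open Set Filter Topology

section general

variable {F G : Type} [TopologicalSpace F] [TopologicalSpace G]

lemma IsArc.isClosed [T2Space F] {A : Set F} {x y : F} (h : IsArc A x y) : IsClosed A := by
  obtain ⟨γ, hc, -, -, -, rfl⟩ := h
  exact (isCompact_range hc).isClosed

lemma IsArc.isPreconnected {A : Set F} {x y : F} (h : IsArc A x y) : IsPreconnected A := by
  obtain ⟨γ, hc, -, -, -, rfl⟩ := h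
  exact isPreconnected_range hc

lemma IsArc.left_mem {A : Set F} {x y : F} (h : IsArc A x y) : x ∈ A := by
  obtain ⟨γ, -, -, h0, -, rfl⟩ := h
  exact ⟨0, h0⟩

lemma IsArc.right_mem {A : Set F} {x y : F} (h : IsArc A x y) : y ∈ A := by
  obtain ⟨γ, -, -, -, h1, rfl⟩ := h
  exact ⟨1, h1⟩

lemma IsArc.ne {A : Set F} {x y : F} (h : IsArc A x y) : x ≠ y := by
  obtain ⟨γ, -, hi, h0, h1, rfl⟩ := h
  intro hxy
  exact zero_ne_one (hi (h0.trans (hxy.trans h1.symm)))

/-- A connected part of an arc containing both endpoints is the whole arc. -/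
lemma IsArc.eq_of_subset [T2Space F] {A S : Set F} {x y : F} (h : IsArc A x y) (hS : S ⊆ A)
    (hc : IsPreconnected S) (hx : x ∈ S) (hy : y ∈ S) : S = A := by
  obtain ⟨γ, hγ, hi, h0, h1, rfl⟩ := h
  have hemb : IsEmbedding γ := (hγ.isClosedEmbedding hi).isEmbedding
  have h2 : IsPreconnected (γ ⁻¹' S) := by
    rw [← hemb.isInducing.isPreconnected_image, image_preimage_eq_of_subset hS]
    exact hc
  refine Subset.antisymm hS ?_
  rintro _ ⟨r, rfl⟩
  have := h2.ordConnected.out (show (0 : unitInterval) ∈ γ ⁻¹' S by simpa [h0] using hx)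
    (show (1 : unitInterval) ∈ γ ⁻¹' S by simpa [h1] using hy)
    (show r ∈ Icc (0 : unitInterval) 1 from ⟨r.2.1, r.2.2⟩)
  exact this

lemma IsArc.image {A : Set F} {x y : F} (h : IsArc A x y) (e : F ≃ₜ G) :
    IsArc (e '' A) (e x) (e y) := by
  obtain ⟨γ, hγ, hi, h0, h1, rfl⟩ := h
  exact ⟨e ∘ γ, e.continuous.comp hγ, e.injective.comp hi, by simp [h0], by simp [h1],
    range_comp _ _⟩

lemma IsEndpoint.image {p : F} (h : IsEndpoint p) (e : F ≃ₜ G) : IsEndpoint (e p) := by
  intro A x y hA hp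
  rcases h _ _ _ (hA.image e.symm) ⟨_, hp, e.symm_apply_apply p⟩ with h1 | h1
  · left; rw [h1]; simp
  · right; rw [h1]; simp

lemma image_ends (e : F ≃ₜ G) : e '' {p : F | IsEndpoint p} = {p : G | IsEndpoint p} := by
  ext q
  constructor
  · rintro ⟨p, hp, rfl⟩; exact IsEndpoint.image hp e
  · intro hq; exact ⟨e.symm q, IsEndpoint.image hq e.symm, by simp⟩

/-- The topological invariant used to tell the two fans apart. -/
def Marks (F : Type) [TopologicalSpace F] : Set F :=
  {p | p ∈ closure {e : F | IsEndpoint e} ∧ ¬ IsEndpoint p ∧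
    ∃ C : Set F, IsPreconnected C ∧ Disjoint C (closure {e : F | IsEndpoint e}) ∧ p ∈ closure C}

lemma marks_image (e : F ≃ₜ G) : e '' Marks F ⊆ Marks G := by
  rintro _ ⟨p, ⟨h1, h2, C, h3, h4, h5⟩, rfl⟩
  refine ⟨?_, fun h => h2 (by simpa using h.image e.symm), e '' C,
    h3.image _ e.continuous.continuousOn, ?_, ?_⟩
  · rw [← image_ends e, ← e.image_closure]; exact mem_image_of_mem _ h1
  · rw [← image_ends e, ← e.image_closure]
    exact (disjoint_image_iff e.injective).2 h4
  · rw [← e.image_closure]; exact mem_image_of_mem _ h5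

lemma countable_marks (e : F ≃ₜ G) (h : (closure (Marks G)).Countable) :
    (closure (Marks F)).Countable := by
  have h1 : e '' closure (Marks F) ⊆ closure (Marks G) := by
    rw [e.image_closure]; exact closure_mono (marks_image e)
  exact countable_of_injective_of_countable_image e.injective.injOn (h.mono h1)

/-- Gluing: two decompositions of `F` as a one point union of two copies of itself differ by a
homeomorphism. -/
lemma glue [CompactSpace F] [T2Space F] (t : F) (a b a' b' : F → F) (ha : Continuous a)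
    (hb : Continuous b) (ha' : Continuous a') (hb' : Continuous b')
    (ia : Function.Injective a) (ib : Function.Injective b)
    (ia' : Function.Injective a') (ib' : Function.Injective b')
    (hs : ∀ p, (∃ x, a x = p) ∨ ∃ x, b x = p) (hs' : ∀ p, (∃ x, a' x = p) ∨ ∃ x, b' x = p)
    (hm : ∀ x y, a x = b y ↔ x = t ∧ y = t) (hm' : ∀ x y, a' x = b' y ↔ x = t ∧ y = t) :
    ∃ h : F ≃ₜ F, (∀ x, h (a x) = a' x) ∧ ∀ x, h (b x) = b' x := by
  let q : F ⊕ F → F := Sum.elim a b
  let q' : F ⊕ F → F := Sum.elim a' b'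
  have hq : Continuous q := ha.sumElim hb
  have hq' : Continuous q' := ha'.sumElim hb'
  have sq : Function.Surjective q := fun p => by
    rcases hs p with ⟨x, hx⟩ | ⟨x, hx⟩
    exacts [⟨Sum.inl x, hx⟩, ⟨Sum.inr x, hx⟩]
  have sq' : Function.Surjective q' := fun p => by
    rcases hs' p with ⟨x, hx⟩ | ⟨x, hx⟩
    exacts [⟨Sum.inl x, hx⟩, ⟨Sum.inr x, hx⟩]
  have hker : ∀ u v, q u = q v ↔ q' u = q' v := by
    rintro (u | u) (v | v)
    · simp only [q, q', Sum.elim_inl, ia.eq_iff, ia'.eq_iff]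
    · simp only [q, q', Sum.elim_inl, Sum.elim_inr, hm, hm']
    · simp only [q, q', Sum.elim_inl, Sum.elim_inr]
      rw [eq_comm, hm, eq_comm (a := b' u), hm']
    · simp only [q, q', Sum.elim_inr, ib.eq_iff, ib'.eq_iff]
  let f : F → F := fun p => q' (Function.surjInv sq p)
  have hf : ∀ u, f (q u) = q' u := fun u => (hker _ _).1 (Function.surjInv_eq sq _)
  have hfc : Continuous f := by
    have hQ : IsQuotientMap q := hq.isClosedMap.isQuotientMap hq sq
    rw [hQ.continuous_iff]
    have : f ∘ q = q' := funext hf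
    rw [this]; exact hq'
  have hfb : Function.Bijective f := by
    constructor
    · intro p p' hpp
      obtain ⟨u, rfl⟩ := sq p
      obtain ⟨v, rfl⟩ := sq p'
      rw [hf, hf] at hpp
      exact (hker _ _).2 hpp
    · intro p
      obtain ⟨u, rfl⟩ := sq' p
      exact ⟨q u, hf u⟩
  exact ⟨Continuous.homeoOfEquivCompactToT2 (f := Equiv.ofBijective f hfb) hfc,
    fun x => hf (Sum.inl x), fun x => hf (Sum.inr x)⟩

end general

lemma smooth_of_scale {F : Type} [MetricSpace F] [CompactSpace F] (t : F)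
    (a : F × unitInterval → F) (ha : Continuous a)
    (h : ∀ x A, IsArcOrPoint A t x → A = range fun r => a (x, r)) : IsSmooth t := by
  intro y x hx A As hA hAs
  have hu : UniformContinuous a := CompactSpace.uniformContinuous_of_continuous ha
  rw [Metric.tendsto_atTop]
  intro ε hε
  obtain ⟨δ, hδ, hδ'⟩ := Metric.uniformContinuous_iff.1 hu (ε / 2) (by linarith)
  obtain ⟨N, hN⟩ := Metric.tendsto_atTop.1 hx δ hδ
  refine ⟨N, fun n hn => ?_⟩
  have key : ∀ r, dist (a (x n, r)) (a (y, r)) ≤ ε / 2 := fun r =>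
    (hδ' (by simpa [Prod.dist_eq] using hN n hn)).le
  rw [Real.dist_eq, sub_zero, abs_of_nonneg Metric.hausdorffDist_nonneg, h _ _ hA, h _ _ (hAs n)]
  refine lt_of_le_of_lt (Metric.hausdorffDist_le_of_mem_dist (by linarith) ?_ ?_)
    (half_lt_self hε)
  · rintro _ ⟨r, rfl⟩; exact ⟨_, ⟨r, rfl⟩, key r⟩
  · rintro _ ⟨r, rfl⟩; exact ⟨_, ⟨r, rfl⟩, by rw [dist_comm]; exact key r⟩

end Pool.Agent.H148Z.Fan
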