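import Pool.Agent.H148Z.Fan1

set_option autoImplicit false

namespace Pool.Agent.H148Z.Fan

open Set Filter Topology

/-- A countable family of contracting increasing maps fixing zero. -/
structure Sys where
  φ : ℕ → ℝ → ℝ
  cont : ∀ i, Continuous (φ i)
  mono : ∀ i, StrictMono (φ i)
  zero : ∀ i, φ i 0 = 0
  half : ∀ i x, 0 ≤ x → φ i x ≤ x / 2

/-- Addresses of blades. -/
abbrev Ad := List (ℕ × ℕ)

namespace Sys

variable (S : Sys)

/-- Composition along an address. -/
def Φ : Ad → ℝ → ℝ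
  | [], x => x
  | c :: s, x => S.φ c.1 (Φ s x)

lemma Φ_cont : ∀ s : Ad, Continuous (S.Φ s)
  | [] => continuous_id
  | c :: s => (S.cont c.1).comp (Φ_cont s)

lemma Φ_mono : ∀ s : Ad, StrictMono (S.Φ s)
  | [] => strictMono_id
  | c :: s => (S.mono c.1).comp (Φ_mono s)

lemma Φ_zero : ∀ s : Ad, S.Φ s 0 = 0
  | [] => rfl
  | c :: s => by rw [Φ, Φ_zero s, S.zero]

lemma Φ_append : ∀ (s u : Ad) (x : ℝ), S.Φ (s ++ u) x = S.Φ s (S.Φ u x)
  | [], _, _ => rfl
  | c :: s, u, x => by rw [List.cons_append, Φ, Φ, Φ_append s u x]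

lemma Φ_nonneg (s : Ad) {x : ℝ} (hx : 0 ≤ x) : 0 ≤ S.Φ s x := by
  have := (S.Φ_mono s).monotone hx
  rwa [Φ_zero] at this

lemma Φ_pos (s : Ad) {x : ℝ} (hx : 0 < x) : 0 < S.Φ s x := by
  have := S.Φ_mono s hx
  rwa [Φ_zero] at this

lemma Φ_le : ∀ (s : Ad) {x : ℝ}, 0 ≤ x → S.Φ s x ≤ (1 / 2) ^ s.length * x
  | [], x, _ => by simp [Φ]
  | c :: s, x, hx => by
    have h1 := S.half c.1 _ (S.Φ_nonneg s hx)
    have h2 := Φ_le s hx
    rw [Φ, List.length_cons, pow_succ]
    linarith

/-- Length of a blade. -/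
def len (s : Ad) : ℝ := S.Φ s 1

lemma len_pos (s : Ad) : 0 < S.len s := S.Φ_pos s one_pos

lemma len_nil : S.len [] = 1 := rfl

lemma len_le (s : Ad) : S.len s ≤ (1 / 2) ^ s.length := by
  simpa [len] using S.Φ_le s zero_le_one

lemma len_le_one (s : Ad) : S.len s ≤ 1 :=
  (S.len_le s).trans (pow_le_one₀ (by norm_num) (by norm_num))

lemma len_le_half {s : Ad} (hs : s ≠ []) : S.len s ≤ 1 / 2 := by
  obtain ⟨c, u, rfl⟩ := List.exists_cons_of_ne_nil hs
  have h1 := S.half c.1 _ (S.len_pos u).le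
  have h2 := S.len_le_one u
  change S.φ c.1 (S.len u) ≤ 1 / 2
  linarith

lemma len_append (s u : Ad) : S.len (s ++ u) = S.Φ s (S.len u) := S.Φ_append s u 1

lemma len_anti {u s : Ad} (h : u <+: s) : S.len s ≤ S.len u := by
  obtain ⟨v, rfl⟩ := h
  rw [len_append]
  exact (S.Φ_mono u).monotone (S.len_le_one v)

lemma len_desc {u s : Ad} (h : u <+: s) (hne : s ≠ u) : S.len s ≤ S.Φ u (1 / 2) := by
  obtain ⟨v, rfl⟩ := h
  rw [len_append]
  exact (S.Φ_mono u).monotone (S.len_le_half (by rintro rfl; simp at hne))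

open Classical in
/-- The point at height `y` on the blade `s`. -/
noncomputable def pt (s : Ad) (y : ℝ) : Ad → ℝ := fun u => if u <+: s then y else 0

lemma pt_nil (s : Ad) (y : ℝ) : pt s y [] = y := by simp [pt]

lemma pt_self (s : Ad) (y : ℝ) : pt s y s = y := by simp [pt]

lemma pt_of {s u : Ad} (h : u <+: s) (y : ℝ) : pt s y u = y := by simp [pt, h]

lemma pt_not {s u : Ad} (h : ¬ u <+: s) (y : ℝ) : pt s y u = 0 := by simp [pt, h]

lemma pt_zero (s : Ad) : pt s 0 = 0 := by ext u; simp [pt]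

lemma pt_cont (s : Ad) : Continuous (pt s) := by
  refine continuous_pi fun u => ?_
  by_cases h : u <+: s
  · simp only [pt_of h]; exact continuous_id
  · simp only [pt_not h]; exact continuous_const

lemma pt_addr {s s' : Ad} {y y' : ℝ} (hy : y ≠ 0) (h : pt s y = pt s' y') : s = s' := by
  have h0 : y = y' := by rw [← pt_nil s y, h, pt_nil]
  subst h0
  have h1 : s <+: s' := by
    by_contra hn
    exact hy (by rw [← pt_self s y, h, pt_not hn])
  have h2 : s' <+: s := by
    by_contra hn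
    exact hy (by rw [← pt_self s' y, ← h, pt_not hn])
  exact h1.eq_of_length_le h2.length_le

/-- The fan, as a subset of a countable product of lines. -/
def carrier : Set (Ad → ℝ) := {P | ∃ s y, 0 ≤ y ∧ y ≤ S.len s ∧ P = pt s y}

lemma carrier_eq : S.carrier = {P | (∀ u, P u * (P u - P []) = 0) ∧ (∀ u, 0 ≤ P u ∧ P u ≤ S.len u) ∧
    (∀ u v : Ad, v <+: u → P u ≤ P v) ∧
    ∀ u v : Ad, ¬ u <+: v → ¬ v <+: u → P u * P v = 0} := by
  ext P
  constructor
  · rintro ⟨s, y, h0, h1, rfl⟩
    refine ⟨fun u => ?_, fun u => ?_, fun u v hv => ?_, fun u v h2 h3 => ?_⟩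
    · by_cases h : u <+: s
      · rw [pt_of h, pt_nil]; ring
      · rw [pt_not h]; ring
    · by_cases h : u <+: s
      · rw [pt_of h]; exact ⟨h0, h1.trans (S.len_anti h)⟩
      · rw [pt_not h]; exact ⟨le_rfl, (S.len_pos u).le⟩
    · by_cases h : u <+: s
      · rw [pt_of h, pt_of (hv.trans h)]
      · rw [pt_not h]
        by_cases h' : v <+: s
        · rwa [pt_of h']
        · rw [pt_not h']
    · by_cases h : u <+: s
      · by_cases h' : v <+: s
        · exact absurd (List.prefix_or_prefix_of_prefix h h') (not_or.2 ⟨h2, h3⟩)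
        · rw [pt_not h']; ring
      · rw [pt_not h]; ring
  · rintro ⟨ha, hb, hc, hd⟩
    have ha' : ∀ u, P u ≠ 0 → P u = P [] := fun u hu => by
      rcases mul_eq_zero.1 (ha u) with h | h
      · exact absurd h hu
      · linarith
    by_cases h0 : P [] = 0
    · refine ⟨[], 0, le_rfl, (S.len_pos _).le, ?_⟩
      rw [pt_zero]
      ext u
      by_contra hu
      exact hu ((ha' u hu).trans h0)
    · have hpos : 0 < P [] := lt_of_le_of_ne (hb []).1 (Ne.symm h0)
      obtain ⟨N, hN⟩ := exists_pow_lt_of_lt_one hpos (show (1 / 2 : ℝ) < 1 by norm_num)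
      have hbd : ∀ u, P u ≠ 0 → u.length ≤ N := by
        intro u hu
        by_contra hlt
        have h1 : ((1 / 2 : ℝ)) ^ u.length ≤ (1 / 2) ^ N :=
          pow_le_pow_of_le_one (by norm_num) (by norm_num) (by omega)
        have h2 := (hb u).2
        have h3 := S.len_le u
        rw [ha' u hu] at h2
        linarith
      obtain ⟨n, ⟨s, hs, rfl⟩, hmax⟩ := Set.Finite.exists_maximalFor id
        ((fun u : Ad => u.length) '' {u | P u ≠ 0})
        ((Set.finite_le_nat N).subset (by rintro _ ⟨u, hu, rfl⟩; exact hbd u hu))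
        ⟨0, [], h0, rfl⟩
      refine ⟨s, P [], hpos.le, ?_, ?_⟩
      · rw [← ha' s hs]; exact (hb s).2
      · ext u
        by_cases h : u <+: s
        · rw [pt_of h]
          apply ha'
          have h1 := hc s u h
          have h2 : 0 < P s := lt_of_le_of_ne (hb s).1 (Ne.symm hs)
          linarith
        · rw [pt_not h]
          by_contra hu
          by_cases h' : s <+: u
          · have h1 : u.length ≤ s.length := hmax ⟨u, hu, rfl⟩ h'.length_le
            exact h (h'.eq_of_length_le h1 ▸ List.prefix_rfl)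
          · exact mul_ne_zero hu hs (hd u s h h')

lemma carrier_closed : IsClosed S.carrier := by
  rw [carrier_eq]
  simp only [ofPred_and, ofPred_forall]
  refine (isClosed_iInter fun u => isClosed_eq (by fun_prop) continuous_const).inter
    ((isClosed_iInter fun u => (isClosed_le continuous_const (by fun_prop)).inter
      (isClosed_le (by fun_prop) continuous_const)).inter
    ((isClosed_iInter fun u => isClosed_iInter fun v => isClosed_iInter fun _ =>
      isClosed_le (by fun_prop) (by fun_prop)).inter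
    (isClosed_iInter fun u => isClosed_iInter fun v => isClosed_iInter fun _ =>
      isClosed_iInter fun _ => isClosed_eq (by fun_prop) continuous_const)))

lemma carrier_compact : IsCompact S.carrier := by
  refine (isCompact_univ_pi fun _ : Ad => isCompact_Icc (a := (0 : ℝ)) (b := 1)).of_isClosed_subset
    S.carrier_closed fun P hP u _ => ?_
  rw [carrier_eq] at hP
  exact ⟨(hP.2.1 u).1, (hP.2.1 u).2.trans (S.len_le_one u)⟩

/-- The fan as a type. -/
abbrev Sp : Type := S.carrier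

instance : CompactSpace S.Sp := isCompact_iff_compactSpace.1 S.carrier_compact

/-- The point at (clamped) height `y` on the blade `s`. -/
noncomputable def ray (s : Ad) (y : ℝ) : S.Sp :=
  ⟨pt s (max 0 (min y (S.len s))), s, _, le_max_left _ _,
    max_le (S.len_pos s).le (min_le_right _ _), rfl⟩

/-- The top. -/
noncomputable def top : S.Sp := S.ray [] 0

lemma ray_val {s : Ad} {y : ℝ} (h : y ∈ Icc 0 (S.len s)) : (S.ray s y).1 = pt s y := by
  simp only [ray, min_eq_left h.2, max_eq_right h.1]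

lemma zero_mem (s : Ad) : (0 : ℝ) ∈ Icc 0 (S.len s) := ⟨le_rfl, (S.len_pos s).le⟩

lemma len_mem (s : Ad) : S.len s ∈ Icc 0 (S.len s) := ⟨(S.len_pos s).le, le_rfl⟩

lemma Φ_mem (s : Ad) {x : ℝ} (h0 : 0 ≤ x) (h1 : x ≤ 1) : S.Φ s x ∈ Icc 0 (S.len s) :=
  ⟨S.Φ_nonneg s h0, (S.Φ_mono s).monotone h1⟩

lemma top_val : S.top.1 = 0 := by rw [top, S.ray_val (S.zero_mem _), pt_zero]

lemma ray_zero (s : Ad) : S.ray s 0 = S.top :=
  Subtype.ext (by rw [top_val, S.ray_val (S.zero_mem _), pt_zero])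

lemma ray_cont (s : Ad) : Continuous (S.ray s) :=
  Continuous.subtype_mk ((pt_cont s).comp (by fun_prop)) _

lemma exists_ray (P : S.Sp) : ∃ s y, y ∈ Icc 0 (S.len s) ∧ P = S.ray s y := by
  obtain ⟨P, s, y, h0, h1, rfl⟩ := P
  exact ⟨s, y, ⟨h0, h1⟩, Subtype.ext (S.ray_val ⟨h0, h1⟩).symm⟩

/-- The coordinate functions. -/
def co (u : Ad) (P : S.Sp) : ℝ := P.1 u

lemma co_cont (u : Ad) : Continuous (S.co u) := (continuous_apply u).comp continuous_subtype_val

lemma co_ray {s : Ad} {y : ℝ} (h : y ∈ Icc 0 (S.len s)) (u : Ad) :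
    S.co u (S.ray s y) = pt s y u := by rw [co, S.ray_val h]

lemma ht_ray {s : Ad} {y : ℝ} (h : y ∈ Icc 0 (S.len s)) : S.co [] (S.ray s y) = y := by
  rw [S.co_ray h, pt_nil]

lemma ray_ht {s s' : Ad} {y y' : ℝ} (h : y ∈ Icc 0 (S.len s)) (h' : y' ∈ Icc 0 (S.len s'))
    (e : S.ray s y = S.ray s' y') : y = y' := by
  rw [← S.ht_ray h, e, S.ht_ray h']

lemma ray_addr {s s' : Ad} {y y' : ℝ} (h : y ∈ Icc 0 (S.len s)) (h' : y' ∈ Icc 0 (S.len s'))
    (hy : y ≠ 0) (e : S.ray s y = S.ray s' y') : s = s' := by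
  have := congrArg Subtype.val e
  rw [S.ray_val h, S.ray_val h'] at this
  exact pt_addr hy this

lemma ray_eq_top {s : Ad} {y : ℝ} (h : y ∈ Icc 0 (S.len s)) : S.ray s y = S.top ↔ y = 0 :=
  ⟨fun e => S.ray_ht h (S.zero_mem []) e, fun e => by rw [e, ray_zero]⟩

/-- A connected set missing the top lies in one blade. -/
lemma blade {C : Set S.Sp} (hC : IsPreconnected C) (ht : S.top ∉ C) {s s' : Ad} {y y' : ℝ}
    (h : y ∈ Icc 0 (S.len s)) (h' : y' ∈ Icc 0 (S.len s')) (hy : S.ray s y ∈ C)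
    (hy' : S.ray s' y' ∈ C) : s = s' := by
  have hne : ∀ P ∈ C, S.co [] P ≠ 0 := by
    intro P hP h0
    obtain ⟨v, z, hz, rfl⟩ := S.exists_ray P
    rw [S.ht_ray hz] at h0
    exact ht (by rwa [h0, ray_zero] at hP)
  have key : ∀ {s s' : Ad} {y y' : ℝ}, y ∈ Icc 0 (S.len s) → y' ∈ Icc 0 (S.len s') →
      S.ray s y ∈ C → S.ray s' y' ∈ C → s <+: s' := by
    intro s s' y y' h h' hy hy'
    by_contra hn
    have hc : ContinuousOn (fun P => S.co s P / S.co [] P) C :=
      (S.co_cont s).continuousOn.div (S.co_cont []).continuousOn hne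
    have h1 := hne _ hy
    rw [S.ht_ray h] at h1
    obtain ⟨P, hP, hP'⟩ := hC.intermediate_value hy' hy hc (show (1 / 2 : ℝ) ∈ _ by
      simp only [S.co_ray h, S.co_ray h', pt_nil, pt_self, pt_not hn, zero_div, div_self h1]
      constructor <;> norm_num)
    have h2 := hne _ hP
    obtain ⟨v, z, hz, rfl⟩ := S.exists_ray P
    simp only [S.co_ray hz, pt_nil] at hP' h2
    by_cases hv : s <+: v
    · rw [pt_of hv, div_self h2] at hP'; norm_num at hP'
    · rw [pt_not hv, zero_div] at hP'; norm_num at hP'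
  exact (key h h' hy hy').eq_of_length_le (key h' h hy' hy).length_le

/-- A continuum containing two points of a blade contains the segment between them. -/
lemma seg {C : Set S.Sp} (hcl : IsClosed C) (hC : IsPreconnected C) {s : Ad} {y₁ y₂ y : ℝ}
    (h₁ : y₁ ∈ Icc 0 (S.len s)) (h₂ : y₂ ∈ Icc 0 (S.len s)) (m₁ : S.ray s y₁ ∈ C)
    (m₂ : S.ray s y₂ ∈ C) (hy : y ∈ Icc y₁ y₂) : S.ray s y ∈ C := by
  have h : y ∈ Icc 0 (S.len s) := ⟨h₁.1.trans hy.1, hy.2.trans h₂.2⟩
  rcases h.1.eq_or_lt with h0 | hpos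
  · have : y₁ = y := le_antisymm hy.1 (h0 ▸ h₁.1)
    rwa [← this]
  have key : ∀ U : Finset Ad, ∃ Q ∈ C, ∀ u ∈ U, S.co u Q = pt s y u := by
    intro U
    let m : S.Sp → ℝ := fun Q => S.co [] Q - ∑ u ∈ U, |S.co u Q - pt s (S.co [] Q) u|
    have hm : Continuous m := by
      refine (S.co_cont []).sub (continuous_finsetSum _ fun u _ => ((S.co_cont u).sub ?_).abs)
      exact (continuous_apply u).comp ((pt_cont s).comp (S.co_cont []))
    have hv : ∀ z ∈ Icc 0 (S.len s), m (S.ray s z) = z := by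
      intro z hz
      simp [m, S.co_ray hz, pt_nil]
    obtain ⟨Q, hQ, hQ'⟩ := hC.intermediate_value m₁ m₂ hm.continuousOn
      (show y ∈ _ by rw [hv _ h₁, hv _ h₂]; exact hy)
    refine ⟨Q, hQ, ?_⟩
    obtain ⟨v, z, hz, rfl⟩ := S.exists_ray Q
    simp only [m, S.co_ray hz, pt_nil] at hQ' ⊢
    have hall : ∀ u ∈ U, pt v z u = pt s z u := by
      intro u hu
      by_contra hne
      have h1 : |pt v z u - pt s z u| = z := by
        by_cases a : u <+: v <;> by_cases b : u <+: s
        · rw [pt_of a, pt_of b] at hne; exact absurd rfl hne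
        · rw [pt_of a, pt_not b, sub_zero, abs_of_nonneg hz.1]
        · rw [pt_not a, pt_of b, zero_sub, abs_neg, abs_of_nonneg hz.1]
        · rw [pt_not a, pt_not b] at hne; exact absurd rfl hne
      have h2 := Finset.single_le_sum (f := fun u => |pt v z u - pt s z u|)
        (fun _ _ => abs_nonneg _) hu
      simp only [h1] at h2
      linarith
    have : ∑ u ∈ U, |pt v z u - pt s z u| = 0 :=
      Finset.sum_eq_zero fun u hu => by rw [hall u hu, sub_self, abs_zero]
    rw [this, sub_zero] at hQ'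
    intro u hu
    rw [hall u hu, hQ']
  choose Q hQ hQ' using key
  refine hcl.mem_of_tendsto (f := Q) (b := atTop) ?_ (Eventually.of_forall hQ)
  rw [tendsto_subtype_rng, tendsto_pi_nhds]
  intro u
  rw [S.ray_val h]
  refine tendsto_const_nhds.congr' ?_
  filter_upwards [eventually_ge_atTop ({u} : Finset Ad)] with U hU
  exact (hQ' U u (hU (Finset.mem_singleton_self u))).symm

end Sys

end Pool.Agent.H148Z.Fan
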