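import Pool.Agent.H148Z.Fan2

set_option autoImplicit false

namespace Pool.Agent.H148Z.Fan

open Set Filter Topology

namespace Sys

variable (S : Sys)

lemma seg_image {C : Set S.Sp} (hcl : IsClosed C) (hC : IsPreconnected C) {s : Ad} {y₁ y₂ : ℝ}
    (h₁ : y₁ ∈ Icc 0 (S.len s)) (h₂ : y₂ ∈ Icc 0 (S.len s)) (m₁ : S.ray s y₁ ∈ C)
    (m₂ : S.ray s y₂ ∈ C) : S.ray s '' uIcc y₁ y₂ ⊆ C := by
  rintro _ ⟨y, hy, rfl⟩
  rcases le_total y₁ y₂ with h | h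
  · rw [uIcc_of_le h] at hy; exact S.seg hcl hC h₁ h₂ m₁ m₂ hy
  · rw [uIcc_of_ge h] at hy; exact S.seg hcl hC h₂ h₁ m₂ m₁ hy

lemma seg_conn (s : Ad) (y₁ y₂ : ℝ) : IsPreconnected (S.ray s '' uIcc y₁ y₂) :=
  isPreconnected_uIcc.image _ (S.ray_cont s).continuousOn

lemma hu (A B : Set S.Sp) (hA : IsClosed A) (hA' : IsPreconnected A) (hB : IsClosed B)
    (hB' : IsPreconnected B) : IsPreconnected (A ∩ B) := by
  refine isPreconnected_of_forall_pair fun P hP Q hQ => ?_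
  obtain ⟨s, y, hy, rfl⟩ := S.exists_ray P
  obtain ⟨s', y', hy', rfl⟩ := S.exists_ray Q
  by_cases hs : s = s'
  · subst hs
    exact ⟨S.ray s '' uIcc y y', subset_inter (S.seg_image hA hA' hy hy' hP.1 hQ.1)
      (S.seg_image hB hB' hy hy' hP.2 hQ.2), mem_image_of_mem _ left_mem_uIcc,
      mem_image_of_mem _ right_mem_uIcc, S.seg_conn _ _ _⟩
  · have tA : S.top ∈ A := by_contra fun h => hs (S.blade hA' h hy hy' hP.1 hQ.1)
    have tB : S.top ∈ B := by_contra fun h => hs (S.blade hB' h hy hy' hP.2 hQ.2)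
    refine ⟨S.ray s '' uIcc 0 y ∪ S.ray s' '' uIcc 0 y', union_subset (subset_inter ?_ ?_)
      (subset_inter ?_ ?_), Or.inl (mem_image_of_mem _ right_mem_uIcc),
      Or.inr (mem_image_of_mem _ right_mem_uIcc),
      (S.seg_conn _ _ _).union S.top ⟨0, left_mem_uIcc, S.ray_zero _⟩
        ⟨0, left_mem_uIcc, S.ray_zero _⟩ (S.seg_conn _ _ _)⟩
    · exact S.seg_image hA hA' (S.zero_mem _) hy (by rwa [ray_zero]) hP.1
    · exact S.seg_image hB hB' (S.zero_mem _) hy (by rwa [ray_zero]) hP.2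
    · exact S.seg_image hA hA' (S.zero_mem _) hy' (by rwa [ray_zero]) hQ.1
    · exact S.seg_image hB hB' (S.zero_mem _) hy' (by rwa [ray_zero]) hQ.2

lemma isArc_seg {s : Ad} {y₁ y₂ : ℝ} (h₁ : y₁ ∈ Icc 0 (S.len s)) (h₂ : y₂ ∈ Icc 0 (S.len s))
    (hne : y₁ ≠ y₂) : IsArc (S.ray s '' uIcc y₁ y₂) (S.ray s y₁) (S.ray s y₂) := by
  have hm : ∀ r : unitInterval, y₁ + r * (y₂ - y₁) ∈ Icc 0 (S.len s) := fun r => by
    have a := r.2.1
    have b := r.2.2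
    constructor <;> nlinarith [h₁.1, h₁.2, h₂.1, h₂.2]
  refine ⟨fun r => S.ray s (y₁ + r * (y₂ - y₁)), (S.ray_cont s).comp (by fun_prop),
    fun r r' h => ?_, by simp, by simp, ?_⟩
  · have := S.ray_ht (hm r) (hm r') h
    exact Subtype.ext (mul_right_cancel₀ (sub_ne_zero.2 hne.symm) (by linarith))
  · rw [← segment_eq_uIcc, segment_eq_image', image_image]
    ext P
    simp only [mem_range, mem_image, smul_eq_mul]
    exact ⟨fun ⟨r, hr⟩ => ⟨r, r.2, hr⟩, fun ⟨r, hr, h⟩ => ⟨⟨r, hr⟩, h⟩⟩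

lemma isArc_two {s s' : Ad} {y y' : ℝ} (h : y ∈ Icc 0 (S.len s)) (h' : y' ∈ Icc 0 (S.len s'))
    (hs : s ≠ s') (hy : y ≠ 0) (hy' : y' ≠ 0) : ∃ A, IsArc A (S.ray s y) (S.ray s' y') := by
  have p : 0 < y := lt_of_le_of_ne h.1 hy.symm
  have p' : 0 < y' := lt_of_le_of_ne h'.1 hy'.symm
  let γ : unitInterval → S.Sp := fun r =>
    if (r : ℝ) ≤ 1 / 2 then S.ray s (y * (1 - 2 * r)) else S.ray s' (y' * (2 * r - 1))
  have m : ∀ r : unitInterval, (r : ℝ) ≤ 1 / 2 → y * (1 - 2 * r) ∈ Icc 0 (S.len s) :=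
    fun r hr => by
      have a := r.2.1
      constructor <;> nlinarith [h.2]
  have m' : ∀ r : unitInterval, ¬ (r : ℝ) ≤ 1 / 2 → y' * (2 * r - 1) ∈ Icc 0 (S.len s') ∧
      y' * (2 * r - 1) ≠ 0 := fun r hr => by
      have a := r.2.2
      have b := not_le.1 hr
      refine ⟨by constructor <;> nlinarith [h'.2], ne_of_gt (by nlinarith)⟩
  refine ⟨range γ, γ, ?_, fun r r' e => ?_, by simp [γ], by norm_num [γ], rfl⟩
  · refine Continuous.if_le ((S.ray_cont s).comp (by fun_prop)) ((S.ray_cont s').comp (by fun_prop))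
      (by fun_prop) continuous_const fun r hr => ?_
    rw [hr]; norm_num [ray_zero]
  · by_cases a : (r : ℝ) ≤ 1 / 2 <;> by_cases b : (r' : ℝ) ≤ 1 / 2 <;>
      simp only [γ, a, b, if_true, if_false] at e
    · have := mul_left_cancel₀ hy (S.ray_ht (m r a) (m r' b) e)
      exact Subtype.ext (by linarith)
    · exact absurd (S.ray_addr (m' r' b).1 (m r a) (m' r' b).2 e.symm).symm hs
    · exact absurd (S.ray_addr (m' r a).1 (m r' b) (m' r a).2 e).symm hs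
    · have := mul_left_cancel₀ hy' (S.ray_ht (m' r a).1 (m' r' b).1 e)
      exact Subtype.ext (by linarith)

lemma arcwise (P Q : S.Sp) (hne : P ≠ Q) : ∃ A, IsArc A P Q := by
  obtain ⟨s, y, hy, rfl⟩ := S.exists_ray P
  obtain ⟨s', y', hy', rfl⟩ := S.exists_ray Q
  by_cases h0 : y = 0
  · subst h0
    rw [ray_zero, ← S.ray_zero s'] at hne ⊢
    exact ⟨_, S.isArc_seg (S.zero_mem _) hy' fun h => hne (by rw [h])⟩
  by_cases h0' : y' = 0
  · subst h0'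
    rw [ray_zero, ← S.ray_zero s] at hne ⊢
    exact ⟨_, S.isArc_seg hy (S.zero_mem _) h0⟩
  by_cases hs : s = s'
  · subst hs
    exact ⟨_, S.isArc_seg hy hy' fun h => hne (by rw [h])⟩
  · exact S.isArc_two hy hy' hs h0 h0'

lemma connected : ConnectedSpace S.Sp := by
  have : Nonempty S.Sp := ⟨S.top⟩
  have : PreconnectedSpace S.Sp := ⟨isPreconnected_of_forall_pair fun P _ Q _ => by
    by_cases h : P = Q
    · exact ⟨{P}, subset_univ _, rfl, h ▸ rfl, isPreconnected_singleton⟩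
    · obtain ⟨A, hA⟩ := S.arcwise P Q h
      exact ⟨A, subset_univ _, hA.left_mem, hA.right_mem, hA.isPreconnected⟩⟩
  exact ⟨inferInstance⟩

lemma updown {C : Set S.Sp} (hC : IsPreconnected C) {s : Ad} {y : ℝ}
    (h : y ∈ Icc 0 (S.len s)) (hy : y ≠ 0) (m : S.ray s y ∈ C) {Q : S.Sp} (hQ : Q ∈ C)
    (hne : Q ≠ S.ray s y) :
    (∃ z, 0 ≤ z ∧ z < y ∧ S.ray s z ∈ C) ∨ ∃ z, y < z ∧ z ≤ S.len s ∧ S.ray s z ∈ C := by
  by_cases ht : S.top ∈ C
  · exact Or.inl ⟨0, le_rfl, lt_of_le_of_ne h.1 hy.symm, by rwa [ray_zero]⟩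
  obtain ⟨s', y', hy', rfl⟩ := S.exists_ray Q
  obtain rfl := S.blade hC ht h hy' m hQ
  rcases lt_trichotomy y' y with a | a | a
  · exact Or.inl ⟨y', hy'.1, a, hQ⟩
  · exact absurd (by rw [a]) hne
  · exact Or.inr ⟨y', a, hy'.2, hQ⟩

lemma down_down {A B : Set S.Sp} (hA : IsClosed A) (hA' : IsPreconnected A) (hB : IsClosed B)
    (hB' : IsPreconnected B) {s : Ad} {y : ℝ} (h : y ∈ Icc 0 (S.len s))
    (hAB : A ∩ B = {S.ray s y}) (a : ∃ z, 0 ≤ z ∧ z < y ∧ S.ray s z ∈ A)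
    (b : ∃ z, 0 ≤ z ∧ z < y ∧ S.ray s z ∈ B) : False := by
  obtain ⟨z, z0, zy, hz⟩ := a
  obtain ⟨w, w0, wy, hw⟩ := b
  have hm : S.ray s y ∈ A ∩ B := hAB ▸ rfl
  have hlt : max z w < y := max_lt zy wy
  have h1 : S.ray s (max z w) ∈ A ∩ B :=
    ⟨S.seg hA hA' ⟨z0, zy.le.trans h.2⟩ h hz hm.1 ⟨le_max_left _ _, hlt.le⟩,
      S.seg hB hB' ⟨w0, wy.le.trans h.2⟩ h hw hm.2 ⟨le_max_right _ _, hlt.le⟩⟩
  rw [hAB] at h1
  exact hlt.ne (S.ray_ht ⟨z0.trans (le_max_left _ _), hlt.le.trans h.2⟩ h h1)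

lemma up_up {A B : Set S.Sp} (hA : IsClosed A) (hA' : IsPreconnected A) (hB : IsClosed B)
    (hB' : IsPreconnected B) {s : Ad} {y : ℝ} (h : y ∈ Icc 0 (S.len s))
    (hAB : A ∩ B = {S.ray s y}) (a : ∃ z, y < z ∧ z ≤ S.len s ∧ S.ray s z ∈ A)
    (b : ∃ z, y < z ∧ z ≤ S.len s ∧ S.ray s z ∈ B) : False := by
  obtain ⟨z, zy, z1, hz⟩ := a
  obtain ⟨w, wy, w1, hw⟩ := b
  have hm : S.ray s y ∈ A ∩ B := hAB ▸ rfl
  have hlt : y < min z w := lt_min zy wy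
  have h1 : S.ray s (min z w) ∈ A ∩ B :=
    ⟨S.seg hA hA' h ⟨h.1.trans zy.le, z1⟩ hm.1 hz ⟨hlt.le, min_le_left _ _⟩,
      S.seg hB hB' h ⟨h.1.trans wy.le, w1⟩ hm.2 hw ⟨hlt.le, min_le_right _ _⟩⟩
  rw [hAB] at h1
  exact hlt.ne' (S.ray_ht ⟨h.1.trans hlt.le, (min_le_left _ _).trans z1⟩ h h1)

lemma top_unique (P : S.Sp) (hP : IsRamificationPoint P) : P = S.top := by
  obtain ⟨s, y, hy, rfl⟩ := S.exists_ray P
  by_contra hne
  have h0 : y ≠ 0 := fun h => hne ((S.ray_eq_top hy).2 h)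
  obtain ⟨x₁, x₂, x₃, A₁, A₂, A₃, h₁, h₂, h₃, e₁, e₂, e₃⟩ := hP
  have u₁ := S.updown h₁.isPreconnected hy h0 h₁.left_mem h₁.right_mem h₁.ne.symm
  have u₂ := S.updown h₂.isPreconnected hy h0 h₂.left_mem h₂.right_mem h₂.ne.symm
  have u₃ := S.updown h₃.isPreconnected hy h0 h₃.left_mem h₃.right_mem h₃.ne.symm
  have d₁ := S.down_down h₁.isClosed h₁.isPreconnected h₂.isClosed h₂.isPreconnected hy e₁
  have d₂ := S.down_down h₁.isClosed h₁.isPreconnected h₃.isClosed h₃.isPreconnected hy e₂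
  have d₃ := S.down_down h₂.isClosed h₂.isPreconnected h₃.isClosed h₃.isPreconnected hy e₃
  have v₁ := S.up_up h₁.isClosed h₁.isPreconnected h₂.isClosed h₂.isPreconnected hy e₁
  have v₂ := S.up_up h₁.isClosed h₁.isPreconnected h₃.isClosed h₃.isPreconnected hy e₂
  have v₃ := S.up_up h₂.isClosed h₂.isPreconnected h₃.isClosed h₃.isPreconnected hy e₃
  rcases u₁ with u₁ | u₁ <;> rcases u₂ with u₂ | u₂ <;> rcases u₃ with u₃ | u₃
  exacts [d₁ u₁ u₂, d₁ u₁ u₂, d₂ u₁ u₃, v₃ u₂ u₃, d₃ u₂ u₃, v₂ u₁ u₃, v₁ u₁ u₂, v₁ u₁ u₂]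

/-- The endpoint of a blade. -/
noncomputable def tip (s : Ad) : S.Sp := S.ray s (S.len s)

/-- A blade. -/
def bl (s : Ad) : Set S.Sp := S.ray s '' uIcc 0 (S.len s)

lemma isArc_bl (s : Ad) : IsArc (S.bl s) S.top (S.tip s) := by
  rw [← S.ray_zero s]
  exact S.isArc_seg (S.zero_mem s) (S.len_mem s) (S.len_pos s).ne

lemma mem_bl {s : Ad} {P : S.Sp} : P ∈ S.bl s ↔ ∃ y ∈ Icc 0 (S.len s), S.ray s y = P := by
  rw [bl, uIcc_of_le (S.len_pos s).le]; rfl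

lemma bl_inter {s s' : Ad} (h : s ≠ s') : S.bl s ∩ S.bl s' = {S.top} := by
  refine Subset.antisymm ?_ (singleton_subset_iff.2
    ⟨(S.isArc_bl s).left_mem, (S.isArc_bl s').left_mem⟩)
  rintro P ⟨h1, h2⟩
  obtain ⟨y, hy, rfl⟩ := S.mem_bl.1 h1
  obtain ⟨y', hy', e⟩ := S.mem_bl.1 h2
  by_contra hne
  exact h (S.ray_addr hy hy' (fun h0 => hne ((S.ray_eq_top hy).2 h0)) e.symm)

lemma top_ram : IsRamificationPoint S.top :=
  ⟨_, _, _, _, _, _, S.isArc_bl [], S.isArc_bl [(0, 0)], S.isArc_bl [(0, 1)],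
    S.bl_inter (by simp), S.bl_inter (by simp), S.bl_inter (by simp)⟩

lemma isFan : IsFan S.top :=
  ⟨inferInstance, S.connected, S.arcwise,
    fun A B a a' b b' => S.hu A B a a'.isPreconnected b b'.isPreconnected, S.top_ram, S.top_unique⟩

lemma tip_ne_top (s : Ad) : S.tip s ≠ S.top := (S.isArc_bl s).ne.symm

lemma tip_end (s : Ad) : IsEndpoint (S.tip s) := by
  rintro A x y ⟨γ, hγ, hi, rfl, rfl, rfl⟩ ⟨r, hr⟩
  by_contra hn
  obtain ⟨n0, n1⟩ := not_or.1 hn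
  have c₁ : IsClosed (γ '' Icc 0 r) := (isCompact_Icc.image hγ).isClosed
  have c₂ : IsClosed (γ '' Icc r 1) := (isCompact_Icc.image hγ).isClosed
  have p₁ : IsPreconnected (γ '' Icc 0 r) := isPreconnected_Icc.image _ hγ.continuousOn
  have p₂ : IsPreconnected (γ '' Icc r 1) := isPreconnected_Icc.image _ hγ.continuousOn
  have r0 : (0 : unitInterval) ≤ r := r.2.1
  have r1 : r ≤ (1 : unitInterval) := r.2.2
  have e : γ '' Icc 0 r ∩ γ '' Icc r 1 = {S.ray s (S.len s)} := by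
    rw [← image_inter hi, Icc_inter_Icc_eq_singleton r0 r1, image_singleton, hr, tip]
  have u₁ := S.updown p₁ (S.len_mem s) (S.len_pos s).ne' ⟨r, ⟨r0, le_rfl⟩, hr⟩
    (mem_image_of_mem γ ⟨le_rfl, r0⟩) (Ne.symm n0)
  have u₂ := S.updown p₂ (S.len_mem s) (S.len_pos s).ne' ⟨r, ⟨le_rfl, r1⟩, hr⟩
    (mem_image_of_mem γ ⟨r1, le_rfl⟩) (Ne.symm n1)
  rcases u₁ with u₁ | ⟨z, a, b, -⟩
  · rcases u₂ with u₂ | ⟨z, a, b, -⟩
    · exact S.down_down c₁ p₁ c₂ p₂ (S.len_mem s) e u₁ u₂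
    · linarith
  · linarith

lemma end_iff (P : S.Sp) : IsEndpoint P ↔ ∃ s, P = S.tip s := by
  refine ⟨fun h => ?_, by rintro ⟨s, rfl⟩; exact S.tip_end s⟩
  have ht : P ≠ S.top := by
    rintro rfl
    obtain ⟨A, hA⟩ := S.isArc_two (S.len_mem []) (S.len_mem [(0, 0)]) (by simp)
      (S.len_pos _).ne' (S.len_pos _).ne'
    have : S.top ∈ A := by_contra fun hn => by
      simpa using S.blade hA.isPreconnected hn (S.len_mem []) (S.len_mem [(0, 0)])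
        hA.left_mem hA.right_mem
    rcases h A _ _ hA this with e | e
    · exact S.tip_ne_top [] e.symm
    · exact S.tip_ne_top [(0, 0)] e.symm
  obtain ⟨s, y, hy, rfl⟩ := S.exists_ray P
  rcases h _ _ _ (S.isArc_bl s) (S.mem_bl.2 ⟨y, hy, rfl⟩) with e | e
  · exact absurd e ht
  · exact ⟨s, e⟩

lemma arc_top {A : Set S.Sp} {s : Ad} {y : ℝ} (h : y ∈ Icc 0 (S.len s))
    (hA : IsArc A S.top (S.ray s y)) : A = S.ray s '' uIcc 0 y :=
  (hA.eq_of_subset (S.seg_image hA.isClosed hA.isPreconnected (S.zero_mem s) h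
    (by rw [ray_zero]; exact hA.left_mem) hA.right_mem) (S.seg_conn _ _ _)
    ⟨0, left_mem_uIcc, S.ray_zero s⟩ (mem_image_of_mem _ right_mem_uIcc)).symm

lemma smul_pt (r : ℝ) (s : Ad) (y : ℝ) : r • pt s y = pt s (r * y) := by
  ext u
  by_cases h : u <+: s <;> simp [pt, h]

/-- Radial scaling. -/
noncomputable def scale (z : S.Sp × unitInterval) : S.Sp :=
  ⟨(z.2 : ℝ) • z.1.1, by
    obtain ⟨s, y, h0, h1, e⟩ := z.1.2
    have a := z.2.2.1
    have b := z.2.2.2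
    exact ⟨s, z.2 * y, mul_nonneg a h0, by nlinarith, by rw [e, smul_pt]⟩⟩

lemma scale_cont : Continuous S.scale := Continuous.subtype_mk (by fun_prop) _

lemma scale_ray {s : Ad} {y : ℝ} (h : y ∈ Icc 0 (S.len s)) (r : unitInterval) :
    S.scale (S.ray s y, r) = S.ray s (r * y) := by
  have a := r.2.1
  have b := r.2.2
  apply Subtype.ext
  rw [S.ray_val (y := r * y) ⟨mul_nonneg a h.1, by nlinarith [h.1, h.2]⟩, ← smul_pt, ← S.ray_val h]
  rfl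

lemma arc_scale (P : S.Sp) (A : Set S.Sp) (hA : IsArcOrPoint A S.top P) :
    A = range fun r => S.scale (P, r) := by
  obtain ⟨s, y, hy, rfl⟩ := S.exists_ray P
  simp only [S.scale_ray hy]
  rcases hA with ⟨e, rfl⟩ | hA
  · rw [(S.ray_eq_top hy).1 e.symm]
    simp [ray_zero]
  · rw [S.arc_top hy hA, ← segment_eq_uIcc, segment_eq_image', image_image]
    ext P
    simp only [mem_range, mem_image, smul_eq_mul, zero_add, sub_zero]
    exact ⟨fun ⟨r, hr, h⟩ => ⟨⟨r, hr⟩, h⟩, fun ⟨r, hr⟩ => ⟨r, r.2, hr⟩⟩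

end Sys

end Pool.Agent.H148Z.Fan
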