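import Pool.Agent.H148Z.Fan3

set_option autoImplicit false

namespace Pool.Agent.H148Z.Fan

open Set Filter Topology

namespace Sys

variable (S : Sys)

/-- Changing the copy index of a letter does not change the height function. -/
lemma Φ_copy (s : Ad) (i j n : ℕ) (u : Ad) (x : ℝ) :
    S.Φ (s ++ (i, n) :: u) x = S.Φ (s ++ (i, j) :: u) x := by
  rw [Φ_append, Φ_append]; rfl

lemma tendsto_copy (s : Ad) (i j : ℕ) (u : Ad) {x : ℝ} (h0 : 0 ≤ x) (h1 : x ≤ 1) :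
    Tendsto (fun n : ℕ => S.ray (s ++ (i, n) :: u) (S.Φ (s ++ (i, n) :: u) x)) atTop
      (𝓝 (S.ray s (S.Φ (s ++ (i, j) :: u) x))) := by
  have hm : S.Φ (s ++ (i, j) :: u) x ∈ Icc 0 (S.len s) :=
    ⟨S.Φ_nonneg _ h0, (S.Φ_mem _ h0 h1).2.trans (S.len_anti (List.prefix_append _ _))⟩
  rw [tendsto_subtype_rng, tendsto_pi_nhds]
  intro v
  rw [S.ray_val hm]
  refine tendsto_const_nhds.congr' ?_
  have hev : ∀ᶠ n : ℕ in atTop, (i, n) ∉ v := by
    have hfin : {n : ℕ | (i, n) ∈ v}.Finite :=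
      (List.finite_toSet v).preimage (f := fun n : ℕ => (i, n)) fun a _ b _ h => (Prod.ext_iff.1 h).2
    rw [← Nat.cofinite_eq_atTop]
    exact hfin.eventually_cofinite_notMem
  filter_upwards [hev] with n hn
  rw [S.ray_val (S.Φ_mem _ h0 h1), S.Φ_copy s i j n u x]
  by_cases hv : v <+: s
  · rw [pt_of hv, pt_of (hv.trans (List.prefix_append _ _))]
  · rw [pt_not hv, pt_not]
    intro hv'
    rcases List.prefix_or_prefix_of_prefix hv' (List.prefix_append s ((i, n) :: u)) with h | h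
    · exact hv h
    · obtain ⟨w, rfl⟩ := h
      rw [List.prefix_append_right_inj] at hv'
      rcases w with _ | ⟨c, w⟩
      · exact hv (by simp)
      · rw [List.cons_prefix_cons] at hv'
        exact hn (by simp [hv'.1])

/-- Density hypothesis: the lengths of the non-root blades are dense in `[0, 1/2]`. -/
def Dense' : Prop := Icc (0 : ℝ) (1 / 2) ⊆ closure {y | ∃ u : Ad, u ≠ [] ∧ y = S.len u}

lemma tip_notMem_bl {s s' : Ad} (h : s' ≠ s) : S.tip s' ∉ S.bl s := by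
  intro hm
  have : S.tip s' ∈ S.bl s' ∩ S.bl s := ⟨(S.isArc_bl s').right_mem, hm⟩
  rw [S.bl_inter h] at this
  exact S.tip_ne_top s' this

lemma low_mem (hD : S.Dense') (s : Ad) {x : ℝ} (hx : x ∈ Icc (0 : ℝ) (1 / 2)) :
    S.ray s (S.Φ s x) ∈ closure ({e : S.Sp | IsEndpoint e} \ S.bl s) := by
  have hc : Continuous fun x => S.ray s (S.Φ s x) := (S.ray_cont s).comp (S.Φ_cont s)
  refine closure_minimal (t := (fun x => S.ray s (S.Φ s x)) ⁻¹' closure _) ?_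
    (isClosed_closure.preimage hc) (hD hx)
  rintro _ ⟨u, hu, rfl⟩
  obtain ⟨⟨i, j⟩, u, rfl⟩ := List.exists_cons_of_ne_nil hu
  have ht := S.tendsto_copy s i j u zero_le_one le_rfl
  rw [mem_preimage, ← len_append]
  refine mem_closure_of_tendsto ht (Eventually.of_forall fun n => ?_)
  exact ⟨S.tip_end _, S.tip_notMem_bl (by simp)⟩

lemma tip_of_high {s s' : Ad} (h : S.Φ s (1 / 2) < S.co s (S.tip s')) : s' = s := by
  rw [tip, S.co_ray (S.len_mem _)] at h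
  by_contra hne
  by_cases hp : s <+: s'
  · rw [pt_of hp] at h
    exact absurd (S.len_desc hp hne) (not_le.2 h)
  · rw [pt_not hp] at h
    exact absurd (S.Φ_nonneg s (x := 1 / 2) (by norm_num)) (not_le.2 h)

lemma high_closure {s : Ad} {y : ℝ} (hy : y ∈ Icc 0 (S.len s)) (h : S.Φ s (1 / 2) < y)
    {Z : Set S.Sp} (hZ : Z ⊆ {e : S.Sp | IsEndpoint e}) (hm : S.ray s y ∈ closure Z) :
    S.ray s y = S.tip s ∧ S.tip s ∈ Z := by
  have hO : IsOpen {Q | S.Φ s (1 / 2) < S.co s Q} := isOpen_lt continuous_const (S.co_cont s)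
  have h1 : S.ray s y ∈ closure ({Q | S.Φ s (1 / 2) < S.co s Q} ∩ Z) :=
    hO.inter_closure ⟨by simpa [S.co_ray hy, pt_self] using h, hm⟩
  have h2 : {Q | S.Φ s (1 / 2) < S.co s Q} ∩ Z ⊆ {S.tip s} := by
    rintro Q ⟨a, b⟩
    obtain ⟨s', rfl⟩ := (S.end_iff Q).1 (hZ b)
    rw [S.tip_of_high a]; rfl
  refine ⟨by simpa using closure_mono h2 h1, ?_⟩
  obtain ⟨Q, hQ⟩ := closure_nonempty_iff.1 ⟨_, h1⟩
  have := h2 hQ
  rw [mem_singleton_iff] at this
  exact this ▸ hQ.2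

lemma exists_param (s : Ad) {y b : ℝ} (hb : 0 ≤ b) (hy : y ∈ Icc 0 (S.Φ s b)) :
    ∃ x ∈ Icc 0 b, S.Φ s x = y :=
  intermediate_value_Icc hb (S.Φ_cont s).continuousOn (by rwa [Φ_zero])

lemma isEPG (hD : S.Dense') : IsEPG S.top {x : unitInterval | (x : ℝ) ≤ 1 / 2} := by
  intro e B he hB
  obtain ⟨s, rfl⟩ := (S.end_iff e).1 he
  have hBe : B = S.bl s := S.arc_top (S.len_mem s) hB
  subst hBe
  refine ⟨fun r => S.ray s (S.Φ s r), (S.ray_cont s).comp ((S.Φ_cont s).comp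
    continuous_subtype_val), fun r r' h => ?_, ?_, rfl, ?_, ?_⟩
  · exact Subtype.ext ((S.Φ_mono s).injective
      (S.ray_ht (S.Φ_mem s r.2.1 r.2.2) (S.Φ_mem s r'.2.1 r'.2.2) h))
  · simp [Φ_zero, ray_zero]
  · ext P
    rw [mem_bl]
    constructor
    · rintro ⟨r, rfl⟩; exact ⟨_, S.Φ_mem s r.2.1 r.2.2, rfl⟩
    · rintro ⟨y, hy, rfl⟩
      obtain ⟨x, hx, rfl⟩ := S.exists_param s zero_le_one hy
      exact ⟨⟨x, hx⟩, rfl⟩
  · ext P
    constructor
    · rintro ⟨r, hr, rfl⟩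
      exact ⟨S.mem_bl.2 ⟨_, S.Φ_mem s r.2.1 r.2.2, rfl⟩, S.low_mem hD s ⟨r.2.1, hr⟩⟩
    · rintro ⟨h1, h2⟩
      obtain ⟨y, hy, rfl⟩ := S.mem_bl.1 h1
      obtain ⟨x, hx, rfl⟩ := S.exists_param s zero_le_one hy
      refine ⟨⟨x, hx⟩, ?_, rfl⟩
      by_contra hn
      exact (S.high_closure hy (S.Φ_mono s (not_le.1 hn)) sdiff_subset h2).2.2
        (S.isArc_bl s).right_mem

lemma half_mem (s : Ad) : S.Φ s (1 / 2) ∈ Icc 0 (S.len s) := S.Φ_mem s (by norm_num) (by norm_num)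

lemma half_lt (s : Ad) : S.Φ s (1 / 2) < S.len s := S.Φ_mono s (by norm_num)

lemma not_end {s : Ad} {y : ℝ} (hy : y ∈ Icc 0 (S.len s)) (h : y < S.len s) :
    ¬ IsEndpoint (S.ray s y) := by
  intro he
  obtain ⟨s', e⟩ := (S.end_iff _).1 he
  obtain rfl := S.ray_addr (S.len_mem s') hy (S.len_pos s').ne' e.symm
  exact h.ne (S.ray_ht hy (S.len_mem _) e)

lemma half_marks (hD : S.Dense') (s : Ad) : S.ray s (S.Φ s (1 / 2)) ∈ Marks S.Sp := by
  refine ⟨closure_mono sdiff_subset (S.low_mem hD s ⟨by norm_num, le_rfl⟩),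
    S.not_end (S.half_mem s) (S.half_lt s), S.ray s '' Ioo (S.Φ s (1 / 2)) (S.len s),
    isPreconnected_Ioo.image _ (S.ray_cont s).continuousOn, disjoint_left.2 ?_, ?_⟩
  · rintro _ ⟨y, hy, rfl⟩ hm
    have hy' : y ∈ Icc 0 (S.len s) := ⟨(S.half_mem s).1.trans hy.1.le, hy.2.le⟩
    exact hy.2.ne (S.ray_ht hy' (S.len_mem s) (S.high_closure hy' hy.1 Subset.rfl hm).1)
  · refine image_closure_subset_closure_image (S.ray_cont s) (mem_image_of_mem _ ?_)
    rw [closure_Ioo (S.half_lt s).ne]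
    exact ⟨le_rfl, (S.half_lt s).le⟩

lemma marks_half (hD : S.Dense') {P : S.Sp} (hP : P ∈ Marks S.Sp) :
    ∃ s, P = S.ray s (S.Φ s (1 / 2)) := by
  obtain ⟨h1, h2, C, h3, h4, h5⟩ := hP
  have low : ∀ s y, y ∈ Icc 0 (S.Φ s (1 / 2)) → S.ray s y ∉ C := by
    intro s y hy hm
    obtain ⟨x, hx, rfl⟩ := S.exists_param s (by norm_num) hy
    exact disjoint_left.1 h4 hm (closure_mono sdiff_subset (S.low_mem hD s hx))
  have ht : S.top ∉ C := by
    rw [← S.ray_zero []]; exact low [] 0 ⟨le_rfl, (S.half_mem _).1⟩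
  obtain ⟨Q, hQ⟩ := closure_nonempty_iff.1 ⟨_, h5⟩
  obtain ⟨s, z, hz, rfl⟩ := S.exists_ray Q
  have hsub : C ⊆ S.ray s '' Icc (S.Φ s (1 / 2)) (S.len s) := by
    intro R hR
    obtain ⟨s', w, hw, rfl⟩ := S.exists_ray R
    obtain rfl := S.blade h3 ht hz hw hQ hR
    refine mem_image_of_mem _ ⟨?_, hw.2⟩
    by_contra hn
    exact low s w ⟨hw.1, (not_le.1 hn).le⟩ hR
  obtain ⟨y, hy, rfl⟩ := closure_minimal hsub (isCompact_Icc.image (S.ray_cont s)).isClosed h5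
  refine ⟨s, ?_⟩
  rcases hy.1.eq_or_lt with h | h
  · rw [h]
  · have := (S.high_closure ⟨(S.half_mem s).1.trans hy.1, hy.2⟩ h Subset.rfl h1).1
    exact absurd (this ▸ S.tip_end s) h2

lemma countable_of (hD : S.Dense') (Y : Set ℝ) (hY : Y.Countable) (hc : IsClosed Y)
    (h : ∀ s, S.Φ s (1 / 2) ∈ Y) : (closure (Marks S.Sp)).Countable := by
  have h1 : closure (Marks S.Sp) ⊆ S.co [] ⁻¹' Y := by
    refine closure_minimal (fun P hP => ?_) (hc.preimage (S.co_cont []))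
    obtain ⟨s, rfl⟩ := S.marks_half hD hP
    rw [mem_preimage, S.ht_ray (S.half_mem s)]
    exact h s
  refine (countable_iUnion fun s : Ad => hY.image (S.ray s)).mono fun P hP => ?_
  obtain ⟨s, y, hy, rfl⟩ := S.exists_ray P
  have := h1 hP
  rw [mem_preimage, S.ht_ray hy] at this
  exact mem_iUnion.2 ⟨s, mem_image_of_mem _ this⟩

lemma uncountable_of (hD : S.Dense')
    (h : Icc (0 : ℝ) (1 / 4) ⊆ closure {y | ∃ i, y = S.φ i (1 / 2)}) :
    ¬ (closure (Marks S.Sp)).Countable := by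
  intro hc
  have h1 : S.ray [] '' Icc (0 : ℝ) (1 / 4) ⊆ closure (Marks S.Sp) := by
    rintro _ ⟨y, hy, rfl⟩
    refine closure_minimal (t := S.ray [] ⁻¹' closure _) ?_
      (isClosed_closure.preimage (S.ray_cont [])) (h hy)
    rintro _ ⟨i, rfl⟩
    exact mem_closure_of_tendsto (S.tendsto_copy [] i 0 [] (x := 1 / 2) (by norm_num) (by norm_num))
      (Eventually.of_forall fun n => S.half_marks hD _)
  have h2 : (Icc (0 : ℝ) (1 / 4)).Countable := by
    refine countable_of_injective_of_countable_image (fun a ha b hb e => ?_) (hc.mono h1)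
    exact S.ray_ht ⟨ha.1, by rw [len_nil]; linarith [ha.2]⟩ ⟨hb.1, by rw [len_nil]; linarith [hb.2]⟩ e
  have h3 := h2.measure_zero MeasureTheory.volume
  rw [Real.volume_Icc] at h3
  norm_num at h3

end Sys

end Pool.Agent.H148Z.Fan
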