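import Pool.Agent.H148Z.Fan4

set_option autoImplicit false

namespace Pool.Agent.H148Z.Fan

open Set Filter Topology

/-- Shift of the copies of the letter `c`, omitting `c`. -/
def up (c d : ℕ × ℕ) : ℕ × ℕ := if d.1 = c.1 ∧ c.2 ≤ d.2 then (d.1, d.2 + 1) else d

/-- Left inverse of the shift. -/
def dn (c d : ℕ × ℕ) : ℕ × ℕ := if d.1 = c.1 ∧ c.2 < d.2 then (d.1, d.2 - 1) else d

lemma up_fst (c d : ℕ × ℕ) : (up c d).1 = d.1 := by unfold up; split_ifs <;> rfl

lemma up_ne (c d : ℕ × ℕ) : up c d ≠ c := by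
  obtain ⟨a, b⟩ := c
  obtain ⟨x, y⟩ := d
  unfold up
  split_ifs with h <;> simp at h ⊢ <;> omega

lemma dn_up (c d : ℕ × ℕ) : dn c (up c d) = d := by
  obtain ⟨a, b⟩ := c
  obtain ⟨x, y⟩ := d
  unfold up dn
  split_ifs with h h' h' <;> simp at h h' ⊢ <;> omega

lemma up_dn (c d : ℕ × ℕ) (hd : d ≠ c) : up c (dn c d) = d := by
  obtain ⟨a, b⟩ := c
  obtain ⟨x, y⟩ := d
  unfold up dn
  simp at hd
  split_ifs with h h' h' <;> simp at h h' ⊢ <;> omega

/-- The shift on addresses. -/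
def upA (c : ℕ × ℕ) : Ad → Ad
  | [] => []
  | d :: s => up c d :: s

lemma upA_inj (c : ℕ × ℕ) : Function.Injective (upA c) := by
  rintro (_ | ⟨d, s⟩) (_ | ⟨d', s'⟩) h <;> simp [upA] at h ⊢
  exact ⟨by rw [← dn_up c d, h.1, dn_up], h.2⟩

namespace Sys

variable (S : Sys)

lemma len_upA (c : ℕ × ℕ) : ∀ s : Ad, S.len (upA c s) = S.len s
  | [] => rfl
  | d :: s => by simp only [len, upA, Φ, up_fst]

/-- Embedding below the letter `c`, on the ambient product. -/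
noncomputable def emb (c : ℕ × ℕ) (P : Ad → ℝ) : Ad → ℝ
  | [] => S.φ c.1 (P [])
  | d :: u => if d = c then S.φ c.1 (P u) else 0

/-- Shift, on the ambient product. -/
noncomputable def sh (c : ℕ × ℕ) (P : Ad → ℝ) : Ad → ℝ
  | [] => P []
  | d :: u => if d = c then 0 else P (dn c d :: u)

lemma emb_cont (c : ℕ × ℕ) : Continuous (S.emb c) := by
  refine continuous_pi fun u => ?_
  rcases u with _ | ⟨d, u⟩
  · exact (S.cont c.1).comp (continuous_apply _)
  · by_cases h : d = c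
    · simp only [emb, if_pos h]; exact (S.cont c.1).comp (continuous_apply _)
    · simp only [emb, if_neg h]; exact continuous_const

lemma sh_cont (c : ℕ × ℕ) : Continuous (sh c) := by
  refine continuous_pi fun u => ?_
  rcases u with _ | ⟨d, u⟩
  · exact continuous_apply _
  · by_cases h : d = c
    · simp only [sh, if_pos h]; exact continuous_const
    · simp only [sh, if_neg h]; exact continuous_apply _

lemma emb_pt (c : ℕ × ℕ) (s : Ad) (y : ℝ) : S.emb c (pt s y) = pt (c :: s) (S.φ c.1 y) := by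
  ext u
  rcases u with _ | ⟨d, u⟩
  · simp [emb, pt_nil]
  · by_cases h : d = c
    · subst h
      by_cases h' : u <+: s
      · simp [emb, pt, h']
      · simp [emb, pt, h', S.zero]
    · simp [emb, pt, h]

lemma sh_pt (c : ℕ × ℕ) (s : Ad) (y : ℝ) : sh c (pt s y) = pt (upA c s) y := by
  ext u
  rcases u with _ | ⟨d, u⟩
  · simp [sh, pt_nil]
  · rcases s with _ | ⟨e, s⟩
    · simp [sh, pt, upA]
    · by_cases h : d = c
      · subst h
        simp [sh, pt, upA, (up_ne d e).symm]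
      · have : dn c d = e ↔ d = up c e :=
          ⟨fun a => by rw [← a, up_dn c d h], fun a => by rw [a, dn_up]⟩
        simp [sh, pt, upA, h, this]

lemma φ_mem (c : ℕ × ℕ) {s : Ad} {y : ℝ} (h : y ∈ Icc 0 (S.len s)) :
    S.φ c.1 y ∈ Icc 0 (S.len (c :: s)) :=
  ⟨S.Φ_nonneg [c] h.1, (S.mono c.1).monotone h.2⟩

/-- Embedding of the fan below the letter `c`. -/
noncomputable def embF (c : ℕ × ℕ) (P : S.Sp) : S.Sp :=
  ⟨S.emb c P.1, by
    obtain ⟨s, y, h0, h1, e⟩ := P.2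
    exact ⟨c :: s, _, (S.φ_mem c ⟨h0, h1⟩).1, (S.φ_mem c ⟨h0, h1⟩).2, by rw [e, emb_pt]⟩⟩

/-- Embedding of the fan onto the complement. -/
noncomputable def shF (c : ℕ × ℕ) (P : S.Sp) : S.Sp :=
  ⟨sh c P.1, by
    obtain ⟨s, y, h0, h1, e⟩ := P.2
    exact ⟨upA c s, y, h0, by rwa [len_upA], by rw [e, sh_pt]⟩⟩

lemma embF_cont (c : ℕ × ℕ) : Continuous (S.embF c) :=
  Continuous.subtype_mk ((S.emb_cont c).comp continuous_subtype_val) _

lemma shF_cont (c : ℕ × ℕ) : Continuous (S.shF c) :=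
  Continuous.subtype_mk ((sh_cont c).comp continuous_subtype_val) _

lemma embF_ray (c : ℕ × ℕ) {s : Ad} {y : ℝ} (h : y ∈ Icc 0 (S.len s)) :
    S.embF c (S.ray s y) = S.ray (c :: s) (S.φ c.1 y) :=
  Subtype.ext (by rw [S.ray_val (S.φ_mem c h), ← emb_pt, ← S.ray_val h]; rfl)

lemma up_mem (c : ℕ × ℕ) {s : Ad} {y : ℝ} (h : y ∈ Icc 0 (S.len s)) :
    y ∈ Icc 0 (S.len (upA c s)) := by rwa [len_upA]

lemma shF_ray (c : ℕ × ℕ) {s : Ad} {y : ℝ} (h : y ∈ Icc 0 (S.len s)) :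
    S.shF c (S.ray s y) = S.ray (upA c s) y :=
  Subtype.ext (by rw [S.ray_val (S.up_mem c h), ← sh_pt, ← S.ray_val h]; rfl)

lemma embF_top (c : ℕ × ℕ) : S.embF c S.top = S.top := by
  rw [top, S.embF_ray c (S.zero_mem _), S.zero, ray_zero, ray_zero]

lemma shF_top (c : ℕ × ℕ) : S.shF c S.top = S.top := by
  rw [top, S.shF_ray c (S.zero_mem _), ray_zero, ray_zero]

lemma embF_inj (c : ℕ × ℕ) : Function.Injective (S.embF c) := by
  intro P Q e
  obtain ⟨s, y, hy, rfl⟩ := S.exists_ray P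
  obtain ⟨s', y', hy', rfl⟩ := S.exists_ray Q
  rw [S.embF_ray c hy, S.embF_ray c hy'] at e
  obtain rfl : y = y' := (S.mono c.1).injective (S.ray_ht (S.φ_mem c hy) (S.φ_mem c hy') e)
  by_cases h0 : y = 0
  · rw [h0, ray_zero, ray_zero]
  · have h1 : S.φ c.1 y ≠ 0 := fun h => h0 ((S.mono c.1).injective (h.trans (S.zero _).symm))
    have := S.ray_addr (S.φ_mem c hy) (S.φ_mem c hy') h1 e
    rw [(List.cons.inj this).2]

lemma shF_inj (c : ℕ × ℕ) : Function.Injective (S.shF c) := by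
  intro P Q e
  obtain ⟨s, y, hy, rfl⟩ := S.exists_ray P
  obtain ⟨s', y', hy', rfl⟩ := S.exists_ray Q
  rw [S.shF_ray c hy, S.shF_ray c hy'] at e
  obtain rfl : y = y' := S.ray_ht (S.up_mem c hy) (S.up_mem c hy') e
  by_cases h0 : y = 0
  · rw [h0, ray_zero, ray_zero]
  · rw [upA_inj c (S.ray_addr (S.up_mem c hy) (S.up_mem c hy') h0 e)]

lemma cover (c : ℕ × ℕ) (P : S.Sp) : (∃ x, S.embF c x = P) ∨ ∃ x, S.shF c x = P := by
  obtain ⟨s, y, hy, rfl⟩ := S.exists_ray P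
  rcases s with _ | ⟨d, s⟩
  · exact Or.inr ⟨_, S.shF_ray c hy⟩
  · by_cases h : d = c
    · subst h
      obtain ⟨x, hx, rfl⟩ := S.exists_param [d] (S.len_pos s).le hy
      exact Or.inl ⟨_, S.embF_ray d hx⟩
    · have e : upA c (dn c d :: s) = d :: s := by rw [upA, up_dn c d h]
      refine Or.inr ⟨S.ray (dn c d :: s) y, ?_⟩
      rw [S.shF_ray c (by rwa [← S.len_upA c, e]), e]

lemma meet (c : ℕ × ℕ) (P Q : S.Sp) : S.embF c P = S.shF c Q ↔ P = S.top ∧ Q = S.top := by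
  refine ⟨fun e => ?_, by rintro ⟨rfl, rfl⟩; rw [embF_top, shF_top]⟩
  have key : S.shF c Q = S.top := by
    obtain ⟨s, y, hy, rfl⟩ := S.exists_ray P
    obtain ⟨s', y', hy', rfl⟩ := S.exists_ray Q
    rw [S.embF_ray c hy, S.shF_ray c hy'] at e
    rw [S.shF_ray c hy', S.ray_eq_top (S.up_mem c hy')]
    by_contra h0
    have := S.ray_addr (S.up_mem c hy') (S.φ_mem c hy) h0 e.symm
    rcases s' with _ | ⟨d, s'⟩
    · simp [upA] at this
    · exact up_ne c d (List.cons.inj this).1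
  exact ⟨S.embF_inj c (by rw [e, key, embF_top]), S.shF_inj c (by rw [key, shF_top])⟩

lemma move : ∀ s : Ad, ∃ g : S.Sp ≃ₜ S.Sp, g S.top = S.top ∧ g (S.tip []) = S.tip s
  | [] => ⟨Homeomorph.refl _, rfl, rfl⟩
  | c :: s => by
    obtain ⟨g, g0, g1⟩ := move s
    obtain ⟨h, -, h2⟩ := glue S.top (S.embF c) (S.shF c) (S.shF c) (S.embF c ∘ g)
      (S.embF_cont c) (S.shF_cont c) (S.shF_cont c) ((S.embF_cont c).comp g.continuous)
      (S.embF_inj c) (S.shF_inj c) (S.shF_inj c) ((S.embF_inj c).comp g.injective)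
      (S.cover c) (fun p => by
        rcases S.cover c p with ⟨x, hx⟩ | hx
        · exact Or.inr ⟨g.symm x, by simpa using hx⟩
        · exact Or.inl hx) (S.meet c) (fun x y => by
        rw [eq_comm, Function.comp, S.meet c, and_comm]
        refine and_congr_right fun _ => ?_
        rw [← g0, g.injective.eq_iff, g0])
    refine ⟨h, ?_, ?_⟩
    · conv_lhs => rw [← S.shF_top c]
      rw [h2, Function.comp, g0, embF_top]
    · have : S.shF c (S.tip []) = S.tip [] := S.shF_ray c (S.len_mem [])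
      conv_lhs => rw [← this]
      rw [h2, Function.comp, g1]
      exact S.embF_ray c (S.len_mem s)

lemma homogeneous : EndpointHomogeneous S.Sp := by
  intro e e' he he'
  obtain ⟨s, rfl⟩ := (S.end_iff e).1 he
  obtain ⟨s', rfl⟩ := (S.end_iff e').1 he'
  obtain ⟨g, -, g1⟩ := S.move s
  obtain ⟨g', -, g1'⟩ := S.move s'
  exact ⟨g.symm.trans g', by rw [← g1, ← g1']; simp⟩

end Sys

lemma exists_seq : ∃ a : ℕ → ℝ, (∀ i, 0 < a i ∧ a i ≤ 1 / 2) ∧
    Icc (0 : ℝ) (1 / 2) ⊆ closure (range a) := by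
  have : Nonempty (Ioc (0 : ℝ) (1 / 2)) := ⟨⟨1 / 2, by norm_num, le_rfl⟩⟩
  obtain ⟨b, hb⟩ := TopologicalSpace.exists_dense_seq (Ioc (0 : ℝ) (1 / 2))
  refine ⟨fun i => b i, fun i => (b i).2, ?_⟩
  rw [← closure_Ioc (by norm_num)]
  refine closure_minimal (fun x hx => ?_) isClosed_closure
  have h1 := image_closure_subset_closure_image continuous_subtype_val
    (mem_image_of_mem Subtype.val (hb ⟨x, hx⟩))
  rwa [← range_comp] at h1

/-- The linear system. -/
def sysA (a : ℕ → ℝ) (ha : ∀ i, 0 < a i ∧ a i ≤ 1 / 2) : Sys where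
  φ i x := a i * x
  cont i := by fun_prop
  mono i := fun x y h => mul_lt_mul_of_pos_left h (ha i).1
  zero i := mul_zero _
  half i x hx := by nlinarith [(ha i).2]

/-- The piecewise linear system. -/
noncomputable def sysB (a : ℕ → ℝ) (ha : ∀ i, 0 < a i ∧ a i ≤ 1 / 2) : Sys where
  φ i x := min (x / 2) (1 / 4 + a i * (x - 1 / 2))
  cont i := by fun_prop
  mono i := fun x y h => min_lt_min (by linarith) (by nlinarith [(ha i).1])
  zero i := by
    rw [zero_div]; exact min_eq_left (by nlinarith [(ha i).2])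
  half i x hx := min_le_left _ _

lemma map_closure {a : ℕ → ℝ} (hd : Icc (0 : ℝ) (1 / 2) ⊆ closure (range a)) (f : ℝ → ℝ)
    (hf : Continuous f) {Z : Set ℝ} (hZ : ∀ i, f (a i) ∈ Z) {x : ℝ} (hx : x ∈ Icc (0 : ℝ) (1 / 2)) :
    f x ∈ closure Z :=
  map_mem_closure hf (hd hx) (by rintro _ ⟨i, rfl⟩; exact hZ i)

lemma sysA_dense (a : ℕ → ℝ) (ha : ∀ i, 0 < a i ∧ a i ≤ 1 / 2)
    (hd : Icc (0 : ℝ) (1 / 2) ⊆ closure (range a)) : (sysA a ha).Dense' := fun _ hx =>
  map_closure hd id continuous_id (Z := {y | ∃ u : Ad, u ≠ [] ∧ y = (sysA a ha).len u})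
    (fun i => ⟨[(i, 0)], by simp, by simp [Sys.len, Sys.Φ, sysA]⟩) hx

lemma sysA_unc (a : ℕ → ℝ) (ha : ∀ i, 0 < a i ∧ a i ≤ 1 / 2)
    (hd : Icc (0 : ℝ) (1 / 2) ⊆ closure (range a)) :
    ¬ (closure (Marks (sysA a ha).Sp)).Countable := by
  refine Sys.uncountable_of _ (sysA_dense a ha hd) fun y hy => ?_
  have := map_closure hd (fun x => x * (1 / 2)) (by fun_prop)
    (Z := {y | ∃ i, y = (sysA a ha).φ i (1 / 2)}) (fun i => ⟨i, rfl⟩) (x := 2 * y)
    ⟨by linarith [hy.1], by linarith [hy.2]⟩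
  rwa [show 2 * y * (1 / 2) = y by ring] at this

lemma sysB_low (a : ℕ → ℝ) (ha : ∀ i, 0 < a i ∧ a i ≤ 1 / 2) (i : ℕ) {x : ℝ} (hx : x ≤ 1 / 2) :
    (sysB a ha).φ i x = x / 2 := min_eq_left (by nlinarith [(ha i).2])

lemma sysB_dense (a : ℕ → ℝ) (ha : ∀ i, 0 < a i ∧ a i ≤ 1 / 2)
    (hd : Icc (0 : ℝ) (1 / 2) ⊆ closure (range a)) : (sysB a ha).Dense' := by
  set Z := {y | ∃ u : Ad, u ≠ [] ∧ y = (sysB a ha).len u} with hZ
  have base : ∀ y ∈ Icc (1 / 4 : ℝ) (1 / 2), y ∈ closure Z := by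
    intro y hy
    have := map_closure hd (fun x => 1 / 4 + x * (1 - 1 / 2)) (by fun_prop) (Z := Z)
      (fun i => ⟨[(i, 0)], by simp, (min_eq_right (show 1 / 4 + a i * (1 - 1 / 2) ≤ (1 : ℝ) / 2 by
        nlinarith [(ha i).2])).symm⟩)
      (x := 2 * y - 1 / 2) ⟨by linarith [hy.1], by linarith [hy.2]⟩
    rwa [show 1 / 4 + (2 * y - 1 / 2) * (1 - 1 / 2) = y by ring] at this
  have step : ∀ y ∈ closure Z, y / 2 ∈ closure Z := by
    intro y hy
    refine map_mem_closure (f := fun y : ℝ => y / 2) (by fun_prop) hy ?_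
    rintro _ ⟨u, hu, rfl⟩
    exact ⟨(0, 0) :: u, by simp, (sysB_low a ha 0 ((sysB a ha).len_le_half hu)).symm⟩
  have ind : ∀ n : ℕ, ∀ y ∈ Icc ((1 / 2 : ℝ) ^ n / 4) (1 / 2), y ∈ closure Z := by
    intro n
    induction n with
    | zero => simpa using base
    | succ n ih =>
      intro y hy
      by_cases h : 1 / 4 ≤ y
      · exact base y ⟨h, hy.2⟩
      · have := step _ (ih (2 * y) ⟨by have := hy.1; rw [pow_succ] at this; linarith, by linarith⟩)
        rwa [show 2 * y / 2 = y by ring] at this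
  rw [Sys.Dense', ← closure_Ioc (by norm_num)]
  refine closure_minimal (fun y hy => ?_) isClosed_closure
  obtain ⟨n, hn⟩ := exists_pow_lt_of_lt_one hy.1 (show (1 / 2 : ℝ) < 1 by norm_num)
  refine ind n y ⟨?_, hy.2⟩
  have : (0 : ℝ) < (1 / 2) ^ n := by positivity
  linarith

lemma sysB_cnt (a : ℕ → ℝ) (ha : ∀ i, 0 < a i ∧ a i ≤ 1 / 2)
    (hd : Icc (0 : ℝ) (1 / 2) ⊆ closure (range a)) :
    (closure (Marks (sysB a ha).Sp)).Countable := by
  have ht := tendsto_pow_atTop_nhds_zero_of_lt_one (r := (1 / 2 : ℝ)) (by norm_num) (by norm_num)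
  refine Sys.countable_of _ (sysB_dense a ha hd) (insert 0 (range fun n : ℕ => (1 / 2 : ℝ) ^ n))
    ((countable_range _).insert 0) ht.isCompact_insert_range.isClosed fun s => Or.inr ?_
  refine ⟨s.length + 1, ?_⟩
  induction s with
  | nil => simp [Sys.Φ]
  | cons c s ih =>
    simp only [Sys.Φ, ← ih, List.length_cons]
    rw [sysB_low a ha]
    · ring
    · rw [pow_succ]
      have : ((1 / 2 : ℝ)) ^ s.length ≤ 1 := pow_le_one₀ (by norm_num) (by norm_num)
      linarith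

theorem main : ∃ (F G : Type) (_ : MetricSpace F) (_ : MetricSpace G) (s : F) (t : G),
    (IsFan s ∧ IsSmooth s ∧ EndpointHomogeneous F ∧
      IsEPG s {x : unitInterval | (x : ℝ) ≤ 1 / 2}) ∧
    (IsFan t ∧ IsSmooth t ∧ EndpointHomogeneous G ∧
      IsEPG t {x : unitInterval | (x : ℝ) ≤ 1 / 2}) ∧ IsEmpty (F ≃ₜ G) := by
  obtain ⟨a, ha, hd⟩ := exists_seq
  let mA := TopologicalSpace.metrizableSpaceMetric (sysA a ha).Sp
  let mB := TopologicalSpace.metrizableSpaceMetric (sysB a ha).Sp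
  refine ⟨(sysA a ha).Sp, (sysB a ha).Sp, mA, mB, (sysA a ha).top, (sysB a ha).top,
    ⟨Sys.isFan _, ?_, Sys.homogeneous _, Sys.isEPG _ (sysA_dense a ha hd)⟩,
    ⟨Sys.isFan _, ?_, Sys.homogeneous _, Sys.isEPG _ (sysB_dense a ha hd)⟩,
    ⟨fun e => sysA_unc a ha hd (countable_marks e (sysB_cnt a ha hd))⟩⟩
  · exact @smooth_of_scale _ mA (Sys.isFan _).compact _ _ (Sys.scale_cont _) (Sys.arc_scale _)
  · exact @smooth_of_scale _ mB (Sys.isFan _).compact _ _ (Sys.scale_cont _) (Sys.arc_scale _)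

end Pool.Agent.H148Z.Fan
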