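import Mathlib

set_option autoImplicit false

namespace Pool.Agent.H148Z.Fan

open Set Filter Topology

section topological

variable {F : Type} [TopologicalSpace F]

/-- `A` is an arc in `F` with endpoints `x` and `y`. -/
def IsArc (A : Set F) (x y : F) : Prop :=
  ∃ γ : unitInterval → F, Continuous γ ∧ Function.Injective γ ∧ γ 0 = x ∧ γ 1 = y ∧ range γ = A

/-- `A` is `[x, y]`: the point `x = y`, or an arc with endpoints `x` and `y`. -/
def IsArcOrPoint (A : Set F) (x y : F) : Prop := (x = y ∧ A = {x}) ∨ IsArc A x y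

/-- `p` is a ramification point: the vertex of a simple triod. -/
def IsRamificationPoint (p : F) : Prop :=
  ∃ (x₁ x₂ x₃ : F) (A₁ A₂ A₃ : Set F), IsArc A₁ p x₁ ∧ IsArc A₂ p x₂ ∧ IsArc A₃ p x₃ ∧
    A₁ ∩ A₂ = {p} ∧ A₁ ∩ A₃ = {p} ∧ A₂ ∩ A₃ = {p}

/-- `F` is a fan with top `t`: a compact, connected, arcwise connected, hereditarily unicoherent
space whose only ramification point is `t`. -/
structure IsFan (t : F) : Prop where
  compact : CompactSpace F
  connected : ConnectedSpace F
  arcwise_connected : ∀ x y : F, x ≠ y → ∃ A, IsArc A x y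
  hereditarily_unicoherent : ∀ A B : Set F, IsClosed A → IsConnected A → IsClosed B →
    IsConnected B → IsPreconnected (A ∩ B)
  top_ramification : IsRamificationPoint t
  top_unique : ∀ p : F, IsRamificationPoint p → p = t

/-- `e` is an endpoint of `F`: an endpoint of every arc in `F` containing it. -/
def IsEndpoint (e : F) : Prop := ∀ (A : Set F) (x y : F), IsArc A x y → e ∈ A → e = x ∨ e = y

/-- Any endpoint can be moved to any other by a self-homeomorphism. -/
def EndpointHomogeneous (F : Type) [TopologicalSpace F] : Prop :=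
  ∀ e e' : F, IsEndpoint e → IsEndpoint e' → ∃ h : F ≃ₜ F, h e = e'

/-- The fan with top `t` is `X`-EPG: each blade `B = [t, e]` has a parametrisation `φ` from `t` to
`e` (a continuous bijection of `[0, 1]` onto `B`) with `φ[X] = B ∩ closure (E(F) \ B)`. -/
def IsEPG (t : F) (X : Set unitInterval) : Prop :=
  ∀ (e : F) (B : Set F), IsEndpoint e → IsArc B t e →
    ∃ φ : unitInterval → F, Continuous φ ∧ Function.Injective φ ∧ φ 0 = t ∧ φ 1 = e ∧
      range φ = B ∧ φ '' X = B ∩ closure ({e' : F | IsEndpoint e'} \ B)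

end topological

/-- Smoothness at the top `t`: `x n → y` implies `[t, x n] → [t, y]` in the Hausdorff metric. -/
def IsSmooth {F : Type} [MetricSpace F] (t : F) : Prop :=
  ∀ (y : F) (x : ℕ → F), Tendsto x atTop (𝓝 y) →
    ∀ (A : Set F) (As : ℕ → Set F), IsArcOrPoint A t y → (∀ n, IsArcOrPoint (As n) t (x n)) →
      Tendsto (fun n => Metric.hausdorffDist (As n) A) atTop (𝓝 0)

end Pool.Agent.H148Z.Fan
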