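import Mathlib

set_option autoImplicit false

open MeasureTheory Set Filter Topology

namespace Pool.Agent.H148Z.Flow

/-- A continuous strictly increasing quasi-periodic map of the line has such an inverse. -/
lemma exists_inv (P : ℝ → ℝ) (hc : Continuous P) (hm : StrictMono P) (L : ℝ) (hL : 0 < L)
    (hper : ∀ x, P (x + 1) = P x + L) :
    ∃ A : ℝ → ℝ, Continuous A ∧ StrictMono A ∧ (∀ x, A (P x) = x) ∧ (∀ τ, P (A τ) = τ) ∧
      ∀ τ, A (τ + L) = A τ + 1 := by
  have hn : ∀ (n : ℕ) (x : ℝ), P (x + n) = P x + n * L := by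
    intro n
    induction n with
    | zero => intro x; simp
    | succ n ih =>
      intro x
      have : x + ((n + 1 : ℕ) : ℝ) = (x + n) + 1 := by push_cast; ring
      rw [this, hper, ih]; push_cast; ring
  have hsurj : Function.Surjective P := by
    intro τ
    obtain ⟨n, hn'⟩ := exists_nat_ge (|τ - P 0| / L)
    have h1 : |τ - P 0| ≤ n * L := by rwa [div_le_iff₀ hL] at hn'
    have h2 := abs_le.1 h1
    have h3 : P n = P 0 + n * L := by simpa using hn n 0
    have h4 : P (-n) = P 0 - n * L := by
      have := hn n (-n); simp at this; linarith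
    have hle : (-(n : ℝ)) ≤ n := by
      have : (0 : ℝ) ≤ n := Nat.cast_nonneg n
      linarith
    obtain ⟨x, -, hx⟩ := intermediate_value_Icc hle hc.continuousOn
      (show τ ∈ Icc (P (-n)) (P n) from ⟨by linarith [h2.1], by linarith [h2.2]⟩)
    exact ⟨x, hx⟩
  let e := hm.orderIsoOfSurjective P hsurj
  have he : ∀ x, e x = P x := fun x => rfl
  refine ⟨e.symm, e.symm.continuous, e.symm.strictMono, fun x => ?_, fun τ => ?_, fun τ => ?_⟩
  · rw [← he]; exact e.symm_apply_apply x
  · rw [← he]; exact e.apply_symm_apply τ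
  · apply hm.injective
    rw [hper, ← he, ← he, e.apply_symm_apply, e.apply_symm_apply]

lemma infDist_periodic (F : Set ℝ) (hF : ∀ x, x + 1 ∈ F ↔ x ∈ F) (x : ℝ) :
    Metric.infDist (x + 1) F = Metric.infDist x F := by
  have himg : (fun y : ℝ => y + 1) '' F = F := by
    ext y
    constructor
    · rintro ⟨z, hz, rfl⟩; exact (hF z).2 hz
    · intro hy; refine ⟨y - 1, (hF _).1 (by simpa using hy), by simp⟩
  have hiso : Isometry (fun y : ℝ => y + 1) := isometry_add_right 1
  have := Metric.infDist_image hiso (x := x) (t := F)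
  rwa [himg] at this

/-- Primitive of the distance to a closed periodic nowhere dense set. -/
lemma prim_props (F : Set ℝ) (hcl : IsClosed F) (hne : F.Nonempty) (hF : ∀ x, x + 1 ∈ F ↔ x ∈ F)
    (hd : Dense Fᶜ) :
    ∃ (P : ℝ → ℝ) (L : ℝ), 0 < L ∧ P 0 = 0 ∧ (∀ x, HasDerivAt P (Metric.infDist x F) x) ∧
      StrictMono P ∧ ∀ x, P (x + 1) = P x + L := by
  have hw : Continuous fun x : ℝ => Metric.infDist x F := Metric.continuous_infDist_pt F
  have hper : Function.Periodic (fun x : ℝ => Metric.infDist x F) 1 := infDist_periodic F hF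
  let P : ℝ → ℝ := fun x => ∫ u in (0 : ℝ)..x, Metric.infDist u F
  have hm : StrictMono P := by
    intro a b hab
    have h1 : P b - P a = ∫ u in a..b, Metric.infDist u F :=
      intervalIntegral.integral_interval_sub_left (hw.intervalIntegrable _ _)
        (hw.intervalIntegrable _ _)
    have h2 : 0 < ∫ u in a..b, Metric.infDist u F := by
      obtain ⟨c, hc1, hc2⟩ := hd.exists_mem_open isOpen_Ioo (nonempty_Ioo.2 hab)
      refine intervalIntegral.integral_pos hab hw.continuousOn
        (fun x _ => Metric.infDist_nonneg) ⟨c, Ioo_subset_Icc_self hc2, ?_⟩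
      exact (hcl.notMem_iff_infDist_pos hne).1 hc1
    linarith
  refine ⟨P, P 1, ?_, by simp [P], fun x => ?_, hm, fun x => ?_⟩
  · have := hm (zero_lt_one' ℝ)
    simpa [P] using this
  · exact (hw.integral_hasStrictDerivAt 0 x).hasDerivAt
  · have h1 : P (x + 1) - P x = ∫ u in x..x + 1, Metric.infDist u F :=
      intervalIntegral.integral_interval_sub_left (hw.intervalIntegrable _ _)
        (hw.intervalIntegrable _ _)
    have h2 := hper.intervalIntegral_add_eq x 0
    simp only [zero_add] at h2
    have : P 1 = ∫ u in (0 : ℝ)..1, Metric.infDist u F := rfl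
    linarith

/-- A periodic closed nowhere dense set of positive measure. -/
lemma exists_fat : ∃ F : Set ℝ, IsClosed F ∧ (∀ x, x + 1 ∈ F ↔ x ∈ F) ∧ Dense Fᶜ ∧
    volume (F ∩ Ioc 0 1) ≠ 0 := by
  obtain ⟨D, hDc, hDd⟩ := TopologicalSpace.exists_countable_dense UnitAddCircle
  have hD0 : volume D = 0 := by
    rw [← biUnion_of_singleton D, measure_biUnion_null_iff hDc]
    intro x _
    have := AddCircle.volume_closedBall (T := (1 : ℝ)) (x := x) 0
    simpa using this
  obtain ⟨V, hDV, hVo, hV⟩ := Set.exists_isOpen_lt_of_lt (μ := volume) D 1 (by simp [hD0])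
  have hmk : Continuous ((↑) : ℝ → UnitAddCircle) := AddCircle.continuous_mk' 1
  refine ⟨((↑) : ℝ → UnitAddCircle) ⁻¹' Vᶜ, hVo.isClosed_compl.preimage hmk, fun x => ?_, ?_, ?_⟩
  · simp
  · rw [← preimage_compl, compl_compl]
    exact (hDd.mono hDV).preimage QuotientAddGroup.isOpenMap_coe
  · have h1 := (UnitAddCircle.measurePreserving_mk 0).measure_preimage
      hVo.measurableSet.compl.nullMeasurableSet
    rw [Measure.restrict_apply (hmk.measurable hVo.measurableSet.compl), zero_add] at h1
    rw [h1]
    intro h0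
    have h2 := measure_add_measure_compl (μ := volume) hVo.measurableSet
    rw [h0, add_zero, UnitAddCircle.measure_univ] at h2
    exact hV.ne h2

/-- A quasi-periodic singular (Cantor type) function. -/
lemma exists_cantor : ∃ (c : ℝ → ℝ) (S : Set ℝ) (κ : ℝ), Continuous c ∧ Monotone c ∧ 0 < κ ∧
    (∀ x, c (x + 1) = c x + κ) ∧ IsClosed S ∧ S.Nonempty ∧ volume S = 0 ∧
    (∀ x, x + 1 ∈ S ↔ x ∈ S) ∧ ∀ a b, a ≤ b → Disjoint (Icc a b) S → c b = c a := by
  obtain ⟨F, hcl, hF, hd, hpos⟩ := exists_fat
  have hne : F.Nonempty := (nonempty_of_measure_ne_zero hpos).mono inter_subset_left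
  obtain ⟨P, L, hL, hP0, hPd, hPm, hPp⟩ := prim_props F hcl hne hF hd
  let φ : ℝ → ℝ := fun u => P u / L
  have hφd : ∀ u, HasDerivAt φ (Metric.infDist u F / L) u := fun u => (hPd u).div_const L
  have hφc : Continuous φ := continuous_iff_continuousAt.2 fun u => (hφd u).continuousAt
  have hφm : StrictMono φ := fun a b hab => div_lt_div_of_pos_right (hPm hab) hL
  have hφp : ∀ u, φ (u + 1) = φ u + 1 := by
    intro u; simp only [φ, hPp]; field_simp
  obtain ⟨g, hgc, hgm, hg1, hg2, hgp⟩ := exists_inv φ hφc hφm 1 one_pos hφp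
  let ι : ℝ → ℝ := F.indicator 1
  have hιi : ∀ a b, IntervalIntegrable ι volume a b := by
    intro a b
    have : IntervalIntegrable (fun _ : ℝ => (1 : ℝ)) volume a b := intervalIntegrable_const
    exact ⟨this.1.indicator hcl.measurableSet, this.2.indicator hcl.measurableSet⟩
  have hιp : Function.Periodic ι 1 := by
    intro x
    by_cases hx : x ∈ F
    · simp [ι, hx, (hF x).2 hx]
    · have : x + 1 ∉ F := fun h => hx ((hF x).1 h)
      simp [ι, hx, this]
  let ψ : ℝ → ℝ := fun u => ∫ v in (0 : ℝ)..u, ι v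
  have hψs : ∀ a b, ψ b - ψ a = ∫ v in a..b, ι v := fun a b =>
    intervalIntegral.integral_interval_sub_left (hιi _ _) (hιi _ _)
  have hψc : Continuous ψ := intervalIntegral.continuous_primitive hιi 0
  have hψm : Monotone ψ := by
    intro a b hab
    have := hψs a b
    have h2 : 0 ≤ ∫ v in a..b, ι v :=
      intervalIntegral.integral_nonneg hab fun u _ => indicator_nonneg (fun _ _ => zero_le_one) u
    linarith
  have hS : g ⁻¹' F = φ '' F := by
    ext x
    constructor
    · intro hx; exact ⟨g x, hx, hg2 x⟩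
    · rintro ⟨u, hu, rfl⟩; simpa [hg1] using hu
  refine ⟨ψ ∘ g, g ⁻¹' F, ψ 1, hψc.comp hgc, hψm.comp hgm.monotone, ?_, fun x => ?_,
    hcl.preimage hgc, ?_, ?_, fun x => ?_, fun a b hab hdis => ?_⟩
  · have : ψ 1 = (volume (F ∩ Ioc 0 1)).toReal := by
      simp only [ψ, ι]
      rw [intervalIntegral.integral_of_le zero_le_one, integral_indicator_one hcl.measurableSet,
        Measure.real, Measure.restrict_apply hcl.measurableSet]
    rw [this]
    refine ENNReal.toReal_pos hpos (ne_top_of_le_ne_top ?_ (measure_mono inter_subset_right))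
    simp
  · simp only [Function.comp, hgp]
    have h1 := hψs (g x) (g x + 1)
    have h2 := hιp.intervalIntegral_add_eq (g x) 0
    simp only [zero_add] at h2
    have : ψ 1 = ∫ u in (0 : ℝ)..1, ι u := rfl
    linarith
  · rw [hS]; exact hne.image φ
  · rw [hS]
    have h1 := lintegral_image_eq_lintegral_abs_deriv_mul hcl.measurableSet
      (fun x _ => (hφd x).hasDerivWithinAt) hφm.injective.injOn (fun _ => 1)
    rw [setLIntegral_one] at h1
    rw [h1]
    refine setLIntegral_eq_zero hcl.measurableSet fun x hx => ?_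
    simp [Metric.infDist_zero_of_mem hx]
  · simp only [mem_preimage, hgp, hF]
  · have h1 := hψs (g a) (g b)
    have h2 : ∫ v in g a..g b, ι v = ∫ v in g a..g b, (0 : ℝ) := by
      refine intervalIntegral.integral_congr fun v hv => ?_
      rw [uIcc_of_le (hgm.monotone hab)] at hv
      have hv' : φ v ∈ Icc a b := by
        constructor
        · have := hφm.monotone hv.1; rwa [hg2] at this
        · have := hφm.monotone hv.2; rwa [hg2] at this
      have : v ∉ F := by
        intro hvF
        exact disjoint_left.1 hdis hv' (by simpa [hg1] using hvF)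
      simp [ι, this]
    simp only [intervalIntegral.integral_zero] at h2
    simp only [Function.comp]
    linarith

end Pool.Agent.H148Z.Flow
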