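import Pool.Agent.H148Z.Flow1

set_option autoImplicit false

open MeasureTheory Set Filter Topology

namespace Pool.Agent.H148Z.Flow

/-- All one-dimensional ingredients of the construction. -/
structure Data where
  S : Set ℝ
  c : ℝ → ℝ
  κ : ℝ
  L : ℝ
  Θ : ℝ → ℝ
  A : ℝ → ℝ
  c_cont : Continuous c
  c_mono : Monotone c
  κ_pos : 0 < κ
  c_per : ∀ x, c (x + 1) = c x + κ
  S_closed : IsClosed S
  S_ne : S.Nonempty
  S_null : volume S = 0
  S_per : ∀ x, x + 1 ∈ S ↔ x ∈ S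
  c_const : ∀ a b, a ≤ b → Disjoint (Icc a b) S → c b = c a
  L_pos : 0 < L
  Θ_zero : Θ 0 = 0
  Θ_deriv : ∀ x, HasDerivAt Θ (Metric.infDist x S) x
  Θ_mono : StrictMono Θ
  Θ_per : ∀ x, Θ (x + 1) = Θ x + L
  A_cont : Continuous A
  A_mono : StrictMono A
  A_Θ : ∀ x, A (Θ x) = x
  Θ_A : ∀ τ, Θ (A τ) = τ
  A_per : ∀ τ, A (τ + L) = A τ + 1

lemma nonempty_data : Nonempty Data := by
  obtain ⟨c, S, κ, h1, h2, h3, h4, h5, h6, h7, h8, h9⟩ := exists_cantor
  have hd : Dense Sᶜ := by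
    have : ∀ᵐ x ∂(volume : Measure ℝ), x ∉ S := measure_eq_zero_iff_ae_notMem.1 h7
    exact Measure.dense_of_ae this
  obtain ⟨Θ, L, hL, h0, hΘd, hΘm, hΘp⟩ := prim_props S h5 h6 h8 hd
  have hΘc : Continuous Θ := continuous_iff_continuousAt.2 fun u => (hΘd u).continuousAt
  obtain ⟨A, a1, a2, a3, a4, a5⟩ := exists_inv Θ hΘc hΘm L hL hΘp
  exact ⟨⟨S, c, κ, L, Θ, A, h1, h2, h3, h4, h5, h6, h7, h8, h9, hL, h0, hΘd, hΘm, hΘp,
    a1, a2, a3, a4, a5⟩⟩

namespace Data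

variable (D : Data)

/-- The width of the channel. -/
noncomputable def h (x : ℝ) : ℝ := Metric.infDist x D.S

lemma h_nonneg (x : ℝ) : 0 ≤ D.h x := Metric.infDist_nonneg

lemma h_cont : Continuous D.h := Metric.continuous_infDist_pt D.S

lemma h_per (x : ℝ) : D.h (x + 1) = D.h x := infDist_periodic D.S D.S_per x

lemma h_periodic : Function.Periodic D.h 1 := D.h_per

lemma h_int (x : ℝ) (k : ℤ) : D.h (x + k) = D.h x := by
  have := D.h_periodic.int_mul k x
  simpa using this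

lemma S_int (x : ℝ) (k : ℤ) : x + k ∈ D.S ↔ x ∈ D.S := by
  have hp : Function.Periodic (fun x : ℝ => x ∈ D.S) 1 := fun x => propext (D.S_per x)
  have := hp.int_mul k x
  simpa using this

lemma h_lt_one (x : ℝ) : D.h x < 1 := by
  obtain ⟨s, hs⟩ := D.S_ne
  have h1 : s + ⌊x - s⌋ ∈ D.S := (D.S_int s _).2 hs
  have h2 : D.h x ≤ dist x (s + ⌊x - s⌋) := Metric.infDist_le_dist_of_mem h1
  have h3 : dist x (s + ⌊x - s⌋) = Int.fract (x - s) := by
    rw [Real.dist_eq, show x - (s + ⌊x - s⌋) = Int.fract (x - s) by rw [Int.fract]; ring]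
    exact abs_of_nonneg (Int.fract_nonneg _)
  linarith [Int.fract_lt_one (x - s)]

lemma h_pos_iff (x : ℝ) : 0 < D.h x ↔ x ∉ D.S := (D.S_closed.notMem_iff_infDist_pos D.S_ne).symm

lemma h_ae_pos : ∀ᵐ x ∂(volume : Measure ℝ), 0 < D.h x := by
  filter_upwards [measure_eq_zero_iff_ae_notMem.1 D.S_null] with x hx using (D.h_pos_iff x).2 hx

lemma h_lip : LipschitzWith 1 D.h := Metric.lipschitz_infDist_pt D.S

lemma h_ac (a b : ℝ) : AbsolutelyContinuousOnInterval D.h a b :=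
  D.h_lip.lipschitzOnWith.absolutelyContinuousOnInterval

lemma deriv_h_int (x : ℝ) (k : ℤ) : deriv D.h (x + k) = deriv D.h x := by
  have : (fun y => D.h (y + k)) = D.h := funext fun y => D.h_int y k
  rw [← deriv_comp_add_const, this]

lemma Θ_cont : Continuous D.Θ := continuous_iff_continuousAt.2 fun u => (D.Θ_deriv u).continuousAt

lemma change_int (u : ℝ → ℝ) (τ₀ τ₁ : ℝ) (hτ : τ₀ ≤ τ₁)
    (hu : IntervalIntegrable u volume (D.A τ₀) (D.A τ₁)) :
    IntervalIntegrable (fun τ => u (D.A τ) / D.h (D.A τ)) volume τ₀ τ₁ ∧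
      ∫ τ in τ₀..τ₁, u (D.A τ) / D.h (D.A τ) = ∫ x in D.A τ₀..D.A τ₁, u x := by
  have hab : D.A τ₀ ≤ D.A τ₁ := D.A_mono.monotone hτ
  have hae : (fun x => D.h x • (u (D.A (D.Θ x)) / D.h (D.A (D.Θ x)))) =ᵐ[volume] u := by
    filter_upwards [D.h_ae_pos] with x hx
    rw [D.A_Θ, smul_eq_mul]; field_simp
  have h1 := integral_Icc_deriv_smul_of_deriv_nonneg (f := D.Θ) (f' := D.h)
    (g := fun τ => u (D.A τ) / D.h (D.A τ)) D.Θ_cont.continuousOn
    (fun x _ => D.Θ_deriv x) (fun x _ => D.h_nonneg x) hab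
  have h2 := integrableOn_Icc_deriv_smul_iff_of_deriv_nonneg (f := D.Θ) (f' := D.h)
    (g := fun τ => u (D.A τ) / D.h (D.A τ)) D.Θ_cont.continuousOn
    (fun x _ => D.Θ_deriv x) (fun x _ => D.h_nonneg x) hab
  rw [D.Θ_A, D.Θ_A] at h1 h2
  constructor
  · rw [intervalIntegrable_iff_integrableOn_Icc_of_le hτ, ← h2]
    rw [intervalIntegrable_iff_integrableOn_Icc_of_le hab] at hu
    exact hu.congr_fun_ae (ae_restrict_of_ae hae.symm)
  · rw [intervalIntegral.integral_of_le hτ, intervalIntegral.integral_of_le hab,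
      ← integral_Icc_eq_integral_Ioc, ← integral_Icc_eq_integral_Ioc, ← h1]
    exact integral_congr_ae (ae_restrict_of_ae hae)

/-- The channel inside the unit square. -/
def K : Set (Fin 2 → ℝ) := {p | 0 < p 1 ∧ p 1 < D.h (p 0)}

lemma K_open : IsOpen D.K :=
  (isOpen_lt continuous_const (continuous_apply 1)).inter
    (isOpen_lt (continuous_apply 1) (D.h_cont.comp (continuous_apply 0)))

open Classical in
/-- The flow. -/
noncomputable def X (t : ℝ) (p : Fin 2 → ℝ) : Fin 2 → ℝ :=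
  if p ∈ D.K then ![D.A (D.Θ (p 0) + t), p 1 / D.h (p 0) * D.h (D.A (D.Θ (p 0) + t))] else p

open Classical in
/-- The velocity field. -/
noncomputable def b (p : Fin 2 → ℝ) : Fin 2 → ℝ :=
  if 0 < Int.fract (p 1) ∧ Int.fract (p 1) < D.h (p 0) then
    ![1 / D.h (p 0), Int.fract (p 1) / D.h (p 0) * (deriv D.h (p 0) / D.h (p 0))] else 0

lemma b_meas : Measurable D.b := by
  have hh : Measurable fun p : Fin 2 → ℝ => D.h (p 0) :=
    D.h_cont.measurable.comp (measurable_pi_apply 0)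
  have hf : Measurable fun p : Fin 2 → ℝ => Int.fract (p 1) :=
    measurable_fract.comp (measurable_pi_apply 1)
  have hd : Measurable fun p : Fin 2 → ℝ => deriv D.h (p 0) :=
    (measurable_deriv D.h).comp (measurable_pi_apply 0)
  refine Measurable.ite ((measurableSet_lt measurable_const hf).inter (measurableSet_lt hf hh))
    ?_ measurable_const
  refine measurable_pi_iff.2 fun i => ?_
  fin_cases i
  · exact measurable_const.div hh
  · exact (hf.div hh).mul (hd.div hh)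

lemma b_per (x : Fin 2 → ℝ) (k : Fin 2 → ℤ) : D.b (x + fun i => (k i : ℝ)) = D.b x := by
  simp only [b, Pi.add_apply, Int.fract_add_intCast, D.h_int, D.deriv_h_int]

lemma X_meas : Measurable (Function.uncurry D.X) := by
  have h0 : Measurable fun z : ℝ × (Fin 2 → ℝ) => z.2 0 :=
    (measurable_pi_apply 0).comp measurable_snd
  have h1 : Measurable fun z : ℝ × (Fin 2 → ℝ) => z.2 1 :=
    (measurable_pi_apply 1).comp measurable_snd
  have hA : Measurable fun z : ℝ × (Fin 2 → ℝ) => D.A (D.Θ (z.2 0) + z.1) :=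
    D.A_cont.measurable.comp ((D.Θ_cont.measurable.comp h0).add measurable_fst)
  refine Measurable.ite (D.K_open.measurableSet.preimage measurable_snd) ?_ measurable_snd
  refine measurable_pi_iff.2 fun i => ?_
  fin_cases i
  · exact hA
  · exact (h1.div (D.h_cont.measurable.comp h0)).mul (D.h_cont.measurable.comp hA)

lemma X_zero (p : Fin 2 → ℝ) : D.X 0 p = p := by
  unfold X
  split_ifs with hp
  · have : 0 < D.h (p 0) := hp.1.trans hp.2
    ext i
    fin_cases i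
    · simp [D.A_Θ]
    · simp only [add_zero, D.A_Θ]
      simp; field_simp
  · rfl

lemma ratio_mem {p : Fin 2 → ℝ} (hp : p ∈ D.K) : 0 < p 1 / D.h (p 0) ∧ p 1 / D.h (p 0) < 1 := by
  have : 0 < D.h (p 0) := hp.1.trans hp.2
  exact ⟨div_pos hp.1 this, (div_lt_one this).2 hp.2⟩

lemma fract_ratio {σ : ℝ} (h0 : 0 < σ) (h1 : σ < 1) (x : ℝ) : Int.fract (σ * D.h x) = σ * D.h x := by
  refine Int.fract_eq_self.2 ⟨mul_nonneg h0.le (D.h_nonneg x), ?_⟩
  have := D.h_lt_one x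
  have := D.h_nonneg x
  nlinarith

lemma b_channel {σ : ℝ} (h0 : 0 < σ) (h1 : σ < 1) (x : ℝ) :
    D.b ![x, σ * D.h x] = ![1 / D.h x, σ * (deriv D.h x / D.h x)] := by
  unfold b
  simp only [Matrix.cons_val_zero, Matrix.cons_val_one, D.fract_ratio h0 h1]
  split_ifs with hc
  · have : 0 < D.h x := hc.1.trans hc.2
    rw [mul_div_assoc, div_self this.ne', mul_one]
  · have : D.h x = 0 := by
      by_contra hne
      have hpos : 0 < D.h x := lt_of_le_of_ne (D.h_nonneg x) (Ne.symm hne)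
      exact hc ⟨mul_pos h0 hpos, by nlinarith⟩
    ext i
    fin_cases i <;> simp [this]

lemma vec_eq (u v : ℝ) : (![u, v] : Fin 2 → ℝ) = u • ![1, 0] + v • ![0, 1] := by
  ext i; fin_cases i <;> simp

lemma speed_int (τ₀ t : ℝ) (ht : 0 ≤ t) :
    IntervalIntegrable (fun s => 1 / D.h (D.A (τ₀ + s))) volume 0 t ∧
      ∫ s in (0 : ℝ)..t, 1 / D.h (D.A (τ₀ + s)) = D.A (τ₀ + t) - D.A τ₀ := by
  obtain ⟨h1, h2⟩ := D.change_int (fun _ => 1) τ₀ (τ₀ + t) (by linarith) intervalIntegrable_const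
  constructor
  · simpa using h1.comp_add_left τ₀
  · rw [intervalIntegral.integral_comp_add_left (fun τ => 1 / D.h (D.A τ)) τ₀, add_zero, h2]
    simp

lemma speed_int' (τ₀ t : ℝ) (ht : 0 ≤ t) :
    IntervalIntegrable (fun s => deriv D.h (D.A (τ₀ + s)) / D.h (D.A (τ₀ + s))) volume 0 t ∧
      ∫ s in (0 : ℝ)..t, deriv D.h (D.A (τ₀ + s)) / D.h (D.A (τ₀ + s))
        = D.h (D.A (τ₀ + t)) - D.h (D.A τ₀) := by
  obtain ⟨h1, h2⟩ := D.change_int (deriv D.h) τ₀ (τ₀ + t) (by linarith)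
    (D.h_ac _ _).intervalIntegrable_deriv
  constructor
  · simpa using h1.comp_add_left τ₀
  · rw [intervalIntegral.integral_comp_add_left
      (fun τ => deriv D.h (D.A τ) / D.h (D.A τ)) τ₀, add_zero, h2]
    exact (D.h_ac _ _).integral_deriv_eq_sub

lemma bX_of_mem {p : Fin 2 → ℝ} (hp : p ∈ D.K) (s : ℝ) :
    D.b (D.X s p) = (1 / D.h (D.A (D.Θ (p 0) + s))) • ![1, 0] +
      (p 1 / D.h (p 0) * (deriv D.h (D.A (D.Θ (p 0) + s)) / D.h (D.A (D.Θ (p 0) + s)))) •
        ![0, 1] := by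
  obtain ⟨h0, h1⟩ := D.ratio_mem hp
  rw [X, if_pos hp, D.b_channel h0 h1, vec_eq]

lemma b_of_notMem {p : Fin 2 → ℝ} (hQ : p ∈ Set.pi univ fun _ : Fin 2 => Ico (0 : ℝ) 1)
    (hp : p ∉ D.K) : D.b p = 0 := by
  have h1 : Int.fract (p 1) = p 1 := Int.fract_eq_self.2 (hQ 1 (mem_univ _))
  rw [b, h1, if_neg (show ¬ (0 < p 1 ∧ p 1 < D.h (p 0)) from hp)]

lemma ode (T : ℝ) (hT : 0 ≤ T) (p : Fin 2 → ℝ)
    (hQ : p ∈ Set.pi univ fun _ : Fin 2 => Ico (0 : ℝ) 1) :
    IntegrableOn (fun t => D.b (D.X t p)) (Icc 0 T) ∧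
      ∀ t ∈ Icc (0 : ℝ) T, D.X t p = p + ∫ s in (0 : ℝ)..t, D.b (D.X s p) := by
  by_cases hp : p ∈ D.K
  · simp only [D.bX_of_mem hp]
    have hi : ∀ t, 0 ≤ t → IntervalIntegrable (fun s => (1 / D.h (D.A (D.Θ (p 0) + s))) •
        (![1, 0] : Fin 2 → ℝ)) volume 0 t ∧ IntervalIntegrable (fun s =>
        (p 1 / D.h (p 0) * (deriv D.h (D.A (D.Θ (p 0) + s)) / D.h (D.A (D.Θ (p 0) + s)))) •
        (![0, 1] : Fin 2 → ℝ)) volume 0 t := by
      intro t ht
      have a1 := (D.speed_int (D.Θ (p 0)) t ht).1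
      have a2 := (D.speed_int' (D.Θ (p 0)) t ht).1.const_mul (p 1 / D.h (p 0))
      exact ⟨⟨a1.1.smul_const _, a1.2.smul_const _⟩, ⟨a2.1.smul_const _, a2.2.smul_const _⟩⟩
    constructor
    · rw [← intervalIntegrable_iff_integrableOn_Icc_of_le hT]
      exact (hi T hT).1.add (hi T hT).2
    · intro t ht
      rw [intervalIntegral.integral_add (hi t ht.1).1 (hi t ht.1).2,
        intervalIntegral.integral_smul_const, intervalIntegral.integral_smul_const,
        intervalIntegral.integral_const_mul, (D.speed_int _ t ht.1).2, (D.speed_int' _ t ht.1).2,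
        X, if_pos hp, D.A_Θ]
      have : 0 < D.h (p 0) := hp.1.trans hp.2
      ext i
      fin_cases i
      · simp
      · simp; field_simp; ring
  · have hX : ∀ s, D.X s p = p := fun s => by rw [X, if_neg hp]
    simp [hX, D.b_of_notMem hQ hp]

end Data

end Pool.Agent.H148Z.Flow
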