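import Pool.Agent.H148Z.Flow2

set_option autoImplicit false

open MeasureTheory Set Filter Topology
open scoped ENNReal

namespace Pool.Agent.H148Z.Flow

lemma lint_scale (a : ℝ) (ha : 0 ≤ a) (Ψ : ℝ → ℝ≥0∞) :
    ∫⁻ y in Ioo 0 a, Ψ (y / a) = ENNReal.ofReal a * ∫⁻ s in Ioo (0 : ℝ) 1, Ψ s := by
  rcases ha.eq_or_lt with rfl | hpos
  · simp
  have himg : (fun s : ℝ => a * s) '' Ioo 0 1 = Ioo 0 a := by
    rw [image_mul_left_Ioo hpos]; simp
  have h1 := lintegral_image_eq_lintegral_abs_deriv_mul (s := Ioo (0 : ℝ) 1)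
    (f := fun s : ℝ => a * s) (f' := fun _ => a) measurableSet_Ioo
    (fun x _ => by simpa using ((hasDerivAt_id x).const_mul a).hasDerivWithinAt)
    (fun x _ y _ hxy => mul_left_cancel₀ hpos.ne' hxy) (fun y => Ψ (y / a))
  rw [himg] at h1
  rw [h1, ← lintegral_const_mul' _ _ ENNReal.ofReal_ne_top]
  refine lintegral_congr fun s => ?_
  rw [abs_of_pos hpos, mul_div_cancel_left₀ _ hpos.ne']

lemma lint_shift (L : ℝ) (hL : 0 < L) (Φ : ℝ → ℝ≥0∞) (hΦ : Function.Periodic Φ L) (t : ℝ) :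
    ∫⁻ τ in Ico 0 L, Φ (τ + t) = ∫⁻ τ in Ico 0 L, Φ τ := by
  rw [setLIntegral_congr (Ico_ae_eq_Ioc (μ := volume)), setLIntegral_congr (Ico_ae_eq_Ioc (μ := volume))]
  have h1 : ∫⁻ τ in Ioc 0 L, Φ (τ + t) = ∫⁻ τ in Ioc t (t + L), Φ τ := by
    have := (measurePreserving_add_right (volume : Measure ℝ) t).setLIntegral_comp_preimage_emb
      (measurableEmbedding_addRight t) Φ (Ioc t (t + L))
    rw [← this]
    congr 2
    ext x; simp
  rw [h1]
  have : VAddInvariantMeasure (AddSubgroup.zmultiples L) ℝ volume :=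
    ⟨fun c s _ => measure_preimage_add _ _ _⟩
  have h2 := IsAddFundamentalDomain.setLIntegral_eq (isAddFundamentalDomain_Ioc hL t)
    (isAddFundamentalDomain_Ioc hL 0) Φ hΦ.map_vadd_zmultiples
  simpa using h2

namespace Data

variable (D : Data)

/-- The unit square. -/
def Q : Set (Fin 2 → ℝ) := Set.pi univ fun _ : Fin 2 => Ico (0 : ℝ) 1

lemma Q_meas : MeasurableSet Q := MeasurableSet.univ_pi fun _ => measurableSet_Ico

lemma lint_K (H : (Fin 2 → ℝ) → ℝ≥0∞) (hH : Measurable H) :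
    ∫⁻ p in Q ∩ D.K, H p = ∫⁻ x in Ico (0 : ℝ) 1, ∫⁻ y in Ioo 0 (D.h x), H ![x, y] := by
  have hmp := (volume_preserving_finTwoArrow ℝ).symm
  have h1 := hmp.setLIntegral_comp_preimage_emb
    (MeasurableEquiv.finTwoArrow (α := ℝ)).symm.measurableEmbedding H (Q ∩ D.K)
  rw [← h1]
  have hW : MeasurableSet ((MeasurableEquiv.finTwoArrow (α := ℝ)).symm ⁻¹' (Q ∩ D.K)) :=
    (Q_meas.inter D.K_open.measurableSet).preimage (MeasurableEquiv.measurable _)
  have hH' : Measurable fun a => H ((MeasurableEquiv.finTwoArrow (α := ℝ)).symm a) :=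
    hH.comp (MeasurableEquiv.measurable _)
  rw [← lintegral_indicator hW, Measure.volume_eq_prod, lintegral_prod _
    (hH'.indicator hW).aemeasurable, ← lintegral_indicator measurableSet_Ico]
  refine lintegral_congr fun x => ?_
  have he : ∀ y, (MeasurableEquiv.finTwoArrow (α := ℝ)).symm (x, y) = ![x, y] := fun y => rfl
  by_cases hx : x ∈ Ico (0 : ℝ) 1
  · rw [indicator_of_mem hx, ← lintegral_indicator measurableSet_Ioo]
    refine lintegral_congr fun y => ?_
    by_cases hy : y ∈ Ioo 0 (D.h x)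
    · rw [indicator_of_mem hy, indicator_of_mem]
      · rfl
      · rw [mem_preimage, he]
        refine ⟨fun i _ => ?_, hy⟩
        fin_cases i
        · exact hx
        · exact ⟨hy.1.le, hy.2.trans (D.h_lt_one x)⟩
    · rw [indicator_of_notMem hy, indicator_of_notMem]
      rw [mem_preimage, he]
      exact fun hh => hy hh.2
  · rw [indicator_of_notMem hx]
    have : ∀ y, indicator ((MeasurableEquiv.finTwoArrow (α := ℝ)).symm ⁻¹' (Q ∩ D.K))
        (fun z => H ((MeasurableEquiv.finTwoArrow (α := ℝ)).symm z)) (x, y) = 0 := by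
      intro y
      rw [indicator_of_notMem]
      rw [mem_preimage, he]
      exact fun hh => hx (hh.1 0 (mem_univ _))
    simp only [this, lintegral_zero]

lemma frX_meas (t : ℝ) : Measurable fun (x : Fin 2 → ℝ) (i : Fin 2) => Int.fract (D.X t x i) := by
  have h1 : Measurable (D.X t) := D.X_meas.comp (measurable_const.prodMk measurable_id)
  exact measurable_pi_iff.2 fun i => measurable_fract.comp ((measurable_pi_apply i).comp h1)

lemma Θ_image : D.Θ '' Ico 0 1 = Ico 0 D.L := by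
  have h1 : D.Θ 1 = D.L := by simpa [D.Θ_zero] using D.Θ_per 0
  ext τ
  constructor
  · rintro ⟨x, hx, rfl⟩
    exact ⟨D.Θ_zero ▸ D.Θ_mono.monotone hx.1, h1 ▸ D.Θ_mono hx.2⟩
  · intro hτ
    refine ⟨D.A τ, ⟨?_, ?_⟩, D.Θ_A τ⟩
    · have := D.A_mono.monotone hτ.1
      rwa [← D.Θ_zero, D.A_Θ] at this
    · have := D.A_mono hτ.2
      rwa [← h1, D.A_Θ] at this

lemma lint_K_X (G : (Fin 2 → ℝ) → ℝ≥0∞) (hG : Measurable G) (t : ℝ) :
    ∫⁻ p in Q ∩ D.K, G (fun i => Int.fract (D.X t p i)) =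
      ∫⁻ τ in Ico 0 D.L, ∫⁻ s in Ioo (0 : ℝ) 1, G ![Int.fract (D.A τ), s * D.h (D.A τ)] := by
  set Φ : ℝ → ℝ≥0∞ := fun τ => ∫⁻ s in Ioo (0 : ℝ) 1, G ![Int.fract (D.A τ), s * D.h (D.A τ)]
    with hΦ
  have hper : Function.Periodic Φ D.L := by
    intro τ
    simp only [hΦ, D.A_per, D.h_per, Int.fract_add_one]
  have hG' : Measurable fun p => G (fun i => Int.fract (D.X t p i)) := hG.comp (D.frX_meas t)
  rw [D.lint_K _ hG', ← lint_shift D.L D.L_pos Φ hper t, ← D.Θ_image,
    lintegral_image_eq_lintegral_abs_deriv_mul measurableSet_Ico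
      (fun x _ => (D.Θ_deriv x).hasDerivWithinAt) D.Θ_mono.injective.injOn]
  refine lintegral_congr fun x => ?_
  rw [abs_of_nonneg Metric.infDist_nonneg]
  have := lint_scale (D.h x) (D.h_nonneg x)
    (fun s => G ![Int.fract (D.A (D.Θ x + t)), s * D.h (D.A (D.Θ x + t))])
  rw [show Metric.infDist x D.S = D.h x from rfl, hΦ, ← this]
  refine setLIntegral_congr_fun measurableSet_Ioo fun y hy => ?_
  have hp : (![x, y] : Fin 2 → ℝ) ∈ D.K := hy
  obtain ⟨h0, h1⟩ := D.ratio_mem hp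
  simp only [X, if_pos hp]
  congr 1
  ext i
  fin_cases i
  · simp
  · simpa using D.fract_ratio h0 h1 _

lemma mp (t : ℝ) : Measure.map (fun (x : Fin 2 → ℝ) (i : Fin 2) => Int.fract (D.X t x i))
    (volume.restrict Q) = volume.restrict Q := by
  refine Measure.ext_of_lintegral _ fun G hG => ?_
  rw [lintegral_map hG (D.frX_meas t)]
  have key : ∀ t, ∫⁻ p in Q, G (fun i => Int.fract (D.X t p i)) =
      (∫⁻ τ in Ico 0 D.L, ∫⁻ s in Ioo (0 : ℝ) 1, G ![Int.fract (D.A τ), s * D.h (D.A τ)]) +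
        ∫⁻ p in Q \ D.K, G (fun i => Int.fract (p i)) := by
    intro t
    rw [← lintegral_inter_add_sdiff _ Q D.K_open.measurableSet, D.lint_K_X G hG t]
    congr 1
    refine setLIntegral_congr_fun (Q_meas.diff D.K_open.measurableSet) fun p hp => ?_
    simp only [X, if_neg hp.2]
  rw [key t, ← key 0]
  refine setLIntegral_congr_fun Q_meas fun p hp => ?_
  simp only [D.X_zero]
  congr 1
  ext i
  exact Int.fract_eq_self.2 (hp i (mem_univ _))

lemma K_pos : (volume.restrict Q) D.K ≠ 0 := by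
  obtain ⟨x, hx1, hx2⟩ : ∃ x ∈ Ioo (0 : ℝ) 1, 0 < D.h x := by
    have := Measure.exists_mem_of_measure_ne_zero_of_ae (μ := volume) (s := Ioo (0 : ℝ) 1)
      (by simp) (ae_restrict_of_ae D.h_ae_pos)
    exact this
  rw [Measure.restrict_apply D.K_open.measurableSet]
  have hO : IsOpen (D.K ∩ Set.pi univ fun _ : Fin 2 => Ioo (0 : ℝ) 1) :=
    D.K_open.inter (isOpen_set_pi finite_univ fun _ _ => isOpen_Ioo)
  have hne : (D.K ∩ Set.pi univ fun _ : Fin 2 => Ioo (0 : ℝ) 1).Nonempty := by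
    refine ⟨![x, D.h x / 2], ⟨?_, ?_⟩, fun i _ => ?_⟩
    · simpa using hx2
    · simpa using hx2
    · fin_cases i
      · exact hx1
      · have := D.h_lt_one x
        exact ⟨by simpa using hx2, by simp; linarith⟩
  refine ((hO.measure_pos volume hne).trans_le (measure_mono ?_)).ne'
  exact inter_subset_inter_right _ (pi_mono fun _ _ => Ioo_subset_Ico_self)

end Data

end Pool.Agent.H148Z.Flow
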