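import Mathlib

set_option autoImplicit false

open MeasureTheory Set Filter Topology

namespace Pool.Agent.H148Z.Flow

lemma line_zero {α : Type} [MeasurableSpace α] (μ : Measure α) [SFinite μ] (G G' : α × ℝ → ℝ)
    (hi : Integrable G' (μ.prod volume)) (R : ℝ) (s : Set ℝ) (hs : s.Countable)
    (hsupp : ∀ a y, R ≤ |y| → G (a, y) = 0 ∧ G' (a, y) = 0)
    (h : ∀ᵐ a ∂μ, Continuous (fun y => G (a, y)) ∧
      ∀ y ∉ s, HasDerivAt (fun y => G (a, y)) (G' (a, y)) y) :
    ∫ z, G' z ∂(μ.prod volume) = 0 := by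
  rw [integral_prod _ hi]
  refine integral_eq_zero_of_ae ?_
  filter_upwards [h, hi.prod_right_ae] with a ha hia
  have h1 := integral_eq_of_hasDerivAt_off_countable (fun y => G (a, y)) (fun y => G' (a, y))
    (a := -R) (b := R) hs ha.1.continuousOn (fun y hy => ha.2 y hy.2) hia.intervalIntegrable
  have h2 : ∫ y in -R..R, G' (a, y) = ∫ y, G' (a, y) := by
    refine intervalIntegral.integral_eq_integral_of_support_subset fun y hy => ?_
    by_contra hy'
    refine hy (hsupp a y ?_).2
    simp only [mem_Ioc, not_and_or, not_lt, not_le] at hy'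
    rcases hy' with h3 | h3
    · exact le_trans (by linarith) (neg_le_abs y)
    · exact le_trans h3.le (le_abs_self y)
  simp only [Pi.zero_apply]
  rw [← h2, h1, (hsupp a R (le_abs_self R)).1, (hsupp a (-R) (by rw [abs_neg]; exact le_abs_self R)).1,
    sub_zero]

/-- Space-time. -/
abbrev ST := ℝ × (Fin 2 → ℝ)

lemma ibp {α : Type} [MeasurableSpace α] (μ : Measure α) [SFinite μ] (e : α × ℝ ≃ᵐ ST)
    (he : MeasurePreserving e (μ.prod volume) volume) (v : ST)
    (hv : ∀ a y, HasDerivAt (fun y => e (a, y)) v y) (hnorm : ∀ a y, |y| ≤ ‖e (a, y)‖)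
    (u u' : ST → ℝ) (hu : Continuous u) (hu' : ∀ K : Set ST, IsCompact K → IntegrableOn u' K)
    (s : Set ℝ) (hs : s.Countable)
    (hd : ∀ᵐ a ∂μ, ∀ y ∉ s, HasDerivAt (fun y => u (e (a, y))) (u' (e (a, y))) y)
    (φ : ST → ℝ) (hφ : ContDiff ℝ 1 φ) (hc : HasCompactSupport φ) :
    ∫ p, fderiv ℝ φ p v * u p = - ∫ p, φ p * u' p := by
  have hφd : Differentiable ℝ φ := hφ.differentiable one_ne_zero
  have hfc : Continuous fun p => fderiv ℝ φ p v :=
    (hφ.continuous_fderiv one_ne_zero).clm_apply continuous_const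
  have hfs : HasCompactSupport fun p => fderiv ℝ φ p v := hc.fderiv_apply ℝ v
  have i1 : Integrable fun p => fderiv ℝ φ p v * u p :=
    (hfc.mul hu).integrable_of_hasCompactSupport hfs.mul_right
  have i2 : Integrable fun p => φ p * u' p := by
    have := (hu' _ hc).continuousOn_mul hφ.continuous.continuousOn hc
    refine (integrableOn_iff_integrable_of_support_subset ?_).1 this
    exact (Function.support_mul_subset_left _ _).trans (subset_tsupport φ)
  rw [eq_neg_iff_add_eq_zero, ← integral_add i1 i2]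
  have i3 : Integrable fun p => fderiv ℝ φ p v * u p + φ p * u' p := i1.add i2
  rw [← he.integral_comp' (fun p => fderiv ℝ φ p v * u p + φ p * u' p)]
  obtain ⟨R, -, hR⟩ := hc.isBounded.subset_ball_lt 0 0
  refine line_zero μ (fun z => φ (e z) * u (e z)) _
    ((he.integrable_comp_emb e.measurableEmbedding).2 i3) R s hs ?_ ?_
  · intro a y hy
    have hn : e (a, y) ∉ tsupport φ := by
      intro hm
      have := mem_ball_zero_iff.1 (hR hm)
      linarith [hnorm a y]
    have h1 : φ (e (a, y)) = 0 := image_eq_zero_of_notMem_tsupport hn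
    have h2 : fderiv ℝ φ (e (a, y)) = 0 := by
      by_contra hne
      exact hn (support_fderiv_subset ℝ hne)
    simp [h1, h2]
  · filter_upwards [hd] with a ha
    have hec : Continuous fun y => e (a, y) :=
      continuous_iff_continuousAt.2 fun y => (hv a y).continuousAt
    refine ⟨(hφ.continuous.comp hec).mul (hu.comp hec), fun y hy => ?_⟩
    have h1 : HasDerivAt (fun y => φ (e (a, y))) (fderiv ℝ φ (e (a, y)) v) y :=
      (hφd (e (a, y))).hasFDerivAt.comp_hasDerivAt y (hv a y)
    exact h1.mul (ha y hy)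

/-- Coordinates in which the last variable is time. -/
def eT : (Fin 2 → ℝ) × ℝ ≃ᵐ ST := MeasurableEquiv.prodComm

/-- Coordinates in which the last variable is the second space variable. -/
noncomputable def eY : (ℝ × ℝ) × ℝ ≃ᵐ ST :=
  MeasurableEquiv.prodAssoc.trans
    (MeasurableEquiv.prodCongr (MeasurableEquiv.refl ℝ) (MeasurableEquiv.finTwoArrow (α := ℝ)).symm)

/-- Coordinates in which the last variable is the first space variable. -/
noncomputable def eX : (ℝ × ℝ) × ℝ ≃ᵐ ST :=
  MeasurableEquiv.prodAssoc.trans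
    (MeasurableEquiv.prodCongr (MeasurableEquiv.refl ℝ)
      (MeasurableEquiv.prodComm.trans (MeasurableEquiv.finTwoArrow (α := ℝ)).symm))

lemma eT_apply (a : Fin 2 → ℝ) (y : ℝ) : eT (a, y) = (y, a) := rfl
lemma eY_apply (a : ℝ × ℝ) (y : ℝ) : eY (a, y) = (a.1, ![a.2, y]) := rfl
lemma eX_apply (a : ℝ × ℝ) (y : ℝ) : eX (a, y) = (a.1, ![y, a.2]) := rfl

lemma eT_mp : MeasurePreserving eT ((volume : Measure (Fin 2 → ℝ)).prod volume) volume :=
  Measure.measurePreserving_swap

lemma eY_mp : MeasurePreserving eY ((volume : Measure (ℝ × ℝ)).prod volume) volume := by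
  have h1 := (MeasurePreserving.id (volume : Measure ℝ)).prod (volume_preserving_finTwoArrow ℝ).symm
  exact h1.comp (measurePreserving_prodAssoc volume volume volume)

lemma eX_mp : MeasurePreserving eX ((volume : Measure (ℝ × ℝ)).prod volume) volume := by
  have h0 : MeasurePreserving (Prod.swap : ℝ × ℝ → ℝ × ℝ) volume volume :=
    Measure.measurePreserving_swap
  have h1 := (MeasurePreserving.id (volume : Measure ℝ)).prod
    ((volume_preserving_finTwoArrow ℝ).symm.comp h0)
  exact h1.comp (measurePreserving_prodAssoc volume volume volume)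

lemma eT_deriv (a : Fin 2 → ℝ) (y : ℝ) :
    HasDerivAt (fun y => eT (a, y)) ((1 : ℝ), (0 : Fin 2 → ℝ)) y :=
  (hasDerivAt_id y).prodMk (hasDerivAt_const y a)

lemma eY_deriv (a : ℝ × ℝ) (y : ℝ) :
    HasDerivAt (fun y => eY (a, y)) ((0 : ℝ), (Pi.single 1 (1 : ℝ) : Fin 2 → ℝ)) y := by
  refine (hasDerivAt_const y a.1).prodMk (hasDerivAt_pi.2 fun i => ?_)
  fin_cases i
  · exact hasDerivAt_const y a.2
  · exact hasDerivAt_id' y

lemma eX_deriv (a : ℝ × ℝ) (y : ℝ) :
    HasDerivAt (fun y => eX (a, y)) ((0 : ℝ), (Pi.single 0 (1 : ℝ) : Fin 2 → ℝ)) y := by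
  refine (hasDerivAt_const y a.1).prodMk (hasDerivAt_pi.2 fun i => ?_)
  fin_cases i
  · exact hasDerivAt_id' y
  · exact hasDerivAt_const y a.2

lemma eT_norm (a : Fin 2 → ℝ) (y : ℝ) : |y| ≤ ‖eT (a, y)‖ := norm_fst_le (eT (a, y))

lemma eY_norm (a : ℝ × ℝ) (y : ℝ) : |y| ≤ ‖eY (a, y)‖ :=
  (norm_le_pi_norm (![a.2, y] : Fin 2 → ℝ) 1).trans (norm_snd_le (eY (a, y)))

lemma eX_norm (a : ℝ × ℝ) (y : ℝ) : |y| ≤ ‖eX (a, y)‖ :=
  (norm_le_pi_norm (![y, a.2] : Fin 2 → ℝ) 0).trans (norm_snd_le (eX (a, y)))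

/-- The averaging radius. -/
noncomputable def rho (y : ℝ) : ℝ := (1 - Real.cos (2 * Real.pi * y)) / 20

/-- Its derivative. -/
noncomputable def rho' (y : ℝ) : ℝ := 2 * Real.pi * Real.sin (2 * Real.pi * y) / 20

lemma rho_deriv (y : ℝ) : HasDerivAt rho (rho' y) y := by
  have h1 : HasDerivAt (fun y : ℝ => 2 * Real.pi * y) (2 * Real.pi) y := by
    simpa using (hasDerivAt_id y).const_mul (2 * Real.pi)
  have h2 := (h1.cos.const_sub 1).div_const 20
  refine h2.congr_deriv ?_
  unfold rho'; ring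

lemma rho_cont : Continuous rho := continuous_iff_continuousAt.2 fun y => (rho_deriv y).continuousAt

lemma rho'_cont : Continuous rho' := by unfold rho'; fun_prop

lemma rho_nonneg (y : ℝ) : 0 ≤ rho y := by
  unfold rho; linarith [Real.cos_le_one (2 * Real.pi * y)]

lemma rho_le_one (y : ℝ) : rho y ≤ 1 := by
  unfold rho; linarith [Real.neg_one_le_cos (2 * Real.pi * y)]

lemma rho'_abs (y : ℝ) : |rho' y| ≤ 1 := by
  unfold rho'
  have h1 := Real.abs_sin_le_one (2 * Real.pi * y)
  have h2 := Real.pi_pos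
  have h3 := Real.pi_le_four
  rw [abs_div, abs_mul, abs_of_pos (by positivity : 0 < 2 * Real.pi)]
  rw [div_le_one (by norm_num)]
  norm_num
  nlinarith [abs_nonneg (Real.sin (2 * Real.pi * y))]

lemma rho_int (y : ℝ) (k : ℤ) : rho (y + k) = rho y := by
  unfold rho
  rw [show 2 * Real.pi * (y + k) = 2 * Real.pi * y + k * (2 * Real.pi) by ring,
    Real.cos_add_int_mul_two_pi]

lemma rho_le (y : ℝ) (h0 : 0 ≤ y) (h1 : y ≤ 1) : rho y ≤ y := by
  unfold rho
  have h2 := Real.one_sub_sq_div_two_le_cos (x := 2 * Real.pi * y)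
  have h3 := Real.pi_lt_d2
  have h4 := Real.pi_pos
  have h5 : Real.pi ^ 2 ≤ 10 := by nlinarith
  have h6 : y ^ 2 ≤ y := by nlinarith
  have h7 : (2 * Real.pi * y) ^ 2 = 4 * (Real.pi ^ 2 * y ^ 2) := by ring
  have h8 : Real.pi ^ 2 * y ^ 2 ≤ 10 * y := by nlinarith [sq_nonneg y]
  linarith

lemma rho_zero {y : ℝ} (h : rho y = 0) : y ∈ range (Int.cast : ℤ → ℝ) := by
  unfold rho at h
  have h1 : Real.cos (2 * Real.pi * y) = 1 := by linarith
  obtain ⟨n, hn⟩ := (Real.cos_eq_one_iff _).1 h1
  refine ⟨n, ?_⟩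
  have h2 : (2 * Real.pi) ≠ 0 := by have := Real.pi_pos; positivity
  apply mul_right_cancel₀ h2
  linarith

lemma rho_pos {y : ℝ} (h0 : 0 < y) (h1 : y < 1) : 0 < rho y := by
  refine lt_of_le_of_ne (rho_nonneg y) fun h => ?_
  obtain ⟨n, rfl⟩ := rho_zero h.symm
  have a1 : (0 : ℤ) < n := by exact_mod_cast h0
  have a2 : n < (1 : ℤ) := by exact_mod_cast h1
  omega

section avg

variable (c : ℝ → ℝ)

/-- Symmetric average. -/
noncomputable def avg (x r : ℝ) : ℝ := (∫ v in (-1 : ℝ)..1, c (x + r * v)) / 2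

/-- Symmetric difference quotient. -/
noncomputable def quo (x r : ℝ) : ℝ := (c (x + r) - c (x - r)) / (2 * r)

/-- Radial derivative of the average. -/
noncomputable def rad (x r : ℝ) : ℝ := ((c (x + r) + c (x - r)) / 2 - avg c x r) / r

variable {c}

lemma avg_cont (hc : Continuous c) : Continuous fun z : ℝ × ℝ => avg c z.1 z.2 := by
  unfold avg
  refine Continuous.div_const ?_ 2
  refine intervalIntegral.continuous_parametric_intervalIntegral_of_continuous' ?_ _ _
  exact hc.comp (by fun_prop)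

lemma avg_eq (hc : Continuous c) (x r : ℝ) (hr : r ≠ 0) :
    avg c x r = ((∫ u in (0 : ℝ)..x + r, c u) - ∫ u in (0 : ℝ)..x - r, c u) / (2 * r) := by
  unfold avg
  rw [intervalIntegral.integral_comp_add_mul c hr x,
    intervalIntegral.integral_interval_sub_left (hc.intervalIntegrable _ _)
      (hc.intervalIntegrable _ _)]
  simp only [mul_neg, mul_one, smul_eq_mul, ← sub_eq_add_neg]
  field_simp

lemma avg_deriv_x (hc : Continuous c) (x r : ℝ) (hr : r ≠ 0) :
    HasDerivAt (fun x => avg c x r) (quo c x r) x := by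
  have hC : ∀ u, HasDerivAt (fun w => ∫ u in (0 : ℝ)..w, c u) (c u) u := fun u =>
    (hc.integral_hasStrictDerivAt 0 u).hasDerivAt
  simp only [avg_eq hc _ r hr]
  exact (((hC (x + r)).comp_add_const x r).sub ((hC (x - r)).comp_sub_const x r)).div_const _

lemma avg_deriv_r (hc : Continuous c) (x r : ℝ) (hr : r ≠ 0) :
    HasDerivAt (fun r => avg c x r) (rad c x r) r := by
  have hC : ∀ u, HasDerivAt (fun w => ∫ u in (0 : ℝ)..w, c u) (c u) u := fun u =>
    (hc.integral_hasStrictDerivAt 0 u).hasDerivAt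
  have h1 := (((hC (x + r)).comp_const_add x r).sub ((hC (x - r)).comp_const_sub x r)).div
    ((hasDerivAt_id r).const_mul 2) (by simpa using hr)
  have h2 : (fun r => avg c x r) =ᶠ[𝓝 r] fun r =>
      ((∫ u in (0 : ℝ)..x + r, c u) - ∫ u in (0 : ℝ)..x - r, c u) / (2 * r) := by
    filter_upwards [isOpen_ne.mem_nhds hr] with r' hr' using avg_eq hc x r' hr'
  refine (HasDerivAt.congr_of_eventuallyEq h1 h2).congr_deriv ?_
  simp only [rad, avg_eq hc x r hr, Pi.sub_apply, id]
  field_simp
  ring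

lemma avg_mem (hc : Continuous c) (hm : Monotone c) (x r : ℝ) (hr : 0 ≤ r) :
    c (x - r) ≤ avg c x r ∧ avg c x r ≤ c (x + r) := by
  have hi : IntervalIntegrable (fun v => c (x + r * v)) volume (-1) 1 :=
    (hc.comp (by fun_prop)).intervalIntegrable _ _
  unfold avg
  constructor
  · have := intervalIntegral.integral_mono_on (by norm_num : (-1 : ℝ) ≤ 1)
      (intervalIntegrable_const (c := c (x - r))) hi
      (fun v hv => hm (by nlinarith [hv.1]))
    simp at this
    linarith
  · have := intervalIntegral.integral_mono_on (by norm_num : (-1 : ℝ) ≤ 1) hi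
      (intervalIntegrable_const (c := c (x + r)))
      (fun v hv => hm (by nlinarith [hv.2]))
    simp at this
    linarith

lemma quo_nonneg (hm : Monotone c) (x r : ℝ) (hr : 0 ≤ r) : 0 ≤ quo c x r :=
  div_nonneg (sub_nonneg.2 (hm (by linarith))) (by linarith)

lemma rad_abs (hc : Continuous c) (hm : Monotone c) (x r : ℝ) (hr : 0 ≤ r) :
    |rad c x r| ≤ quo c x r := by
  rcases hr.eq_or_lt with rfl | hpos
  · simp [rad, quo]
  obtain ⟨h1, h2⟩ := avg_mem hc hm x r hr
  unfold rad quo
  rw [abs_div, abs_of_pos hpos, ← div_div]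
  refine div_le_div_of_nonneg_right (abs_le.2 ⟨by linarith, by linarith⟩) hr

lemma quo_meas (hc : Continuous c) : Measurable fun z : ℝ × ℝ => quo c z.1 z.2 := by
  unfold quo
  refine Measurable.div (Continuous.measurable ?_) (by fun_prop)
  exact (hc.comp (by fun_prop)).sub (hc.comp (by fun_prop))

lemma rad_meas (hc : Continuous c) : Measurable fun z : ℝ × ℝ => rad c z.1 z.2 := by
  unfold rad
  refine Measurable.div (Continuous.measurable ?_) (by fun_prop)
  exact (((hc.comp (by fun_prop)).add (hc.comp (by fun_prop))).div_const 2).sub (avg_cont hc)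

lemma quo_integrableOn (hc : Continuous c) (hm : Monotone c) (R : ℝ) :
    IntegrableOn (fun z : ℝ × ℝ => quo c z.1 (rho z.2)) (Icc (-R) R ×ˢ Icc (-R) R) := by
  rcases lt_or_ge R 0 with hR | hR
  · rw [Icc_eq_empty (by linarith)]; simp
  have hmeas : Measurable fun z : ℝ × ℝ => quo c z.1 (rho z.2) :=
    (quo_meas hc).comp (measurable_fst.prodMk (rho_cont.measurable.comp measurable_snd))
  have hqc : ∀ r, Continuous fun x => quo c x r := fun r => by
    unfold quo
    exact ((hc.comp (by fun_prop)).sub (hc.comp (by fun_prop))).div_const _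
  rw [IntegrableOn, Measure.volume_eq_prod, ← Measure.prod_restrict,
    integrable_prod_iff' hmeas.aestronglyMeasurable]
  refine ⟨Eventually.of_forall fun y => (hqc (rho y)).integrableOn_Icc, ?_⟩
  refine Integrable.of_bound (hmeas.stronglyMeasurable.norm.integral_prod_left').aestronglyMeasurable
    (c (R + 1) - c (-R - 1)) (Eventually.of_forall fun y => ?_)
  rw [Real.norm_of_nonneg (integral_nonneg fun x => norm_nonneg _)]
  have h0 : c (-R - 1) ≤ c (R + 1) := hm (by linarith)
  simp only [Real.norm_of_nonneg (quo_nonneg hm _ _ (rho_nonneg y))]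
  rcases (rho_nonneg y).eq_or_lt with h | h
  · simp [quo, ← h, h0]
  rw [integral_Icc_eq_integral_Ioc, ← intervalIntegral.integral_of_le (by linarith),
    intervalIntegral.integral_eq_sub_of_hasDerivAt (fun x _ => avg_deriv_x hc x _ h.ne')
      ((hqc _).intervalIntegrable _ _)]
  have h1 := (avg_mem hc hm R _ h.le).2
  have h2 := (avg_mem hc hm (-R) _ h.le).1
  have h3 : c (R + rho y) ≤ c (R + 1) := hm (by linarith [rho_le_one y])
  have h4 : c (-R - 1) ≤ c (-R - rho y) := hm (by linarith [rho_le_one y])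
  linarith

lemma quo_integrableOn' (hc : Continuous c) (hm : Monotone c) (R : ℝ) (s : Set ℝ)
    (hs : volume s ≠ ⊤) :
    IntegrableOn (fun z : ST => quo c (z.2 0) (rho (z.2 1))) (s ×ˢ Metric.closedBall 0 R) := by
  have h1 := ((volume_preserving_finTwoArrow ℝ).integrableOn_comp_preimage
    (MeasurableEquiv.finTwoArrow (α := ℝ)).measurableEmbedding).2 (quo_integrableOn hc hm R)
  have h2 : IntegrableOn (fun p : Fin 2 → ℝ => quo c (p 0) (rho (p 1)))
      (Metric.closedBall 0 R) := by
    refine IntegrableOn.mono_set h1 fun p hp => ?_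
    have := mem_closedBall_zero_iff.1 hp
    exact ⟨abs_le.1 ((norm_le_pi_norm p 0).trans this), abs_le.1 ((norm_le_pi_norm p 1).trans this)⟩
  rw [IntegrableOn, Measure.volume_eq_prod, ← Measure.prod_restrict]
  have : IsFiniteMeasure (volume.restrict s) := isFiniteMeasure_restrict.2 hs
  exact Integrable.comp_snd h2 _

end avg

end Pool.Agent.H148Z.Flow
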