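import Pool.Agent.H148Z.Flow3
import Pool.Agent.H148Z.Flow4

set_option autoImplicit false

open MeasureTheory Set Filter Topology

namespace Pool.Agent.H148Z.Flow

namespace Data

variable (D : Data)

/-- The scalar Sobolev function. -/
noncomputable def F (p : Fin 2 → ℝ) : ℝ := avg D.c (p 0) (rho (p 1)) - D.κ * p 0

/-- Its first partial derivative. -/
noncomputable def Fx (p : Fin 2 → ℝ) : ℝ := quo D.c (p 0) (rho (p 1)) - D.κ

/-- Its second partial derivative. -/
noncomputable def Fy (p : Fin 2 → ℝ) : ℝ := rho' (p 1) * rad D.c (p 0) (rho (p 1))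

lemma coord_cont : Continuous fun p : Fin 2 → ℝ => ((p 0, rho (p 1)) : ℝ × ℝ) :=
  (continuous_apply 0).prodMk (rho_cont.comp (continuous_apply 1))

lemma F_cont : Continuous D.F := by
  unfold F
  refine Continuous.sub ?_ (by fun_prop)
  exact (avg_cont D.c_cont).comp coord_cont

lemma Fx_meas : Measurable D.Fx := by
  unfold Fx
  refine Measurable.sub ?_ measurable_const
  exact (quo_meas D.c_cont).comp coord_cont.measurable

lemma Fy_meas : Measurable D.Fy := by
  unfold Fy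
  refine Measurable.mul (rho'_cont.measurable.comp (measurable_pi_apply 1)) ?_
  exact (rad_meas D.c_cont).comp coord_cont.measurable

lemma avg_per (r : ℝ) : Function.Periodic (fun x => avg D.c x r - D.κ * x) 1 := by
  intro x
  have hi : IntervalIntegrable (fun v => D.c (x + r * v)) volume (-1) 1 :=
    (D.c_cont.comp (by fun_prop)).intervalIntegrable _ _
  have h1 : ∀ v, D.c (x + 1 + r * v) = D.c (x + r * v) + D.κ := fun v => by
    rw [← D.c_per]; congr 1; ring
  simp only [avg, h1]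
  rw [intervalIntegral.integral_add hi intervalIntegrable_const]
  simp
  ring

lemma F_per (x : Fin 2 → ℝ) (k : Fin 2 → ℤ) : D.F (x + fun i => (k i : ℝ)) = D.F x := by
  have := (D.avg_per (rho (x 1))).int_mul (k 0) (x 0)
  simp only [mul_one] at this
  simp only [F, Pi.add_apply, rho_int]
  exact this

lemma Fx_int (R : ℝ) (s : Set ℝ) (hs : volume s ≠ ⊤) :
    IntegrableOn (fun z : ST => D.Fx z.2) (s ×ˢ Metric.closedBall 0 R) := by
  refine (quo_integrableOn' D.c_cont D.c_mono R s hs).sub (integrableOn_const ?_ (by simp))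
  rw [Measure.volume_eq_prod, Measure.prod_prod]
  exact ENNReal.mul_ne_top hs measure_closedBall_lt_top.ne

lemma Fy_int (R : ℝ) (s : Set ℝ) (hs : volume s ≠ ⊤) :
    IntegrableOn (fun z : ST => D.Fy z.2) (s ×ˢ Metric.closedBall 0 R) := by
  refine Integrable.mono' (quo_integrableOn' D.c_cont D.c_mono R s hs)
    (D.Fy_meas.comp measurable_snd).aestronglyMeasurable (Eventually.of_forall fun z => ?_)
  rw [Real.norm_eq_abs, Fy, abs_mul]
  have h1 := rad_abs D.c_cont D.c_mono (z.2 0) _ (rho_nonneg (z.2 1))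
  have h2 := rho'_abs (z.2 1)
  nlinarith [abs_nonneg (rad D.c (z.2 0) (rho (z.2 1))), abs_nonneg (rho' (z.2 1))]

lemma compact_box (K : Set ST) (hK : IsCompact K) :
    ∃ R, K ⊆ Metric.closedBall (0 : ℝ) R ×ˢ Metric.closedBall (0 : Fin 2 → ℝ) R := by
  obtain ⟨R, hR⟩ := hK.isBounded.subset_closedBall 0
  exact ⟨R, by rw [closedBall_prod_same]; exact hR⟩

lemma ibp_t (φ : ST → ℝ) (hφ : ContDiff ℝ 1 φ) (hc : HasCompactSupport φ) :
    ∫ p : ST, fderiv ℝ φ p ((1 : ℝ), (0 : Fin 2 → ℝ)) * D.F p.2 = 0 := by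
  have := ibp volume eT eT_mp _ eT_deriv eT_norm (fun p => D.F p.2) (fun _ => 0)
    (D.F_cont.comp continuous_snd) (fun _ _ => integrableOn_zero) ∅ countable_empty
    (Eventually.of_forall fun a y _ => hasDerivAt_const y (D.F a)) φ hφ hc
  simpa using this

lemma ibp_x (φ : ST → ℝ) (hφ : ContDiff ℝ 1 φ) (hc : HasCompactSupport φ) :
    ∫ p : ST, fderiv ℝ φ p ((0 : ℝ), (Pi.single 0 (1 : ℝ) : Fin 2 → ℝ)) * D.F p.2
      = - ∫ p : ST, φ p * D.Fx p.2 := by
  refine ibp volume eX eX_mp _ eX_deriv eX_norm (fun p => D.F p.2) (fun p => D.Fx p.2)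
    (D.F_cont.comp continuous_snd) (fun K hK => ?_) ∅ countable_empty ?_ φ hφ hc
  · obtain ⟨R, hR⟩ := compact_box K hK
    exact (D.Fx_int R _ measure_closedBall_lt_top.ne).mono_set hR
  · have h0 : ∀ᵐ y ∂(volume : Measure ℝ), y ∉ range (Int.cast : ℤ → ℝ) :=
      measure_eq_zero_iff_ae_notMem.1 ((countable_range _).measure_zero _)
    have h1 : ∀ᵐ a ∂(volume : Measure (ℝ × ℝ)), a.2 ∉ range (Int.cast : ℤ → ℝ) :=
      Measure.quasiMeasurePreserving_snd.ae h0
    filter_upwards [h1] with a ha x _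
    have h2 : rho a.2 ≠ 0 := fun h => ha (rho_zero h)
    have h3 := (avg_deriv_x D.c_cont x _ h2).sub ((hasDerivAt_id' x).const_mul D.κ)
    rw [mul_one] at h3
    exact h3

lemma ibp_y (φ : ST → ℝ) (hφ : ContDiff ℝ 1 φ) (hc : HasCompactSupport φ) :
    ∫ p : ST, fderiv ℝ φ p ((0 : ℝ), (Pi.single 1 (1 : ℝ) : Fin 2 → ℝ)) * D.F p.2
      = - ∫ p : ST, φ p * D.Fy p.2 := by
  refine ibp volume eY eY_mp _ eY_deriv eY_norm (fun p => D.F p.2) (fun p => D.Fy p.2)
    (D.F_cont.comp continuous_snd) (fun K hK => ?_) (range (Int.cast : ℤ → ℝ))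
    (countable_range _) ?_ φ hφ hc
  · obtain ⟨R, hR⟩ := compact_box K hK
    exact (D.Fy_int R _ measure_closedBall_lt_top.ne).mono_set hR
  · refine Eventually.of_forall fun a y hy => ?_
    have h2 : rho y ≠ 0 := fun h => hy (rho_zero h)
    have h3 := ((avg_deriv_r D.c_cont a.2 _ h2).comp y (rho_deriv y)).sub_const (D.κ * a.2)
    rw [mul_comm (rad D.c a.2 (rho y))] at h3
    exact h3

lemma c_near {x x' : ℝ} (hx : |x' - x| < D.h x) : D.c x' = D.c x := by
  have key : ∀ a b, a ≤ b → (∀ z ∈ Icc a b, |z - x| ≤ |x' - x|) → D.c b = D.c a := by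
    intro a b hab hz
    refine D.c_const a b hab (disjoint_left.2 fun z hz1 hz2 => ?_)
    have h1 : D.h x ≤ dist x z := Metric.infDist_le_dist_of_mem hz2
    rw [dist_comm, Real.dist_eq] at h1
    linarith [hz z hz1]
  rcases le_total x x' with h | h
  · refine key x x' h fun z hz => ?_
    rw [abs_of_nonneg (by linarith [hz.1]), abs_of_nonneg (by linarith)]
    linarith [hz.2]
  · refine (key x' x h fun z hz => ?_).symm
    rw [abs_of_nonpos (by linarith [hz.2]), abs_of_nonpos (by linarith)]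
    linarith [hz.1]

lemma c_channel {σ : ℝ} (h0 : 0 < σ) (h1 : σ < 1) (x : ℝ) :
    D.c (x + rho (σ * D.h x)) = D.c x ∧ D.c (x - rho (σ * D.h x)) = D.c x := by
  have a0 := D.h_nonneg x
  have a1 := D.h_lt_one x
  have a2 : rho (σ * D.h x) ≤ σ * D.h x := rho_le _ (by positivity) (by nlinarith)
  have a3 := rho_nonneg (σ * D.h x)
  rcases a0.eq_or_lt with h | h
  · have : rho (σ * D.h x) = 0 := by rw [← h] at a2 a3 ⊢; linarith
    simp [this]
  · have a4 : rho (σ * D.h x) < D.h x := by nlinarith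
    exact ⟨D.c_near (by simpa [abs_of_nonneg a3] using a4),
      D.c_near (by simpa [abs_of_nonneg a3] using a4)⟩

lemma F_channel {σ : ℝ} (h0 : 0 < σ) (h1 : σ < 1) (x : ℝ) :
    D.F ![x, σ * D.h x] = D.c x - D.κ * x ∧ D.Fx ![x, σ * D.h x] = -D.κ ∧
      D.Fy ![x, σ * D.h x] = 0 := by
  obtain ⟨a1, a2⟩ := D.c_channel h0 h1 x
  have a3 := avg_mem D.c_cont D.c_mono x _ (rho_nonneg (σ * D.h x))
  rw [a1, a2] at a3
  have a4 : avg D.c x (rho (σ * D.h x)) = D.c x := le_antisymm a3.2 a3.1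
  simp [F, Fx, Fy, quo, rad, a1, a2, a4]

lemma ae_A (τ₀ : ℝ) : ∀ᵐ t ∂(volume : Measure ℝ), 0 < D.h (D.A (τ₀ + t)) := by
  have h1 := lintegral_image_eq_lintegral_abs_deriv_mul D.S_closed.measurableSet
    (fun x _ => (D.Θ_deriv x).hasDerivWithinAt) D.Θ_mono.injective.injOn (fun _ => 1)
  rw [setLIntegral_one, setLIntegral_measure_zero _ _ D.S_null] at h1
  have h2 : volume ((fun t => τ₀ + t) ⁻¹' (D.Θ '' D.S)) = 0 := by rw [measure_preimage_add, h1]
  filter_upwards [measure_eq_zero_iff_ae_notMem.1 h2] with t ht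
  rw [D.h_pos_iff]
  exact fun hS => ht ⟨_, hS, D.Θ_A _⟩

lemma not_ac (τ₀ : ℝ) (η : ℝ → ℝ) (hη : IntegrableOn η (Icc 0 D.L))
    (H : ∀ t ∈ Icc (0 : ℝ) D.L, D.c (D.A (τ₀ + t)) - D.κ * D.A (τ₀ + t) =
      D.c (D.A τ₀) - D.κ * D.A τ₀ + ∫ s in (0 : ℝ)..t, η s) : False := by
  have hL := D.L_pos
  have hη' : ∀ t ∈ Icc (0 : ℝ) D.L, IntervalIntegrable η volume 0 t := fun t ht =>
    (intervalIntegrable_iff_integrableOn_Icc_of_le ht.1).2
      (hη.mono_set (Icc_subset_Icc_right ht.2))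
  let ζ : ℝ → ℝ := fun s => η s + D.κ * (1 / D.h (D.A (τ₀ + s)))
  have hζ : IntervalIntegrable ζ volume 0 D.L :=
    (hη' D.L ⟨hL.le, le_rfl⟩).add ((D.speed_int τ₀ D.L hL.le).1.const_mul _)
  let N : ℝ → ℝ := fun t => ∫ s in (0 : ℝ)..t, ζ s
  have hN : ∀ t ∈ Icc (0 : ℝ) D.L, N t = D.c (D.A (τ₀ + t)) - D.c (D.A τ₀) := by
    intro t ht
    simp only [N, ζ]
    rw [intervalIntegral.integral_add (hη' t ht) ((D.speed_int τ₀ t ht.1).1.const_mul _),
      intervalIntegral.integral_const_mul, (D.speed_int τ₀ t ht.1).2]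
    linarith [H t ht]
  have hac : AbsolutelyContinuousOnInterval N 0 D.L :=
    hζ.absolutelyContinuousOnInterval_intervalIntegral (c := 0) (by simp)
  have h₁ : ∀ᵐ x ∂(volume : Measure ℝ), x ≠ 0 := by simp [ae_iff, measure_singleton]
  have h₂ : ∀ᵐ x ∂(volume : Measure ℝ), x ≠ D.L := by simp [ae_iff, measure_singleton]
  obtain ⟨C, hC⟩ := hac.const_of_ae_hasDerivAt_zero (by
    filter_upwards [D.ae_A τ₀, h₁, h₂] with t ht t0 tL hmem
    rw [uIcc_of_le hL.le] at hmem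
    have hI : Icc (0 : ℝ) D.L ∈ 𝓝 t :=
      Icc_mem_nhds (lt_of_le_of_ne hmem.1 t0.symm) (lt_of_le_of_ne hmem.2 tL)
    have hcont : Continuous fun s => |D.A (τ₀ + s) - D.A (τ₀ + t)| :=
      ((D.A_cont.comp (by fun_prop)).sub continuous_const).abs
    have hnear : ∀ᶠ s in 𝓝 t, |D.A (τ₀ + s) - D.A (τ₀ + t)| < D.h (D.A (τ₀ + t)) :=
      hcont.continuousAt.eventually_lt continuousAt_const (by simpa using ht)
    refine (hasDerivAt_const t (D.c (D.A (τ₀ + t)) - D.c (D.A τ₀))).congr_of_eventuallyEq ?_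
    filter_upwards [hI, hnear] with s hs1 hs2
    rw [hN s hs1, D.c_near hs2])
  have e0 := hC 0 (by simp)
  have eL := hC D.L (by simp)
  rw [hN 0 ⟨le_rfl, hL.le⟩, add_zero] at e0
  rw [hN D.L ⟨hL.le, le_rfl⟩, D.A_per, D.c_per] at eL
  linarith [D.κ_pos]

end Data

end Pool.Agent.H148Z.Flow
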