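import Pool.Agent.H148Z.Flow5

set_option autoImplicit false

open MeasureTheory Set Filter Topology

namespace Pool.Agent.H148Z.Flow

namespace Data

variable (D : Data)

/-- The vector valued Sobolev map. -/
noncomputable def fv (_ : ℝ) (p : Fin 2 → ℝ) : Fin 2 → ℝ := D.F p • (1 : Fin 2 → ℝ)

/-- Its spatial derivative. -/
noncomputable def Dfv (_ : ℝ) (p : Fin 2 → ℝ) (j : Fin 2) : Fin 2 → ℝ :=
  (![D.Fx p, D.Fy p] : Fin 2 → ℝ) j • (1 : Fin 2 → ℝ)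

lemma Dfv_meas : Measurable (Function.uncurry D.Dfv) := by
  refine measurable_pi_iff.2 fun j => ?_
  fin_cases j
  · exact (D.Fx_meas.comp measurable_snd).smul_const (1 : Fin 2 → ℝ)
  · exact (D.Fy_meas.comp measurable_snd).smul_const (1 : Fin 2 → ℝ)

lemma Dfv_int (T R : ℝ) :
    IntegrableOn (Function.uncurry D.Dfv) (Ioo (0 : ℝ) T ×ˢ Metric.closedBall (0 : Fin 2 → ℝ) R) := by
  refine Integrable.of_eval fun j => ?_
  fin_cases j
  · exact Integrable.smul_const (D.Fx_int R _ measure_Ioo_lt_top.ne) (1 : Fin 2 → ℝ)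
  · exact Integrable.smul_const (D.Fy_int R _ measure_Ioo_lt_top.ne) (1 : Fin 2 → ℝ)

lemma weak_t (φ : ST → ℝ) (hφ : ContDiff ℝ 1 φ) (hc : HasCompactSupport φ) :
    (∫ p : ST, fderiv ℝ φ p ((1 : ℝ), (0 : Fin 2 → ℝ)) • D.fv p.1 p.2)
      = - ∫ p : ST, φ p • (0 : Fin 2 → ℝ) := by
  simp only [fv, smul_smul, integral_smul_const, D.ibp_t φ hφ hc]
  simp

lemma weak_j (φ : ST → ℝ) (hφ : ContDiff ℝ 1 φ) (hc : HasCompactSupport φ) (j : Fin 2) :
    (∫ p : ST, fderiv ℝ φ p ((0 : ℝ), (Pi.single j (1 : ℝ) : Fin 2 → ℝ)) • D.fv p.1 p.2)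
      = - ∫ p : ST, φ p • D.Dfv p.1 p.2 j := by
  simp only [fv, Dfv, smul_smul, integral_smul_const, ← neg_smul]
  congr 1
  fin_cases j
  · exact D.ibp_x φ hφ hc
  · exact D.ibp_y φ hφ hc

lemma g_int (T : ℝ) (hT : 0 ≤ T) (p : Fin 2 → ℝ) (hQ : p ∈ Q) :
    IntegrableOn (fun t => (0 : Fin 2 → ℝ) + ∑ j : Fin 2, D.b (D.X t p) j • D.Dfv t (D.X t p) j)
      (Ioo (0 : ℝ) T) := by
  by_cases hp : p ∈ D.K
  · obtain ⟨h0, h1⟩ := D.ratio_mem hp
    have key : ∀ t, (0 : Fin 2 → ℝ) + ∑ j : Fin 2, D.b (D.X t p) j • D.Dfv t (D.X t p) j =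
        (1 / D.h (D.A (D.Θ (p 0) + t))) • ((-D.κ) • (1 : Fin 2 → ℝ)) := by
      intro t
      obtain ⟨-, a2, a3⟩ := D.F_channel h0 h1 (D.A (D.Θ (p 0) + t))
      rw [X, if_pos hp, D.b_channel h0 h1, Fin.sum_univ_two]
      simp [Dfv, a2, a3]
    simp only [key]
    have := (D.speed_int (D.Θ (p 0)) T hT).1
    rw [intervalIntegrable_iff_integrableOn_Ioo_of_le hT] at this
    exact Integrable.smul_const this _
  · have hX : ∀ s, D.X s p = p := fun s => by rw [X, if_neg hp]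
    simp [hX, D.b_of_notMem hQ hp]

lemma not_ac' (p : Fin 2 → ℝ) (hp : p ∈ D.K) (η : ℝ → Fin 2 → ℝ)
    (hη : IntegrableOn η (Icc 0 D.L))
    (H : ∀ t ∈ Icc (0 : ℝ) D.L, D.fv t (D.X t p) = D.fv 0 (D.X 0 p) + ∫ s in (0 : ℝ)..t, η s) :
    False := by
  obtain ⟨h0, h1⟩ := D.ratio_mem hp
  have hF : ∀ t, D.F (D.X t p) = D.c (D.A (D.Θ (p 0) + t)) - D.κ * D.A (D.Θ (p 0) + t) := by
    intro t
    rw [X, if_pos hp, (D.F_channel h0 h1 _).1]
  refine D.not_ac (D.Θ (p 0)) (fun s => η s 0) (Integrable.eval hη 0) fun t ht => ?_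
  have h2 := congrFun (H t ht) 0
  have hi : IntervalIntegrable η volume 0 t :=
    (intervalIntegrable_iff_integrableOn_Icc_of_le ht.1).2
      (hη.mono_set (Icc_subset_Icc_right ht.2))
  have h3 : (∫ s in (0 : ℝ)..t, η s) 0 = ∫ s in (0 : ℝ)..t, η s 0 :=
    ((ContinuousLinearMap.proj (R := ℝ) (φ := fun _ : Fin 2 => ℝ) 0).intervalIntegral_comp_comm
      hi).symm
  simp only [fv, hF, Pi.add_apply, Pi.smul_apply, Pi.one_apply, smul_eq_mul, mul_one, add_zero,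
    h3] at h2
  exact h2

end Data

end Pool.Agent.H148Z.Flow
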