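import Pool.Agent.H535Z.HG.St
import Pool.Agent.H17R2.Tree

set_option autoImplicit false

/-!
# The first group of the tower: a free group of rank three extended by a swap of two generators
-/

namespace Pool.Agent.H148Z.HGBase

open Pool.Agent.H668Z.SC Pool.Agent.H535Z.HG FreeGroup

abbrev F : Type := FreeGroup (Option Bool)

def sw : Option Bool → Option Bool := Option.map (fun b => !b)

lemma sw_sw (a : Option Bool) : sw (sw a) = a := by
  cases a with
  | none => rfl
  | some b => cases b <;> rfl

lemma sw_inj : Function.Injective sw := fun a b h => by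
  rw [← sw_sw a, h, sw_sw]

def sg : F →* F := FreeGroup.map sw

lemma sg_sg (f : F) : sg (sg f) = f := by
  have : sg.comp sg = MonoidHom.id F := by
    apply FreeGroup.ext_hom
    intro a
    simp [sg, sw_sw]
  exact DFunLike.congr_fun this f

lemma sg_mk (L : List (Option Bool × Bool)) : sg (mk L) = mk (L.map fun x => (sw x.1, x.2)) :=
  FreeGroup.map.mk

lemma toWord_sg (f : F) : (sg f).toWord = f.toWord.map fun x => (sw x.1, x.2) := by
  conv_lhs => rw [← mk_toWord (x := f), sg_mk, toWord_mk]
  apply IsReduced.reduce_eq
  have h := isReduced_toWord (x := f)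
  unfold FreeGroup.IsReduced at *
  rw [List.isChain_map]
  refine h.imp ?_
  intro a b hab h1
  exact hab (sw_inj h1)

lemma norm_sg (f : F) : norm (sg f) = norm f := by
  simp [FreeGroup.norm, toWord_sg]

lemma twisted (n : ℕ) : ∀ f : F, norm f ≤ n → sg f = f⁻¹ → ∃ u, f = u * (sg u)⁻¹ := by
  induction n with
  | zero =>
    intro f hf _
    have : f = 1 := norm_eq_zero.1 (by omega)
    exact ⟨1, by simp [this]⟩
  | succ n ih =>
    intro f hf h
    have hw := congrArg toWord h
    rw [toWord_sg, toWord_inv] at hw
    cases hl : f.toWord with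
    | nil =>
      have : f = 1 := toWord_eq_nil_iff.1 hl
      exact ⟨1, by simp [this]⟩
    | cons a m =>
      rcases List.eq_nil_or_concat m with h0 | ⟨l, b, hm⟩
      · exfalso
        rw [hl, h0] at hw
        simp [invRev] at hw
      · rw [hl, hm] at hw
        have hb : (sw a.1, a.2) = (b.1, !b.2) := by
          simp [invRev] at hw
          simp [hw.1.1, hw.1.2]
        have hb1 : b.1 = sw a.1 := (congrArg Prod.fst hb).symm
        have hb2 : b.2 = !a.2 := by
          have := congrArg Prod.snd hb
          simp only at this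
          rw [this]; simp
        have e1 : (mk [b] : F) = (sg (mk [a]))⁻¹ := by
          rw [sg_mk, inv_mk]
          congr 1
          simp only [invRev, List.map_cons, List.map_nil, List.reverse_cons, List.reverse_nil,
            List.nil_append, List.cons.injEq, and_true]
          exact Prod.ext hb1 hb2
        have e : f = mk [a] * mk l * (sg (mk [a]))⁻¹ := by
          rw [← e1, mul_mk, mul_mk, ← mk_toWord (x := f), hl, hm]
          simp
        have hn : norm (mk l : F) ≤ n := by
          have h1 := norm_mk_le (L₁ := l)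
          have h2 : norm f = l.length + 2 := by
            rw [FreeGroup.norm, hl, hm]; simp
          omega
        have hs : sg (mk l) = (mk l : F)⁻¹ := by
          have h3 := h
          rw [e] at h3
          simp only [_root_.map_mul, _root_.map_inv, sg_sg, mul_inv_rev, inv_inv] at h3
          calc sg (mk l) = (sg (mk [a]))⁻¹ * (sg (mk [a]) * sg (mk l) * (mk [a])⁻¹) * mk [a] := by
                group
            _ = (mk l : F)⁻¹ := by rw [h3]; group
        obtain ⟨u, hu⟩ := ih _ hn hs
        refine ⟨mk [a] * u, ?_⟩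
        rw [e, hu]
        simp only [_root_.map_mul, mul_inv_rev]
        group

def tw (e : Bool) : F →* F := if e then sg else MonoidHom.id F

@[simp] lemma tw_false (f : F) : tw false f = f := rfl
@[simp] lemma tw_true (f : F) : tw true f = sg f := rfl

lemma tw_xor (a b : Bool) (f : F) : tw (xor a b) f = tw a (tw b f) := by
  cases a <;> cases b <;> simp [sg_sg]

lemma norm_tw (e : Bool) (f : F) : norm (tw e f) = norm f := by
  cases e <;> simp [norm_sg]

@[ext] structure G : Type where
  f : F
  e : Bool

instance : Mul G := ⟨fun a b => ⟨a.f * tw a.e b.f, xor a.e b.e⟩⟩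
instance : One G := ⟨⟨1, false⟩⟩
instance : Inv G := ⟨fun a => ⟨tw a.e a.f⁻¹, a.e⟩⟩

@[simp] lemma mul_f (a b : G) : (a * b).f = a.f * tw a.e b.f := rfl
@[simp] lemma mul_e (a b : G) : (a * b).e = xor a.e b.e := rfl
@[simp] lemma one_f : (1 : G).f = 1 := rfl
@[simp] lemma one_e : (1 : G).e = false := rfl
@[simp] lemma inv_f (a : G) : (a⁻¹).f = tw a.e a.f⁻¹ := rfl
@[simp] lemma inv_e (a : G) : (a⁻¹).e = a.e := rfl

instance : Group G := Group.ofLeftAxioms
  (fun a b c => by
    ext
    · simp [tw_xor, mul_assoc]
    · simp)
  (fun a => by ext <;> simp)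
  (fun a => by ext <;> simp)

instance : MulAction G F where
  smul g x := g.f * tw g.e x
  one_smul x := by
    show (1 : G).f * tw (1 : G).e x = x
    simp
  mul_smul a b x := by
    show (a * b).f * tw (a * b).e x = a.f * tw a.e (b.f * tw b.e x)
    simp [tw_xor, mul_assoc]

lemma smul_eq (g : G) (x : F) : g • x = g.f * tw g.e x := rfl

def tree : GS F where
  d x y := norm (x⁻¹ * y)
  d_self x := by simp
  eq_of_d x y h := inv_mul_eq_one.1 (norm_eq_zero.1 h)
  symm x y := by
    have := H17R2.fd_comm x y
    unfold H17R2.fd at this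
    exact_mod_cast this
  tri x y z := by
    have := H17R2.fd_tri x y z
    unfold H17R2.fd at this
    exact_mod_cast this
  step x y n hn := by
    set w := (x⁻¹ * y).toWord with hw
    have hl : norm (x⁻¹ * y) = w.length := rfl
    have e : x⁻¹ * y = mk (w.take 1) * mk (w.drop 1) := by
      rw [mul_mk, List.take_append_drop, hw, mk_toWord]
    have h1 := norm_mk_le (L₁ := w.take 1)
    have h2 := norm_mk_le (L₁ := w.drop 1)
    have h3 := norm_mul_le (mk (w.take 1)) (mk (w.drop 1))
    rw [← e] at h3
    rw [List.length_take] at h1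
    rw [List.length_drop] at h2
    refine ⟨x * mk (w.take 1), ?_, ?_⟩
    · rw [inv_mul_cancel_left]; omega
    · have e2 : (x * mk (w.take 1))⁻¹ * y = mk (w.drop 1) := by
        rw [mul_inv_rev, mul_assoc, e, inv_mul_cancel_left]
      rw [e2]; omega

lemma tree_d (x y : F) : tree.d x y = norm (x⁻¹ * y) := rfl

lemma tree_four : tree.Four 0 := by
  intro x y z w
  have := (H17R2.fTree (Option Bool)).four x y z w
  simp only [H17R2.fTree, H17R2.fd] at this
  simp only [tree_d]
  omega

lemma ball_finite (R : ℕ) : {f : F | norm f ≤ R}.Finite := by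
  have h := List.finite_length_le (Option Bool × Bool) R
  exact (h.preimage (toWord_injective.injOn)).subset (fun f hf => hf)

lemma hyp : Hyp G := by
  refine ⟨F, inferInstance, tree, 1, ?_, ⟨_, tree_four.slim⟩, ?_, ⟨0, ?_⟩⟩
  · intro g x y
    simp only [tree_d, smul_eq]
    rw [← norm_tw g.e (x⁻¹ * y)]
    congr 1
    simp only [_root_.map_mul, _root_.map_inv]
    group
  · intro R
    have h := ((ball_finite R).prod (Set.finite_univ (α := Bool))).image
      (fun p : F × Bool => (⟨p.1, p.2⟩ : G))
    refine h.subset ?_
    intro g hg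
    refine ⟨(g.f, g.e), ⟨?_, trivial⟩, rfl⟩
    simpa [tree_d, smul_eq] using hg
  · intro v
    exact ⟨⟨v, false⟩, by simp [tree_d, smul_eq]⟩

def inl : F →* G where
  toFun f := ⟨f, false⟩
  map_one' := rfl
  map_mul' a b := by ext <;> simp

lemma inl_inj : Function.Injective inl := fun _ _ h => congrArg G.f h

lemma eq_one_of_fin {g : G} (hg : IsOfFinOrder g) (he : g.e = false) : g = 1 := by
  have e : g = inl g.f := by
    ext
    · rfl
    · exact he
  rw [e] at hg ⊢
  have h1 : IsOfFinOrder g.f := (inl_inj.isOfFinOrder_iff).1 hg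
  rw [h1.eq_one', _root_.map_one]

lemma sq_of_fin {g : G} (hg : IsOfFinOrder g) : g * g = 1 := by
  apply eq_one_of_fin
  · rw [← pow_two]; exact hg.pow
  · simp

def gi : G := ⟨1, true⟩
def gz : G := ⟨of none, false⟩
def gy : G := ⟨of (some true), false⟩

lemma alg : Alg G gi gz gy := by
  have hodd : ∀ r : G, Odd (orderOf r) → r = 1 := by
    intro r hr
    have h0 : IsOfFinOrder r := orderOf_pos_iff.1 hr.pos
    have h2 : orderOf r ∣ 2 := orderOf_dvd_of_pow_eq_one (by rw [pow_two]; exact sq_of_fin h0)
    have h3 : orderOf r = 1 := by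
      rcases (Nat.dvd_prime Nat.prime_two).1 h2 with h | h
      · exact h
      · rw [h] at hr; exact absurd hr (by decide)
    exact orderOf_eq_one_iff.1 h3
  refine ⟨?_, ?_, ?_, ?_, ?_, ?_, ?_, ?_⟩
  · ext <;> simp [gi]
  · intro h
    have := congrArg G.e h
    simp [gi] at this
  · show gz * gi = gi * gz
    ext <;> simp [gi, gz, sg, sw]
  · intro h
    have := congrArg G.f (eq_one_of_fin h rfl)
    exact of_ne_one _ this
  · intro h
    have h1 : gy * gi = gi * gy := h
    have := congrArg G.f h1
    simp only [gi, gy, sg, sw, mul_f, tw_false, mul_one, tw_true, one_mul, map.of,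
      Option.map_some, Bool.not_true] at this
    have h2 := of_injective this
    simp at h2
  · intro x hx hne
    have hf : IsOfFinOrder x := isOfFinOrder_iff_pow_eq_one.2 ⟨2, two_pos, by rw [pow_two, hx]⟩
    have he : x.e = true := by
      by_contra h
      exact hne (eq_one_of_fin hf (by simpa using h))
    have h1 := congrArg G.f hx
    simp only [mul_f, he, tw_true, one_f] at h1
    obtain ⟨u, hu⟩ := twisted _ x.f le_rfl (eq_inv_of_mul_eq_one_right h1)
    refine ⟨⟨u, false⟩, ?_⟩
    ext
    · simp [gi, hu]
    · simp [gi, he]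
  · intro H hH
    have hfin : ∀ h ∈ H, IsOfFinOrder h := by
      intro h hh
      have := isOfFinOrder_of_finite (⟨h, hh⟩ : H)
      exact (H.subtype_injective.isOfFinOrder_iff (f := H.subtype)).2 this
    by_cases hex : ∃ j ∈ H, j ≠ 1
    · obtain ⟨j, hj, hj1⟩ := hex
      refine ⟨1, j, by simp, ?_⟩
      intro h hh
      by_cases h1 : h = 1
      · left; rw [h1]; exact one_mem _
      · right
        refine ⟨?_, sq_of_fin (hfin j hj), by simp⟩
        have e1 : h.e = true := by
          by_contra hc
          exact h1 (eq_one_of_fin (hfin h hh) (by simpa using hc))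
        have e2 : j.e = true := by
          by_contra hc
          exact hj1 (eq_one_of_fin (hfin j hj) (by simpa using hc))
        rw [eq_one_of_fin (hfin _ (H.mul_mem hh hj)) (by simp [e1, e2])]
        exact one_mem _
    · push Not at hex
      refine ⟨1, 1, by simp, ?_⟩
      intro h hh
      left; rw [hex h hh]; exact one_mem _
  · intro r a hr hne _
    exact absurd (hodd r hr) hne

theorem thm_base : Pool.Agent.H535Z.HG.S_base := ⟨G, inferInstance, gi, gz, gy, hyp, alg⟩

end Pool.Agent.H148Z.HGBase
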