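import Pool.Agent.H82Z.Kak.St

set_option autoImplicit false

/-! Assembly of the self-similar Kakeya theorem from its three parts. -/

namespace Pool.Agent.H148Z.KakFin

open Pool.Agent.H82Z.Kak MeasureTheory Filter Set

lemma pt_succ {ι V : Type} [AddCommGroup V] [Module ℝ V] (c : ι → V) (ρ : ℝ) {n : ℕ}
    (u : Fin (n + 1) → ι) : pt c ρ u = c (u 0) + ρ • pt c ρ (fun k : Fin n => u k.succ) := by
  unfold pt
  rw [Fin.sum_univ_succ, Finset.smul_sum]
  simp only [Fin.val_zero, pow_zero, one_smul, Fin.val_succ, pow_succ', mul_smul]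

lemma pt_zero {ι V : Type} [AddCommGroup V] [Module ℝ V] (c : ι → V) (ρ : ℝ)
    (u : Fin 0 → ι) : pt c ρ u = 0 := by
  simp [pt]

lemma norm_pt {ι V : Type} [NormedAddCommGroup V] [NormedSpace ℝ V] (c : ι → V) (ρ B : ℝ)
    (h0 : 0 < ρ) (h1 : ρ ≤ 1 / 2) (hB : 0 ≤ B) (hc : ∀ i, ‖c i‖ ≤ B) (n : ℕ) (u : Fin n → ι) :
    ‖pt c ρ u‖ ≤ 2 * B := by
  induction n with
  | zero => rw [pt_zero, norm_zero]; positivity
  | succ n ih =>
    rw [pt_succ]
    have a1 := norm_add_le (c (u 0)) (ρ • pt c ρ (fun k : Fin n => u k.succ))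
    rw [norm_smul, Real.norm_of_nonneg h0.le] at a1
    have a2 := ih (fun k : Fin n => u k.succ)
    have a3 := hc (u 0)
    have a4 : ρ * ‖pt c ρ (fun k : Fin n => u k.succ)‖ ≤ 1 / 2 * (2 * B) :=
      mul_le_mul h1 a2 (norm_nonneg _) (by norm_num)
    linarith

lemma sep_pt {ι V : Type} [NormedAddCommGroup V] [NormedSpace ℝ V] (c : ι → V) (ρ B : ℝ)
    (h0 : 0 < ρ) (h1 : ρ ≤ 1 / 2) (hB : 0 ≤ B) (hc : ∀ i, ‖c i‖ ≤ B)
    (hs : ∀ i i', i ≠ i' → (2 + 4 * B) * ρ ≤ ‖c i - c i'‖) (n : ℕ) (u u' : Fin n → ι)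
    (hne : u ≠ u') : ρ ^ n ≤ ‖pt c ρ u - pt c ρ u'‖ := by
  induction n with
  | zero => exact absurd (Subsingleton.elim u u') hne
  | succ n ih =>
    rw [pt_succ c ρ u, pt_succ c ρ u']
    by_cases h : u 0 = u' 0
    · have hne' : (fun k : Fin n => u k.succ) ≠ (fun k : Fin n => u' k.succ) := by
        intro hh
        apply hne
        funext k
        refine Fin.cases h (fun k => congrFun hh k) k
      have a1 := ih _ _ hne'
      rw [h, add_sub_add_left_eq_sub, ← smul_sub, norm_smul, Real.norm_of_nonneg h0.le,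
        pow_succ']
      exact mul_le_mul_of_nonneg_left a1 h0.le
    · have a1 := hs _ _ h
      have a2 := norm_pt c ρ B h0 h1 hB hc n (fun k : Fin n => u k.succ)
      have a3 := norm_pt c ρ B h0 h1 hB hc n (fun k : Fin n => u' k.succ)
      set x := pt c ρ (fun k : Fin n => u k.succ)
      set y := pt c ρ (fun k : Fin n => u' k.succ)
      have e : c (u 0) - c (u' 0) = (c (u 0) + ρ • x - (c (u' 0) + ρ • y)) - ρ • (x - y) := by
        rw [smul_sub]; abel
      have a4 := norm_sub_le (c (u 0) + ρ • x - (c (u' 0) + ρ • y)) (ρ • (x - y))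
      rw [← e, norm_smul, Real.norm_of_nonneg h0.le] at a4
      have a5 : ρ * ‖x - y‖ ≤ ρ * (4 * B) :=
        mul_le_mul_of_nonneg_left ((norm_sub_le x y).trans (by linarith)) h0.le
      have a6 : ρ ^ (n + 1) ≤ ρ := by
        rw [pow_succ']
        exact mul_le_of_le_one_right h0.le (pow_le_one₀ h0.le (by linarith))
      nlinarith

lemma pt_mem {ι V : Type} [AddCommGroup V] [Module ℝ V] (c : ι → V) (ρ : ℝ) (F : Set V)
    (hF : ∀ i, ∀ p ∈ F, ρ • p + c i ∈ F) (n : ℕ) (u : Fin n → ι) (p : V) (hp : p ∈ F) :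
    ρ ^ n • p + pt c ρ u ∈ F := by
  induction n with
  | zero => simpa [pt_zero] using hp
  | succ n ih =>
    have := hF (u 0) _ (ih (fun k : Fin n => u k.succ))
    rw [pt_succ]
    convert this using 1
    rw [smul_add, smul_smul, pow_succ']
    abel

lemma pt_fst {ι : Type} {d : ℕ} (c : ι → E d × E d) (ρ : ℝ) {n : ℕ} (u : Fin n → ι) :
    (pt c ρ u).1 = pt (fun i => (c i).1) ρ u := by
  simp [pt, Prod.fst_sum]

lemma pt_snd {ι : Type} {d : ℕ} (c : ι → E d × E d) (ρ : ℝ) {n : ℕ} (u : Fin n → ι) :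
    (pt c ρ u).2 = pt (fun i => (c i).2) ρ u := by
  simp [pt, Prod.snd_sum]

lemma cell_sep {d : ℕ} (s : ℝ) (hs : 0 < s) (Q : ℕ) (x y : E d) (hne : cell s x ≠ cell s y)
    (hm : ∀ j, ((cell s x j : ℤ) : ZMod Q) = ((cell s y j : ℤ) : ZMod Q)) :
    ((Q : ℝ) - 1) * s ≤ ‖x - y‖ := by
  obtain ⟨j, hj⟩ := Function.ne_iff.1 hne
  have h1 : (Q : ℤ) ∣ cell s y j - cell s x j := (ZMod.intCast_eq_intCast_iff_dvd_sub _ _ _).1 (hm j)
  have h2 : (Q : ℤ) ≤ |cell s y j - cell s x j| :=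
    Int.le_of_dvd (abs_pos.2 (sub_ne_zero.2 hj.symm)) ((dvd_abs _ _).2 h1)
  have h3 : (Q : ℝ) ≤ |(cell s y j : ℝ) - (cell s x j : ℝ)| := by exact_mod_cast h2
  have h4 : |x j - y j| ≤ ‖x - y‖ := by
    have := PiLp.norm_apply_le (x - y) j
    simpa using this
  have b1 : (cell s x j : ℝ) ≤ x j / s := Int.floor_le _
  have b2 : x j / s < (cell s x j : ℝ) + 1 := Int.lt_floor_add_one _
  have b3 : (cell s y j : ℝ) ≤ y j / s := Int.floor_le _
  have b4 : y j / s < (cell s y j : ℝ) + 1 := Int.lt_floor_add_one _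
  have h5 : (Q : ℝ) - 1 ≤ |x j / s - y j / s| := by
    rcases le_abs'.1 h3 with h | h
    · exact le_abs'.2 (Or.inr (by linarith))
    · exact le_abs'.2 (Or.inl (by linarith))
  rw [← sub_div, abs_div, abs_of_pos hs, le_div_iff₀ hs] at h5
  exact h5.trans h4

lemma exists_class {d : ℕ} (Q : ℕ) (hQ : 0 < Q) (Z : Finset (Fin d → ℤ)) :
    ∃ Z' : Finset (Fin d → ℤ), Z' ⊆ Z ∧ Z.card ≤ Z'.card * Q ^ d ∧
      ∀ z ∈ Z', ∀ z' ∈ Z', ∀ j, ((z j : ℤ) : ZMod Q) = ((z' j : ℤ) : ZMod Q) := by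
  classical
  haveI : NeZero Q := ⟨hQ.ne'⟩
  let f : (Fin d → ℤ) → (Fin d → ZMod Q) := fun z j => (z j : ZMod Q)
  obtain ⟨y, -, hy⟩ := Finset.exists_max_image (Finset.univ : Finset (Fin d → ZMod Q))
    (fun y => (Z.filter (fun z => f z = y)).card) Finset.univ_nonempty
  refine ⟨Z.filter (fun z => f z = y), Finset.filter_subset _ _, ?_, ?_⟩
  · have := Finset.card_le_mul_card_image_of_maps_to (s := Z) (t := Finset.univ) (f := f)
      (fun _ _ => Finset.mem_univ _) _ hy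
    simpa [ZMod.card] using this
  · intro z hz z' hz' j
    have h1 := (Finset.mem_filter.1 hz).2
    have h2 := (Finset.mem_filter.1 hz').2
    exact congrFun (h1.trans h2.symm) j

lemma lower (hcore : S_core) (hdim : S_dim) (hhom : S_hom) (d : ℕ) (hd : 1 ≤ d) (ι : Type)
    [Fintype ι] (r : ι → ℝ) (c : ι → E d × E d) (F : Set (E d × E d))
    (hr : ∀ i, 0 < r i ∧ r i < 1) (hF : IsCompact F)
    (hFe : F = (⋃ i, (fun p => r i • p + c i) '' F)) (hv : 0 < volume (Prod.snd '' F))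
    (t0 t1 : ℝ) (ht : t0 < t1) (K : Set (E (d + 1))) (hK : Over F t0 t1 K) (η : ℝ)
    (hη : 0 < η) (hη1 : η < 1) : ENNReal.ofReal (1 + ((d : ℝ) - η)) ≤ dimH K := by
  classical
  have hne : F.Nonempty := by
    by_contra h
    rw [Set.not_nonempty_iff_eq_empty.1 h] at hv
    simp at hv
  obtain ⟨p0, hp0⟩ := hne
  obtain ⟨R, hR⟩ := hF.isBounded.exists_norm_le
  have hR0 : 0 ≤ R := (norm_nonneg _).trans (hR p0 hp0)
  obtain ⟨ρ, m, e, h0, h1, he, hsep, hm⟩ :=
    hhom d ι r c F hr hF hFe hv (η / 3) (by positivity) (2 + 4 * (2 * R))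
  have hen : ∀ i, ‖e i‖ ≤ 2 * R := by
    intro i
    have a1 := hR _ (he i p0 hp0)
    have a2 := norm_sub_le (ρ • p0 + e i) (ρ • p0)
    rw [add_sub_cancel_left, norm_smul, Real.norm_of_nonneg h0.le] at a2
    have a3 : ρ * ‖p0‖ ≤ 1 * R := mul_le_mul (by linarith) (hR p0 hp0) (norm_nonneg _) zero_le_one
    linarith
  have hbn : ∀ i, ‖(e i).2‖ ≤ 2 * R := fun i => (norm_snd_le _).trans (hen i)
  have hρ1 : ρ < 1 := by linarith
  have hm0 : (0 : ℝ) < m := by
    have a1 : 0 < ρ ^ (η / 3) := Real.rpow_pos_of_pos h0 _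
    by_contra h
    have a2 : (m : ℝ) = 0 := le_antisymm (not_lt.1 h) (Nat.cast_nonneg _)
    rw [a2, zero_mul] at hm
    linarith
  have hm0' : 0 < m := by exact_mod_cast hm0
  haveI : Nonempty (Fin m) := ⟨⟨0, hm0'⟩⟩
  set L : ℝ := - Real.log ρ with hL
  have hL0 : 0 < L := by
    have := Real.log_neg h0 hρ1
    linarith
  have hlogm : ((d : ℝ) - η / 3) * L ≤ Real.log m := by
    have a1 := Real.log_le_log (Real.rpow_pos_of_pos h0 _) hm
    rw [Real.log_rpow h0, Real.log_mul hm0.ne' (pow_pos h0 d).ne', Real.log_pow] at a1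
    rw [hL]; linarith
  have hae := hcore d (Fin m) (fun i => (e i).1) (fun i => (e i).2) ρ h0 hρ1
    (sep_pt _ ρ (2 * R) h0 h1 (by linarith) hbn hsep)
  obtain ⟨ts, hts, hP⟩ : ∃ ts ∈ Ioo t0 t1, ∀ ε : ℝ, 0 < ε → ∀ N : ℕ, ∃ P : ℕ, N ≤ P ∧
      (Fintype.card (Fin m) : ℝ) ^ P * Real.exp (-(ε * P)) ≤
        ((Finset.univ.image fun u : Fin P → Fin m =>
          cell (ρ ^ P) (pt (fun i => (e i).1) ρ u + ts • pt (fun i => (e i).2) ρ u)).card : ℝ) := by
    have hpos : (volume (Ioo t0 t1) : ENNReal) ≠ 0 := by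
      rw [Real.volume_Ioo]
      exact (ENNReal.ofReal_pos.2 (by linarith)).ne'
    obtain ⟨ts, h2, h3⟩ := Measure.exists_mem_of_measure_ne_zero_of_ae hpos (ae_restrict_of_ae hae)
    refine ⟨ts, h2, ?_⟩
    intro ε hε N
    obtain ⟨P, hP1, hP2⟩ := h3 ε hε N
    refine ⟨P, hP1, ?_⟩
    convert hP2
  obtain ⟨Q, hQ⟩ := exists_nat_ge (3 + 2 * R * (1 + (|t0| + |t1|)))
  have hQ3 : (3 : ℝ) ≤ Q := by
    have : 0 ≤ 2 * R * (1 + (|t0| + |t1|)) := by positivity
    linarith
  have hQ0 : 0 < Q := by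
    have : (0 : ℝ) < Q := by linarith
    exact_mod_cast this
  obtain ⟨N, hN⟩ := exists_nat_ge (d * Real.log Q / (η * L / 3))
  obtain ⟨P, hNP, hcard⟩ := hP (η * L / 3) (by positivity) (N + 1)
  have hP1 : (1 : ℝ) ≤ P := by
    have : 1 ≤ P := by omega
    exact_mod_cast this
  have hP0 : P ≠ 0 := by omega
  have hNP' : (N : ℝ) ≤ P := by
    have : N ≤ P := by omega
    exact_mod_cast this
  have hdQ : d * Real.log Q ≤ η * L / 3 * P := by
    rw [div_le_iff₀ (by positivity)] at hN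
    have : (N : ℝ) * (η * L / 3) ≤ P * (η * L / 3) :=
      mul_le_mul_of_nonneg_right hNP' (by positivity)
    linarith
  set s : ℝ := ρ ^ P with hs
  have hs0 : 0 < s := pow_pos h0 P
  have hs1 : s < 1 := pow_lt_one₀ h0.le hρ1 hP0
  obtain ⟨Z', hZ1, hZ2, hZ3⟩ := exists_class Q hQ0 (Finset.univ.image fun u : Fin P → Fin m =>
    cell s (pt (fun i => (e i).1) ρ u + ts • pt (fun i => (e i).2) ρ u))
  have hch : ∀ z : Z', ∃ u : Fin P → Fin m,
      cell s (pt (fun i => (e i).1) ρ u + ts • pt (fun i => (e i).2) ρ u) = z.1 := by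
    intro z
    obtain ⟨u, -, hu⟩ := Finset.mem_image.1 (hZ1 z.2)
    exact ⟨u, hu⟩
  choose w hw using hch
  have hZ4 : (m : ℝ) ^ P * Real.exp (-(η * L / 3 * P)) ≤ Z'.card * (Q : ℝ) ^ d := by
    rw [Fintype.card_fin] at hcard
    refine hcard.trans ?_
    exact_mod_cast hZ2
  have hZ0 : (0 : ℝ) < Z'.card := by
    have a1 : 0 < (m : ℝ) ^ P * Real.exp (-(η * L / 3 * P)) := by positivity
    by_contra h
    have a2 : (Z'.card : ℝ) = 0 := le_antisymm (not_lt.1 h) (Nat.cast_nonneg _)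
    rw [a2, zero_mul] at hZ4
    linarith
  have hlogZ : ((d : ℝ) - η) * (P * L) ≤ Real.log Z'.card := by
    have a1 := Real.log_le_log (by positivity) hZ4
    rw [Real.log_mul (by positivity) (by positivity), Real.log_mul hZ0.ne' (by positivity),
      Real.log_pow, Real.log_pow, Real.log_exp] at a1
    have a2 : (P : ℝ) * (((d : ℝ) - η / 3) * L) ≤ P * Real.log m :=
      mul_le_mul_of_nonneg_left hlogm (by linarith)
    nlinarith
  have hd1 : (1 : ℝ) ≤ d := by exact_mod_cast hd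
  have hPL : 0 < (P : ℝ) * L := by positivity
  have hZ5 : 2 ≤ Z'.card := by
    have a1 : 0 < Real.log Z'.card := lt_of_lt_of_le (mul_pos (by linarith) hPL) hlogZ
    have a2 : (1 : ℝ) < Z'.card := (Real.log_pos_iff hZ0.le).1 a1
    have : 1 < Z'.card := by exact_mod_cast a2
    omega
  let e' : Fin Z'.card → E d × E d := fun i => pt e ρ (w (Z'.equivFin.symm i))
  set h : ℝ := s / (8 * R + 1) with hh
  have hh0 : 0 < h := by positivity
  have key := hdim d Z'.card hZ5 s R hs0 hs1 e' F hF.isClosed ⟨p0, hp0⟩ hR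
    (fun i p hp => pt_mem e ρ F he P _ p hp) ts (min t1 (ts + h))
    (lt_min hts.2 (by linarith)) ?_ K ?_
  · refine le_trans (ENNReal.ofReal_le_ofReal ?_) key
    have a1 : Real.log (1 / s) = P * L := by
      rw [one_div, Real.log_inv, hs, Real.log_pow, hL]; ring
    rw [a1]
    have := (le_div_iff₀ hPL).2 hlogZ
    linarith
  · intro t htt i i' hii
    have t1' : t ≤ t1 := htt.2.trans (min_le_left _ _)
    have t2' : t ≤ ts + h := htt.2.trans (min_le_right _ _)
    have t3' : ts ≤ t := htt.1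
    have t4' : |t| ≤ |t0| + |t1| := by
      have b1 := neg_abs_le t0
      have b2 := le_abs_self t1
      have b3 := abs_nonneg t0
      have b4 := abs_nonneg t1
      have b5 := hts.1
      rw [abs_le]; constructor <;> linarith
    simp only [e', pt_fst, pt_snd]
    set z := Z'.equivFin.symm i with hz
    set z' := Z'.equivFin.symm i' with hz'
    have hzz : z.1 ≠ z'.1 := fun hc => hii (Z'.equivFin.symm.injective (Subtype.ext hc))
    have c1 := cell_sep s hs0 Q
      (pt (fun i => (e i).1) ρ (w z) + ts • pt (fun i => (e i).2) ρ (w z))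
      (pt (fun i => (e i).1) ρ (w z') + ts • pt (fun i => (e i).2) ρ (w z'))
      (by rw [hw, hw]; exact hzz) (by rw [hw, hw]; exact hZ3 _ z.2 _ z'.2)
    have c2 := norm_pt (fun i => (e i).2) ρ (2 * R) h0 h1 (by linarith) hbn P (w z)
    have c3 := norm_pt (fun i => (e i).2) ρ (2 * R) h0 h1 (by linarith) hbn P (w z')
    set a := pt (fun i => (e i).1) ρ (w z)
    set a' := pt (fun i => (e i).1) ρ (w z')
    set b := pt (fun i => (e i).2) ρ (w z)
    set b' := pt (fun i => (e i).2) ρ (w z')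
    have e1 : a + ts • b - (a' + ts • b') =
        (a + t • b - (a' + t • b')) - (t - ts) • (b - b') := by
      simp only [sub_smul, smul_sub]; abel
    have c4 := norm_sub_le (a + t • b - (a' + t • b')) ((t - ts) • (b - b'))
    rw [← e1, norm_smul, Real.norm_of_nonneg (by linarith)] at c4
    have c5 : (t - ts) * ‖b - b'‖ ≤ h * (8 * R + 1) :=
      mul_le_mul (by linarith) ((norm_sub_le b b').trans (by linarith)) (norm_nonneg _) hh0.le
    have c6 : h * (8 * R + 1) = s := by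
      rw [hh]; field_simp
    have c7 : 1 + 2 * R * (1 + |t|) ≤ (Q : ℝ) - 2 := by
      have : 2 * R * (1 + |t|) ≤ 2 * R * (1 + (|t0| + |t1|)) :=
        mul_le_mul_of_nonneg_left (by linarith) (by linarith)
      linarith
    have c8 := mul_le_mul_of_nonneg_left c7 hs0.le
    nlinarith
  · intro p hp t htt
    exact hK p hp t ⟨hts.1.le.trans htt.1, htt.2.trans (min_le_left _ _)⟩

theorem thm_fin : S_fin := by
  intro hcore hdim hhom d hd ι _ r c F hr hF hFe hv t0 t1 ht K hK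
  apply le_antisymm
  · have h1 := dimH_mono (subset_univ K)
    rw [Real.dimH_univ_eq_finrank] at h1
    simpa using h1
  · refine ENNReal.le_of_forall_pos_le_add ?_
    intro ε hε _
    have hε' : (0 : ℝ) < ε := by exact_mod_cast hε
    have h1 := lower hcore hdim hhom d hd ι r c F hr hF hFe hv t0 t1 ht K hK (min ε (1 / 2))
      (lt_min hε' (by norm_num)) (lt_of_le_of_lt (min_le_right _ _) (by norm_num))
    have h2 : ((d : ENNReal) + 1) = ENNReal.ofReal ((1 + ((d : ℝ) - min (ε : ℝ) (1 / 2))) +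
        min (ε : ℝ) (1 / 2)) := by
      have : (1 + ((d : ℝ) - min (ε : ℝ) (1 / 2))) + min (ε : ℝ) (1 / 2) = ((d + 1 : ℕ) : ℝ) := by
        push_cast; ring
      rw [this, ENNReal.ofReal_natCast]
      simp
    rw [h2]
    refine ENNReal.ofReal_add_le.trans (add_le_add h1 ?_)
    rw [← ENNReal.ofReal_coe_nnreal]
    exact ENNReal.ofReal_le_ofReal (min_le_left _ _)

end Pool.Agent.H148Z.KakFin
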