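import Pool.Agent.H148Z.KirchDefs

set_option autoImplicit false

namespace Pool.Agent.H148Z.Kirch

open Finset Module Filter Topology

lemma card_ext {ι : Type} [DecidableEq ι] (S U : Finset ι) (j : ℕ) (Z : Finset (Finset ι))
    (hZ : ∀ T ∈ Z, T.card = S.card + j ∧ S ⊆ T ∧ T ⊆ U) : Z.card ≤ U.card.choose j := by
  rw [← card_powersetCard]
  refine card_le_card_of_injOn (fun T => T \ S) (fun T hT => ?_) fun T hT T' hT' e => ?_
  · obtain ⟨h1, h2, h3⟩ := hZ T hT
    rw [mem_coe, mem_powersetCard]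
    exact ⟨sdiff_subset.trans h3, by rw [card_sdiff_of_subset h2]; omega⟩
  · have e' : T \ S = T' \ S := e
    rw [← sdiff_union_of_subset (hZ T hT).2.1, ← sdiff_union_of_subset (hZ T' hT').2.1, e']

section helly

variable {W : Type} [NormedAddCommGroup W] [InnerProductSpace ℝ W] [FiniteDimensional ℝ W]

lemma exists_min (K : Set W) (hK : IsClosed K) :
    ∃ p : W, K.Nonempty → p ∈ K ∧ ∀ q ∈ K, ‖p‖ ≤ ‖q‖ := by
  by_cases h : K.Nonempty
  · obtain ⟨p, hp, e⟩ := hK.exists_infDist_eq_dist h 0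
    refine ⟨p, fun _ => ⟨hp, fun q hq => ?_⟩⟩
    have := Metric.infDist_le_dist_of_mem (x := (0 : W)) hq
    rw [e] at this
    simpa using this
  · exact ⟨0, fun h' => absurd h' h⟩

omit [FiniteDimensional ℝ W] in
lemma min_unique {K : Set W} (hK : Convex ℝ K) {p q : W} (hp : p ∈ K) (hq : q ∈ K)
    (hmin : ∀ r ∈ K, ‖p‖ ≤ ‖r‖) (hle : ‖q‖ ≤ ‖p‖) : p = q := by
  by_contra hne
  have e : ‖p‖ = ‖q‖ := le_antisymm (hmin q hq) hle
  have h1 := (norm_midpoint_lt_iff e).2 hne
  have h2 : (1 / 2 : ℝ) • (p + q) ∈ K := by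
    rw [smul_add]; exact hK hp hq (by norm_num) (by norm_num) (by norm_num)
  exact absurd (hmin _ h2) (not_le.2 h1)

lemma compress {ι : Type} [DecidableEq ι] (H : ι → Set W) (hc : ∀ i, Convex ℝ (H i))
    (hcl : ∀ i, IsClosed (H i)) : ∃ p : Finset ι → W, ∀ T : Finset ι, finrank ℝ W ≤ T.card →
      (⋂ i ∈ T, H i).Nonempty → ∃ T₀ ⊆ T, T₀.card = finrank ℝ W ∧ ∀ i ∈ T, p T₀ ∈ H i := by
  have hK : ∀ T : Finset ι, IsClosed (⋂ i ∈ T, H i) := fun T =>
    isClosed_biInter fun i _ => hcl i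
  have hK' : ∀ T : Finset ι, Convex ℝ (⋂ i ∈ T, H i) := fun T =>
    convex_iInter fun i => convex_iInter fun _ => hc i
  choose p hp using fun T : Finset ι => exists_min _ (hK T)
  refine ⟨p, fun T hT hne => ?_⟩
  obtain ⟨h1, h2⟩ := hp T hne
  let F : Option ι → Set W := fun o => o.elim (Metric.ball 0 ‖p T‖) H
  have hemp : ¬ (⋂ o ∈ insertNone T, F o).Nonempty := by
    rintro ⟨w, hw⟩
    simp only [Set.mem_iInter] at hw
    have a : ‖w‖ < ‖p T‖ := by simpa [F] using hw none (by simp)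
    have b := h2 w (by
      simp only [Set.mem_iInter]
      exact fun i hi => hw (some i) (by simpa using hi))
    linarith
  obtain ⟨I, hI, hIc, hIe⟩ : ∃ I ⊆ insertNone T, I.card ≤ finrank ℝ W + 1 ∧
      ¬ (⋂ o ∈ I, F o).Nonempty := by
    by_contra hcon
    push Not at hcon
    refine hemp (Convex.helly_theorem' (𝕜 := ℝ) (fun o _ => ?_) fun I a b => ?_)
    · rcases o with _ | i
      · exact convex_ball _ _
      · exact hc i
    · exact hcon I a b
  have hsub : eraseNone I ⊆ T := fun i hi => by simpa using hI (mem_eraseNone.1 hi)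
  have hnone : none ∈ I := by
    by_contra hn
    refine hIe ⟨p T, ?_⟩
    simp only [Set.mem_iInter] at h1 ⊢
    rintro (_ | i) hi
    · exact absurd hi hn
    · exact h1 i (hsub (mem_eraseNone.2 hi))
  have hcard : (eraseNone I).card ≤ finrank ℝ W := by
    rw [card_eraseNone_of_mem hnone]; omega
  obtain ⟨T₀, a, b, c⟩ := exists_subsuperset_card_eq hsub hcard hT
  have hm : p T ∈ ⋂ i ∈ T₀, H i := by
    simp only [Set.mem_iInter] at h1 ⊢
    exact fun i hi => h1 i (b hi)
  obtain ⟨h3, h4⟩ := hp T₀ ⟨_, hm⟩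
  have e : p T₀ = p T := by
    refine min_unique (hK' T₀) h3 hm h4 ?_
    by_contra hlt
    refine hIe ⟨p T₀, ?_⟩
    simp only [Set.mem_iInter] at h3 ⊢
    rintro (_ | i) hi
    · simpa [F] using not_le.1 hlt
    · exact h3 i (a (mem_eraseNone.2 hi))
  refine ⟨T₀, b, c, fun i hi => ?_⟩
  simp only [Set.mem_iInter] at h1
  rw [e]; exact h1 i hi

open Classical in
lemma count {ι : Type} [DecidableEq ι] (H : ι → Set W) (hc : ∀ i, Convex ℝ (H i))
    (hcl : ∀ i, IsClosed (H i)) (V : Finset ι) (M j : ℕ)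
    (hM : ∀ w, (V.filter fun i => w ∈ H i).card ≤ M) :
    V.card.choose (finrank ℝ W + 1 + j) ≤
      V.card.choose (finrank ℝ W) * M.choose (j + 1) +
      ((V.powersetCard (finrank ℝ W + 1)).filter fun S => ¬ (⋂ i ∈ S, H i).Nonempty).card *
        V.card.choose j := by
  obtain ⟨p, hp⟩ := compress H hc hcl
  set D := finrank ℝ W with hD
  rw [← card_powersetCard (D + 1 + j) V,
    ← card_filter_add_card_filter_not (fun T => (⋂ i ∈ T, H i).Nonempty)]
  refine add_le_add ?_ ?_
  · have hsub : (V.powersetCard (D + 1 + j)).filter (fun T => (⋂ i ∈ T, H i).Nonempty) ⊆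
        (V.powersetCard D).biUnion fun T₀ => (V.powersetCard (D + 1 + j)).filter
          fun T => T₀ ⊆ T ∧ T ⊆ V.filter fun i => p T₀ ∈ H i := by
      intro T hT
      rw [mem_filter, mem_powersetCard] at hT
      obtain ⟨T₀, a, b, c⟩ := hp T (by omega) hT.2
      rw [mem_biUnion]
      refine ⟨T₀, mem_powersetCard.2 ⟨a.trans hT.1.1, b⟩, mem_filter.2
        ⟨mem_powersetCard.2 hT.1, a, fun i hi => mem_filter.2 ⟨hT.1.1 hi, c i hi⟩⟩⟩
    refine (card_le_card hsub).trans ?_
    rw [← card_powersetCard D V]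
    refine card_biUnion_le_card_mul _ _ _ fun T₀ hT₀ => ?_
    refine (card_ext T₀ (V.filter fun i => p T₀ ∈ H i) (j + 1) _ fun T hT => ?_).trans
      (Nat.choose_le_choose _ (hM _))
    rw [mem_filter, mem_powersetCard] at hT
    rw [(mem_powersetCard.1 hT₀).2]
    exact ⟨by omega, hT.2⟩
  · have hsub : (V.powersetCard (D + 1 + j)).filter (fun T => ¬ (⋂ i ∈ T, H i).Nonempty) ⊆
        ((V.powersetCard (D + 1)).filter fun S => ¬ (⋂ i ∈ S, H i).Nonempty).biUnion
          fun S => (V.powersetCard (D + 1 + j)).filter fun T => S ⊆ T := by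
      intro T hT
      rw [mem_filter, mem_powersetCard] at hT
      by_contra hcon
      refine hT.2 (Convex.helly_theorem (𝕜 := ℝ) (by omega) (fun i _ => hc i) fun I a b => ?_)
      by_contra hI
      exact hcon (mem_biUnion.2 ⟨I, mem_filter.2 ⟨mem_powersetCard.2 ⟨a.trans hT.1.1, b⟩, hI⟩,
        mem_filter.2 ⟨mem_powersetCard.2 hT.1, a⟩⟩)
    refine (card_le_card hsub).trans (card_biUnion_le_card_mul _ _ _ fun S hS => ?_)
    refine card_ext S V j _ fun T hT => ?_
    rw [mem_filter, mem_powersetCard] at hT hS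
    exact ⟨by omega, hT.2, hT.1.1⟩

lemma numerics (D : ℕ) (r : ℝ) (hr0 : 0 < r) (hr : r < 1) : ∃ (j n₀ : ℕ) (ε : ℝ), 0 < ε ∧
    ∀ (n M b : ℕ), n₀ ≤ n → (M : ℝ) ≤ r * n → (b : ℝ) ≤ ε * n.choose (D + 1) →
      n.choose D * M.choose (j + 1) + b * n.choose j < n.choose (D + 1 + j) := by
  have ht := tendsto_pow_const_mul_const_pow_of_abs_lt_one D (r := r) (by rwa [abs_of_pos hr0])
  obtain ⟨k, hk⟩ := eventually_atTop.1 (ht.eventually_lt_const (show (0 : ℝ) < r ^ D / 4 by
    positivity))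
  have hk' := hk (D + 1 + k) (by omega)
  set m := D + 1 + k with hm
  have hmf : (0 : ℝ) < m.factorial := by exact_mod_cast m.factorial_pos
  refine ⟨k, 2 * m ^ 2 + 1, 1 / (4 * m.factorial), by positivity, fun n M b hn hM hb => ?_⟩
  have hn0 : (0 : ℝ) < n := by exact_mod_cast (by omega : 0 < n)
  have hnm : (2 * m ^ 2 : ℝ) ≤ n := by exact_mod_cast (by omega : 2 * m ^ 2 ≤ n)
  have hm1 : (1 : ℝ) ≤ m := by exact_mod_cast (by omega : 1 ≤ m)
  have hmn : m ≤ n := by nlinarith
  have h1 : (n : ℝ) ^ m / 2 / m.factorial ≤ n.choose m := by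
    refine le_trans ?_ (Nat.pow_le_choose m n)
    gcongr
    have a : ((n + 1 - m : ℕ) : ℝ) = n + 1 - m := by
      rw [Nat.cast_sub (by omega)]; push_cast; ring
    have b1 : (1 : ℝ) + m * (-(m / n)) ≤ (1 + -(m / n)) ^ m := by
      apply one_add_mul_le_pow
      have : (m : ℝ) / n ≤ 1 := by rw [div_le_one hn0]; exact_mod_cast hmn
      linarith
    have b2 : (m : ℝ) * (m / n) ≤ 1 / 2 := by
      rw [← mul_div_assoc, div_le_iff₀ hn0]; nlinarith
    have b3 : (n : ℝ) ^ m * (1 + -(m / n)) ^ m = (n - m) ^ m := by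
      rw [← mul_pow]; congr 1; field_simp; ring
    have b4 : ((n : ℝ) - m) ^ m ≤ (n + 1 - m) ^ m := by
      have : (m : ℝ) ≤ n := by exact_mod_cast hmn
      gcongr <;> linarith
    have b5 : (0 : ℝ) < (n : ℝ) ^ m := by positivity
    rw [a]
    nlinarith
  have hpow : (n : ℝ) ^ m = n ^ D * n ^ (k + 1) := by rw [← pow_add]; congr 1; omega
  have hpow' : (n : ℝ) ^ m = n ^ (D + 1) * n ^ k := by rw [← pow_add]
  have h2 : (n.choose D : ℝ) * M.choose (k + 1) < n ^ m / 4 / m.factorial := by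
    have a1 : (n.choose D : ℝ) ≤ n ^ D / D.factorial := Nat.choose_le_pow_div _ _
    have a2 : (M.choose (k + 1) : ℝ) ≤ (r * n) ^ (k + 1) / (k + 1).factorial :=
      (Nat.choose_le_pow_div _ _).trans (by gcongr)
    have a3 : (m.factorial : ℝ) ≤ m ^ D * (D.factorial * (k + 1).factorial) := by
      have e := Nat.add_choose_mul_factorial_mul_factorial (k + 1) D
      have e2 : k + 1 + D = m := by omega
      rw [e2] at e
      have e3 := Nat.choose_le_pow m D
      have : m.factorial ≤ m ^ D * (D.factorial * (k + 1).factorial) := by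
        rw [← e, mul_assoc, mul_comm (k + 1).factorial]
        exact Nat.mul_le_mul_right _ e3
      exact_mod_cast this
    have a4 : (m : ℝ) ^ D * r ^ (k + 1) < 1 / 4 := by
      have : r ^ m = r ^ (k + 1) * r ^ D := by rw [← pow_add]; congr 1; omega
      rw [this] at hk'
      have hp : 0 < r ^ D := by positivity
      nlinarith
    have hD : (0 : ℝ) < D.factorial := by exact_mod_cast D.factorial_pos
    have hK : (0 : ℝ) < (k + 1).factorial := by exact_mod_cast (k + 1).factorial_pos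
    calc (n.choose D : ℝ) * M.choose (k + 1)
        ≤ n ^ D / D.factorial * ((r * n) ^ (k + 1) / (k + 1).factorial) := by gcongr
      _ = n ^ m * (r ^ (k + 1) / (D.factorial * (k + 1).factorial)) := by
        rw [hpow, mul_pow]; field_simp
      _ < n ^ m * (1 / 4 / m.factorial) := by
        refine mul_lt_mul_of_pos_left ?_ (by positivity)
        rw [div_lt_div_iff₀ (by positivity) hmf]
        have hp : 0 < r ^ (k + 1) := by positivity
        have hq : (0 : ℝ) < D.factorial * (k + 1).factorial := by positivity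
        calc r ^ (k + 1) * m.factorial
            ≤ r ^ (k + 1) * (m ^ D * (D.factorial * (k + 1).factorial)) := by gcongr
          _ = m ^ D * r ^ (k + 1) * (D.factorial * (k + 1).factorial) := by ring
          _ < 1 / 4 * (D.factorial * (k + 1).factorial) := by gcongr
      _ = n ^ m / 4 / m.factorial := by ring
  have h3 : (b : ℝ) * n.choose k ≤ n ^ m / 4 / m.factorial := by
    have a1 : (n.choose (D + 1) : ℝ) ≤ n ^ (D + 1) := by exact_mod_cast Nat.choose_le_pow _ _
    have a2 : (n.choose k : ℝ) ≤ n ^ k := by exact_mod_cast Nat.choose_le_pow _ _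
    calc (b : ℝ) * n.choose k ≤ 1 / (4 * m.factorial) * n ^ (D + 1) * n ^ k := by
          gcongr
          exact hb.trans (by gcongr)
      _ = n ^ m / 4 / m.factorial := by rw [hpow']; field_simp
  have : ((n.choose D * M.choose (k + 1) + b * n.choose k : ℕ) : ℝ) < n.choose m := by
    push_cast
    have : (n : ℝ) ^ m / 2 / m.factorial = n ^ m / 4 / m.factorial + n ^ m / 4 / m.factorial := by
      ring
    linarith
  exact_mod_cast this

open Classical in
/-- Fractional Helly theorem near density one. -/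
lemma frac_helly (δ : ℝ) (hδ : 0 < δ) : ∃ ε : ℝ, 0 < ε ∧ ∀ {ι : Type} [DecidableEq ι]
    (H : ι → Set W), (∀ i, Convex ℝ (H i)) → (∀ i, IsClosed (H i)) → ∀ V : Finset ι,
    finrank ℝ W + 1 ≤ V.card →
    ((((V.powersetCard (finrank ℝ W + 1)).filter fun S => ¬ (⋂ i ∈ S, H i).Nonempty).card : ℝ) ≤
      ε * V.card.choose (finrank ℝ W + 1)) →
    ∃ w, (1 - δ) * V.card ≤ (V.filter fun i => w ∈ H i).card := by
  obtain ⟨j, n₀, ε, hε, h⟩ := numerics (finrank ℝ W) (max (1 - δ) (1 / 2))
    (lt_max_of_lt_right (by norm_num)) (max_lt (by linarith) (by norm_num))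
  refine ⟨min ε (1 / 2 ^ (n₀ + 1)), by positivity, fun H hc hcl V hV hb => ?_⟩
  by_cases hn : n₀ ≤ V.card
  · by_contra hcon
    push Not at hcon
    have hr : (0 : ℝ) ≤ max (1 - δ) (1 / 2) * V.card := by positivity
    have h1 := count H hc hcl V ⌊max (1 - δ) (1 / 2) * V.card⌋₊ j fun w =>
      Nat.le_floor ((hcon w).le.trans (by gcongr; exact le_max_left _ _))
    have h2 := h V.card _ _ hn (Nat.floor_le hr) (hb.trans (by gcongr; exact min_le_left _ _))
    omega
  · have h1 : (V.card.choose (finrank ℝ W + 1) : ℝ) ≤ 2 ^ n₀ := by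
      have := (Nat.choose_le_two_pow V.card (finrank ℝ W + 1)).trans
        (Nat.pow_le_pow_right (by norm_num) (not_le.1 hn).le)
      exact_mod_cast this
    have h2 : ((((V.powersetCard (finrank ℝ W + 1)).filter
        fun S => ¬ (⋂ i ∈ S, H i).Nonempty).card : ℝ)) < 1 := by
      refine hb.trans_lt (lt_of_le_of_lt (b := 1 / 2 ^ (n₀ + 1) * 2 ^ n₀) ?_ ?_)
      · gcongr; exact min_le_right _ _
      · rw [pow_succ]; field_simp; norm_num
    have h3 : ((V.powersetCard (finrank ℝ W + 1)).filter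
        fun S => ¬ (⋂ i ∈ S, H i).Nonempty) = ∅ := by
      rw [← card_eq_zero]
      have : ((V.powersetCard (finrank ℝ W + 1)).filter
        fun S => ¬ (⋂ i ∈ S, H i).Nonempty).card < 1 := by exact_mod_cast h2
      omega
    obtain ⟨w, hw⟩ := Convex.helly_theorem (𝕜 := ℝ) hV (fun i _ => hc i) fun I a b => by
      by_contra hI
      have : I ∈ (V.powersetCard (finrank ℝ W + 1)).filter
        fun S => ¬ (⋂ i ∈ S, H i).Nonempty := mem_filter.2 ⟨mem_powersetCard.2 ⟨a, b⟩, hI⟩
      rw [h3] at this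
      simp at this
    refine ⟨w, ?_⟩
    simp only [Set.mem_iInter] at hw
    rw [filter_true_of_mem hw]
    have : (0 : ℝ) ≤ V.card := Nat.cast_nonneg _
    nlinarith

end helly

end Pool.Agent.H148Z.Kirch
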