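import Pool.Agent.H148Z.Kirch1

set_option autoImplicit false

namespace Pool.Agent.H148Z.Kirch

open Finset Module Filter Topology

variable {d : ℕ}

lemma sep_iff (P Q : Finset (Pt d)) : Separated P Q ↔
    ∃ (f : Pt d →ₗ[ℝ] ℝ) (c : ℝ), (∀ p ∈ P, f p < c) ∧ ∀ q ∈ Q, c < f q := by
  constructor
  · rintro (rfl | rfl | ⟨f, c, -, h⟩)
    · exact ⟨0, -1, by simp, by simp⟩
    · exact ⟨0, 1, by simp, by simp⟩
    · exact ⟨f, c, h⟩
  · rintro ⟨f, c, h1, h2⟩
    rcases P.eq_empty_or_nonempty with h | ⟨p, hp⟩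
    · exact Or.inl h
    rcases Q.eq_empty_or_nonempty with h | ⟨q, hq⟩
    · exact Or.inr (Or.inl h)
    refine Or.inr (Or.inr ⟨f, c, ?_, h1, h2⟩)
    rintro rfl
    have := (h1 p hp).trans (h2 q hq)
    simp at this

/-- The dual space of affine functions. -/
abbrev Du (d : ℕ) : Type := WithLp 2 (Pt d × ℝ)

lemma finrank_Du : finrank ℝ (Du d) = d + 1 := by
  rw [(WithLp.linearEquiv 2 ℝ (Pt d × ℝ)).finrank_eq]; simp

/-- Evaluation of an affine function at a point. -/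
noncomputable def ev (x : Pt d) : Du d →ₗ[ℝ] ℝ :=
  ((innerₗ (Pt d) x) ∘ₗ LinearMap.fst ℝ _ _ - LinearMap.snd ℝ _ _) ∘ₗ
    (WithLp.linearEquiv 2 ℝ (Pt d × ℝ)).toLinearMap

lemma ev_apply (x : Pt d) (w : Du d) : ev x w = inner ℝ x w.ofLp.1 - w.ofLp.2 := rfl

open Classical in
/-- The dual closed half-space of a point. -/
noncomputable def half (A : Finset (Pt d)) (x : Pt d) : Set (Du d) :=
  (if x ∈ A then -ev x else ev x : Du d →ₗ[ℝ] ℝ) ⁻¹' Set.Ici 1

lemma half_convex (A : Finset (Pt d)) (x : Pt d) : Convex ℝ (half A x) :=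
  by unfold half; exact (convex_Ici (1 : ℝ)).linear_preimage _

lemma half_closed (A : Finset (Pt d)) (x : Pt d) : IsClosed (half A x) :=
  by unfold half; exact isClosed_Ici.preimage (LinearMap.continuous_of_finiteDimensional _)

lemma mem_half_left {A : Finset (Pt d)} {x : Pt d} (hx : x ∈ A) (w : Du d) :
    w ∈ half A x ↔ ev x w ≤ -1 := by
  simp only [half, if_pos hx, Set.mem_preimage, Set.mem_Ici, LinearMap.neg_apply]
  constructor <;> intro h <;> linarith

lemma mem_half_right {A : Finset (Pt d)} {x : Pt d} (hx : x ∉ A) (w : Du d) :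
    w ∈ half A x ↔ 1 ≤ ev x w := by
  simp only [half, if_neg hx, Set.mem_preimage, Set.mem_Ici]

lemma exists_margin (S : Finset (Pt d)) (u : Pt d → ℝ) (hu : ∀ x ∈ S, 0 < u x) :
    ∃ t : ℝ, ∀ x ∈ S, 1 ≤ t * u x := by
  refine ⟨∑ x ∈ S, (u x)⁻¹, fun x hx => ?_⟩
  have h1 := single_le_sum (f := fun x => (u x)⁻¹) (fun y hy => (inv_pos.2 (hu y hy)).le) hx
  have h2 := hu x hx
  calc (1 : ℝ) = (u x)⁻¹ * u x := by field_simp
    _ ≤ _ := by gcongr

open Classical in
lemma inter_of_sep {A B S : Finset (Pt d)} (hS : S ⊆ A ∪ B)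
    (h : Separated (A ∩ S) (B ∩ S)) : (⋂ x ∈ S, half A x).Nonempty := by
  obtain ⟨f, c, h1, h2⟩ := (sep_iff _ _).1 h
  let v : Pt d := (InnerProductSpace.toDual ℝ (Pt d)).symm (LinearMap.toContinuousLinearMap f)
  have hv : ∀ x, inner ℝ x v = f x := fun x => by
    rw [real_inner_comm]; exact InnerProductSpace.toDual_symm_apply
  let w : Du d := WithLp.toLp 2 (v, c)
  have hw : ∀ x, ev x w = f x - c := fun x => by rw [ev_apply, hv]
  obtain ⟨t, ht⟩ := exists_margin S (fun x => if x ∈ A then c - f x else f x - c) fun x hx => by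
    by_cases hA : x ∈ A
    · rw [if_pos hA]; exact sub_pos.2 (h1 x (mem_inter.2 ⟨hA, hx⟩))
    · rw [if_neg hA]
      exact sub_pos.2 (h2 x (mem_inter.2 ⟨(mem_union.1 (hS hx)).resolve_left hA, hx⟩))
  refine ⟨t • w, ?_⟩
  simp only [Set.mem_iInter]
  intro x hx
  have := ht x hx
  by_cases hA : x ∈ A
  · rw [if_pos hA] at this
    rw [mem_half_left hA, map_smul, hw, smul_eq_mul]; linarith
  · rw [if_neg hA] at this
    rw [mem_half_right hA, map_smul, hw, smul_eq_mul]; linarith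

lemma sep_of_indep [DecidableEq (Pt d)] {A B : Finset (Pt d)} (hd : Disjoint A B)
    (h : AffineIndependent ℝ ((↑) : (A ∪ B : Finset (Pt d)) → Pt d)) : Separated A B := by
  have h1 := h.convexHull_inter (R := ℝ) (subset_union_left (s₂ := B))
    (subset_union_right (s₁ := A))
  have h2 : (A : Set (Pt d)) ∩ B = ∅ := Set.disjoint_iff_inter_eq_empty.1 (disjoint_coe.2 hd)
  rw [h2, convexHull_empty] at h1
  obtain ⟨f, u, v, a, b, c⟩ := geometric_hahn_banach_compact_closed (convex_convexHull ℝ _)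
    (A.finite_toSet.isCompact_convexHull ℝ) (convex_convexHull ℝ _)
    (B.finite_toSet.isCompact_convexHull ℝ).isClosed (Set.disjoint_iff_inter_eq_empty.2 h1.symm)
  exact (sep_iff _ _).2 ⟨f, u, fun p hp => a p (subset_convexHull ℝ _ hp),
    fun q hq => b.trans (c q (subset_convexHull ℝ _ hq))⟩

open Classical in
/-- The property to be shown, for given parameters. -/
def Prop' (d : ℕ) (ε δ : ℝ) : Prop :=
  ∀ (N : ℕ) (A B : Finset (Pt d)), Disjoint A B → A.card = N → B.card = N →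
    (GenPos (A ∪ B) ∨ d + 2 ≤ 2 * N) →
    (1 - ε) * ((2 * N).choose (d + 2) : ℝ) ≤ (goodSets A B).card →
    ∃ A' ⊆ A, ∃ B' ⊆ B, Separated A' B' ∧ (1 - δ) * N ≤ (A'.card : ℝ) ∧
      (1 - δ) * N ≤ (B'.card : ℝ)

open Classical in
lemma eps_delta (d : ℕ) (δ : ℝ) (hδ : 0 < δ) : ∃ ε, 0 < ε ∧ Prop' d ε δ := by
  obtain ⟨ε, hε, h⟩ := frac_helly (W := Du d) (δ / 2) (by positivity)
  refine ⟨ε, hε, fun N A B hd hA hB hgp hgood => ?_⟩
  have hN : (0 : ℝ) ≤ N := Nat.cast_nonneg _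
  have hV : (A ∪ B).card = 2 * N := by rw [card_union_of_disjoint hd]; omega
  by_cases hbig : d + 2 ≤ 2 * N
  swap
  · refine ⟨A, Subset.rfl, B, Subset.rfl, sep_of_indep hd
      (hgp.resolve_right hbig _ Subset.rfl (by omega)), ?_, ?_⟩
    · rw [hA]; nlinarith
    · rw [hB]; nlinarith
  rw [finrank_Du] at h
  obtain ⟨w, hw⟩ := h (half A) (half_convex A) (half_closed A) (A ∪ B) (by omega) (by
    have h1 := card_filter_add_card_filter_not (s := (A ∪ B).powersetCard (d + 2))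
      (fun S => Separated (A ∩ S) (B ∩ S))
    rw [card_powersetCard, hV] at h1
    have h2 : (((A ∪ B).powersetCard (d + 1 + 1)).filter
        fun S => ¬ (⋂ i ∈ S, half A i).Nonempty).card ≤
        (((A ∪ B).powersetCard (d + 2)).filter fun S => ¬ Separated (A ∩ S) (B ∩ S)).card := by
      refine card_le_card fun S hS => ?_
      rw [mem_filter] at hS ⊢
      exact ⟨hS.1, fun hs => hS.2 (inter_of_sep (mem_powersetCard.1 hS.1).1 hs)⟩
    have h3 : ((goodSets A B).card : ℝ) + (((A ∪ B).powersetCard (d + 2)).filter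
      fun S => ¬ Separated (A ∩ S) (B ∩ S)).card = (2 * N).choose (d + 2) := by
      exact_mod_cast h1
    have h4 : ((((A ∪ B).powersetCard (d + 1 + 1)).filter
        fun S => ¬ (⋂ i ∈ S, half A i).Nonempty).card : ℝ) ≤
        (((A ∪ B).powersetCard (d + 2)).filter fun S => ¬ Separated (A ∩ S) (B ∩ S)).card := by
      exact_mod_cast h2
    rw [hV]
    linarith)
  rw [filter_union, card_union_of_disjoint (disjoint_filter_filter hd), hV] at hw
  push_cast at hw
  have a1 : ((A.filter fun i => w ∈ half A i).card : ℝ) ≤ N := by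
    rw [← hA]; exact_mod_cast card_filter_le _ _
  have a2 : ((B.filter fun i => w ∈ half A i).card : ℝ) ≤ N := by
    rw [← hB]; exact_mod_cast card_filter_le _ _
  refine ⟨_, filter_subset (fun i => w ∈ half A i) A, _, filter_subset (fun i => w ∈ half A i) B,
    (sep_iff _ _).2 ⟨innerₗ (Pt d) w.ofLp.1, w.ofLp.2, fun p hp => ?_, fun q hq => ?_⟩,
    by linarith, by linarith⟩
  · rw [mem_filter, ] at hp
    have := (mem_half_left hp.1 w).1 hp.2
    rw [ev_apply, real_inner_comm] at this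
    change inner ℝ w.ofLp.1 p < _
    linarith
  · rw [mem_filter] at hq
    have := (mem_half_right (disjoint_right.1 hd hq.1) w).1 hq.2
    rw [ev_apply, real_inner_comm] at this
    change _ < inner ℝ w.ofLp.1 q
    linarith

lemma Prop'.mono {ε ε' δ δ' : ℝ} (h : Prop' d ε δ) (h1 : ε' ≤ ε) (h2 : δ ≤ δ') :
    Prop' d ε' δ' := by
  intro N A B hd hA hB hgp hgood
  have hN : (0 : ℝ) ≤ N := Nat.cast_nonneg _
  have hc : (0 : ℝ) ≤ (2 * N).choose (d + 2) := Nat.cast_nonneg _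
  obtain ⟨A', a, B', b, c, e, f⟩ := h N A B hd hA hB hgp (le_trans (by nlinarith) hgood)
  exact ⟨A', a, B', b, c, by nlinarith, by nlinarith⟩

lemma prop_one (ε : ℝ) : Prop' d ε 1 := fun _ _ _ _ _ _ _ _ =>
  ⟨∅, empty_subset _, ∅, empty_subset _, Or.inl rfl, by simp, by simp⟩

theorem main (d : ℕ) : ∃ g : ℝ → ℝ, Tendsto g (𝓝[>] 0) (𝓝 0) ∧ ∀ ε, 0 < ε → Prop' d ε (g ε) := by
  let Z : ℝ → Set ℝ := fun ε => {δ | 0 ≤ δ ∧ Prop' d ε δ}
  have hne : ∀ ε, (Z ε).Nonempty := fun ε => ⟨1, zero_le_one, prop_one ε⟩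
  have hbd : ∀ ε, BddBelow (Z ε) := fun ε => ⟨0, fun _ h => h.1⟩
  refine ⟨fun ε => sInf (Z ε) + ε, ?_, fun ε hε => ?_⟩
  · rw [Metric.tendsto_nhdsWithin_nhds]
    intro η hη
    obtain ⟨ε₀, h0, h⟩ := eps_delta d (η / 2) (by positivity)
    refine ⟨min ε₀ (η / 2), by positivity, fun ε hε hlt => ?_⟩
    have hε' : 0 < ε := hε
    rw [Real.dist_eq, sub_zero, abs_of_pos hε', lt_min_iff] at hlt
    have h1 : sInf (Z ε) ≤ η / 2 := csInf_le (hbd ε) ⟨by positivity, h.mono hlt.1.le le_rfl⟩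
    have h2 : 0 ≤ sInf (Z ε) := le_csInf (hne ε) fun _ h => h.1
    rw [Real.dist_eq, sub_zero, abs_of_nonneg (by linarith)]
    linarith
  · obtain ⟨δ, hδ, hlt⟩ := exists_lt_of_csInf_lt (hne ε) (show sInf (Z ε) < sInf (Z ε) + ε by
      linarith)
    exact hδ.2.mono le_rfl hlt.le

end Pool.Agent.H148Z.Kirch
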