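import Mathlib

set_option autoImplicit false

namespace Pool.Agent.H148Z.Kirch

/-- Euclidean `d`-space. -/
abbrev Pt (d : ℕ) : Type := EuclideanSpace ℝ (Fin d)

/-- General position: any at most `d + 1` of the points are affinely independent. -/
def GenPos {d : ℕ} (X : Finset (Pt d)) : Prop :=
  ∀ S ⊆ X, S.card ≤ d + 1 → AffineIndependent ℝ ((↑) : S → Pt d)

/-- `P` and `Q` are separated: one is empty, or they lie in the two open half-spaces bounded by a
hyperplane `{x | f x = c}` with `f ≠ 0` linear. -/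
def Separated {d : ℕ} (P Q : Finset (Pt d)) : Prop :=
  P = ∅ ∨ Q = ∅ ∨
    ∃ (f : Pt d →ₗ[ℝ] ℝ) (c : ℝ), f ≠ 0 ∧ (∀ p ∈ P, f p < c) ∧ ∀ q ∈ Q, c < f q

open Classical in
/-- The good `(d + 2)`-subsets of `A ∪ B`. -/
noncomputable def goodSets {d : ℕ} (A B : Finset (Pt d)) : Finset (Finset (Pt d)) :=
  ((A ∪ B).powersetCard (d + 2)).filter fun S => Separated (A ∩ S) (B ∩ S)

end Pool.Agent.H148Z.Kirch
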