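import Pool.Agent.H148Z.PHDefs

set_option autoImplicit false

namespace Pool.Agent.H148Z.PH

open Set Filter Cardinal

/-- Under CH a type of size at most the continuum has a well-order with countable initial
segments. -/
theorem exists_wo (hCH : Cardinal.continuum.{0} = Cardinal.aleph 1) (T : Type)
    (hT : #T ≤ Cardinal.continuum) :
    ∃ r : T → T → Prop, IsWellOrder T r ∧ ∀ t, {s | r s t}.Countable := by
  obtain ⟨r, hr, h⟩ := Cardinal.exists_ord_eq T
  refine ⟨r, hr, fun t => ?_⟩
  have h1 := Cardinal.card_typein_lt (r := r) t h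
  have h2 : #{s // r s t} < Cardinal.aleph 1 := by
    rw [← hCH]
    exact lt_of_lt_of_le h1 hT
  rw [Cardinal.lt_aleph_one_iff] at h2
  exact Cardinal.le_aleph0_iff_set_countable.1 h2

/-- Recursion of length `ω₁`. -/
theorem exists_rec {T A : Type} (r : T → T → Prop) [IsWellOrder T r]
    (hr : ∀ t, {s | r s t}.Countable) (P : Set A → Prop)
    (hmono : ∀ F G, F ⊆ G → P G → P F) (h0 : P ∅)
    (hfin : ∀ F, (∀ G, G ⊆ F → G.Finite → P G) → P F)
    (R : T → A → Prop)
    (hstep : ∀ F, F.Countable → P F → ∀ t, ∃ a, P (insert a F) ∧ R t a) :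
    ∃ f : T → A, P (range f) ∧ ∀ t, R t (f t) := by
  classical
  rcases isEmpty_or_nonempty T with hE | ⟨⟨t0⟩⟩
  · refine ⟨fun t => (hE.false t).elim, ?_, fun t => (hE.false t).elim⟩
    rw [range_eq_empty]
    exact h0
  obtain ⟨a0, -⟩ := hstep ∅ countable_empty h0 t0
  have hst : ∀ F t, ∃ a, F.Countable → P F → P (insert a F) ∧ R t a := by
    intro F t
    by_cases h : F.Countable ∧ P F
    · obtain ⟨a, ha⟩ := hstep F h.1 h.2 t
      exact ⟨a, fun _ _ => ha⟩
    · exact ⟨a0, fun h1 h2 => (h ⟨h1, h2⟩).elim⟩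
  choose st hst using hst
  have wf : WellFounded r := IsWellFounded.wf
  let f : T → A := wf.fix (fun t g => st {a | ∃ s, ∃ h : r s t, g s h = a} t)
  have hf : ∀ t, f t = st (f '' {s | r s t}) t := by
    intro t
    have := wf.fix_eq (C := fun _ => A) (fun t g => st {a | ∃ s, ∃ h : r s t, g s h = a} t) t
    refine this.trans ?_
    congr 1
    ext a
    simp only [mem_ofPred_eq, mem_image, exists_prop]
    rfl
  -- finite subsets of an image have a top element
  have key : ∀ S : Set T, (∀ s ∈ S, P (insert (f s) (f '' {s' | r s' s}))) → P (f '' S) := by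
    intro S hS
    apply hfin
    intro G hG hGf
    obtain ⟨S', hS'S, hS'f, rfl⟩ : ∃ S' ⊆ S, S'.Finite ∧ G = f '' S' := by
      obtain ⟨S', h1, h2, h3⟩ := hGf.exists_subset_finite_image_eq hG
      exact ⟨S', h1, h2, h3.symm⟩
    rcases S'.eq_empty_or_nonempty with rfl | hne
    · simpa using h0
    let _ : LinearOrder T := linearOrderOfSTO r
    obtain ⟨m, hm, hmax⟩ := Set.exists_max_image S' id hS'f hne
    refine hmono _ _ ?_ (hS m (hS'S hm))
    rintro _ ⟨s, hs, rfl⟩
    rcases (hmax s hs).eq_or_lt with h | h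
    · left
      exact congrArg f h
    · right
      exact ⟨s, h, rfl⟩
  have main : ∀ t, P (insert (f t) (f '' {s | r s t})) ∧ R t (f t) := by
    intro t
    induction t using wf.induction with
    | _ t ih =>
      have h1 : P (f '' {s | r s t}) := key _ (fun s hs => (ih s hs).1)
      have h2 := hst (f '' {s | r s t}) t ((hr t).image f) h1
      rw [← hf t] at h2
      exact h2
  refine ⟨f, ?_, fun t => (main t).2⟩
  rw [← image_univ]
  exact key _ (fun s _ => (main s).1)

end Pool.Agent.H148Z.PH
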