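import Pool.Agent.H148Z.PH1

set_option autoImplicit false

namespace Pool.Agent.H148Z.PH

open Set Filter Cardinal

/-- The sets meeting every member of `Y`. -/
def Hit (Y : Set (Finset ℕ)) : Set (Set ℕ) := {A | ∀ s ∈ Y, ∃ k ∈ s, k ∈ A}

/-- Finite intersections of sets from the families `Hit Y` are infinite. -/
def Cent (F : Set (Set (Finset ℕ))) : Prop :=
  ∀ T : Set (Set ℕ), T.Finite → (∀ A ∈ T, ∃ Y ∈ F, A ∈ Hit Y) → (⋂₀ T).Infinite

theorem Hit.anti {Y Y' : Set (Finset ℕ)} (h : Y ⊆ Y') : Hit Y' ⊆ Hit Y :=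
  fun _ hA s hs => hA s (h hs)

theorem Cent.exists_ultra {F : Set (Set (Finset ℕ))} (h : Cent F) :
    ∃ V : Ultrafilter ℕ, (∀ A ∈ V, A.Infinite) ∧ ∀ Y ∈ F, ∀ A ∈ Hit Y, A ∈ V := by
  have hne : (generate {A | ∃ Y ∈ F, A ∈ Hit Y} ⊓ cofinite).NeBot := by
    rw [inf_neBot_iff]
    intro s hs t ht
    obtain ⟨T, hT, hTf, hTs⟩ := mem_generate_iff.1 hs
    have h1 : (⋂₀ T).Infinite := h T hTf hT
    have h2 : (s \ tᶜ).Infinite := (h1.mono hTs).sdiff ht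
    obtain ⟨k, hk⟩ := h2.nonempty
    exact ⟨k, hk.1, not_not.1 hk.2⟩
  refine ⟨Ultrafilter.of (generate {A | ∃ Y ∈ F, A ∈ Hit Y} ⊓ cofinite), fun A hA hfin => ?_,
    fun Y hY A hA => ?_⟩
  · have h1 : Aᶜ ∈ Ultrafilter.of (generate {A | ∃ Y ∈ F, A ∈ Hit Y} ⊓ cofinite) :=
      Ultrafilter.of_le _ (mem_inf_of_right (by simpa using hfin))
    exact (Ultrafilter.compl_mem_iff_notMem.1 h1) hA
  · exact Ultrafilter.of_le _ (mem_inf_of_left (mem_generate_of_mem ⟨Y, hY, hA⟩))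

theorem cent_of_ultra {F : Set (Set (Finset ℕ))} (V : Ultrafilter ℕ)
    (hV : ∀ A ∈ V, A.Infinite) (h : ∀ Y ∈ F, ∀ A ∈ Hit Y, A ∈ V) : Cent F := by
  intro T hT hA
  apply hV
  exact (Filter.sInter_mem hT).2 fun A hAT => by
    obtain ⟨Y, hY, h1⟩ := hA A hAT
    exact h Y hY A h1

theorem hit_lim (W : Ultrafilter ℕ) (B : ℕ → Set ℕ) (Y : Set (Finset ℕ))
    (h : ∀ s ∈ Y, ∀ᶠ m in W, ∃ k ∈ s, k ∈ B m) : {k | ∀ᶠ m in W, k ∈ B m} ∈ Hit Y := by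
  intro s hs
  have h1 := (Ultrafilter.eventually_exists_mem_iff (f := W) (is := (s : Set ℕ))
    (P := fun k m => k ∈ B m) s.finite_toSet).1 (h s hs)
  exact h1

/-- The compactness step. -/
theorem exists_finite_part (V : Ultrafilter ℕ) (hV : ∀ A ∈ V, A.Infinite)
    (Z : ℕ → Set (Finset ℕ)) (hZ : ∀ j, ∀ A ∈ Hit (Z j), A ∈ V)
    (X : Set (Finset ℕ)) (hX : ∀ A ∈ Hit X, A ∈ V) (n : ℕ) :
    ∃ Y : Set (Finset ℕ), Y.Finite ∧ Y ⊆ X ∧ ∀ A : ℕ → Set ℕ,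
      (∀ i, (∃ j ≤ n, A i ∈ Hit (Z j)) ∨ A i ∈ Hit Y) → ∃ k, n ≤ k ∧ ∀ i < n, k ∈ A i := by
  by_contra hcon
  push Not at hcon
  have hfin : ∀ m : ℕ, {s | s ∈ X ∧ s ⊆ Finset.range m}.Finite := by
    intro m
    apply (Finset.range m).powerset.finite_toSet.subset
    intro s hs
    exact Finset.mem_coe.2 (Finset.mem_powerset.2 hs.2)
  choose B hB1 hB2 using fun m : ℕ => hcon _ (hfin m) (fun s hs => hs.1)
  let W : Ultrafilter ℕ := hyperfilter ℕ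
  have hW : ∀ N : ℕ, ∀ᶠ m in W, N ≤ m := fun N => by
    have h1 : (W : Filter ℕ) ≤ atTop := by
      rw [← Nat.cofinite_eq_atTop]
      exact hyperfilter_le_cofinite
    exact h1 (eventually_ge_atTop N)
  let A : ℕ → Set ℕ := fun i => {k | ∀ᶠ m in W, k ∈ B m i}
  have hA : ∀ i, A i ∈ V := by
    intro i
    have h1 : ∀ᶠ m in W, (∃ j ∈ Iic n, B m i ∈ Hit (Z j)) ∨
        B m i ∈ Hit {s | s ∈ X ∧ s ⊆ Finset.range m} := Eventually.of_forall fun m => hB1 m i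
    rcases Ultrafilter.eventually_or.1 h1 with h2 | h2
    · obtain ⟨j, -, hj⟩ := (Ultrafilter.eventually_exists_mem_iff (f := W) (is := Iic n)
        (P := fun j m => B m i ∈ Hit (Z j)) (finite_Iic n)).1 h2
      apply hZ j
      exact hit_lim W (fun m => B m i) _ fun s hs => hj.mono fun m hm => hm s hs
    · apply hX
      refine hit_lim W (fun m => B m i) _ fun s hs => ?_
      filter_upwards [h2, hW (s.sup id + 1)] with m hm1 hm2
      refine hm1 s ⟨hs, fun k hk => Finset.mem_range.2 ?_⟩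
      have : k ≤ s.sup id := Finset.le_sup (f := id) hk
      omega
  have h3 : (⋂ i ∈ Iio n, A i) ∈ V := (biInter_mem (finite_Iio n)).2 fun i _ => hA i
  obtain ⟨k, hk, hnk⟩ := (hV _ h3).exists_gt n
  have h4 : ∀ᶠ m in W, ∀ i ∈ Iio n, k ∈ B m i :=
    (eventually_all_finite (finite_Iio n)).2 fun i hi => mem_iInter₂.1 hk i hi
  obtain ⟨m, hm⟩ := h4.exists
  obtain ⟨i, hi, hki⟩ := hB2 m k hnk.le
  exact hki (hm i hi)

/-- What is asked of the object added for the task `X`. -/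
def Task (X : ℕ → Set (Finset ℕ)) (a : Set (Finset ℕ)) : Prop :=
  (∃ n, ∃ A ∈ Hit (X n), Aᶜ ∈ Hit a) ∨
    ∃ Y : ℕ → Set (Finset ℕ), (∀ n, (Y n).Finite ∧ Y n ⊆ X n) ∧ a = ⋃ n, Y n

theorem cent_step (F : Set (Set (Finset ℕ))) (hFc : F.Countable) (hF : Cent F)
    (X : ℕ → Set (Finset ℕ)) : ∃ a, Cent (insert a F) ∧ Task X a := by
  obtain ⟨V, hV, hVF⟩ := hF.exists_ultra
  have hsing : ∀ B ∈ V, ∀ A ∈ Hit {s | ∃ k ∈ B, s = {k}}, A ∈ V := by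
    intro B hB A hA
    refine mem_of_superset hB fun k hk => ?_
    obtain ⟨l, hl, hlA⟩ := hA {k} ⟨k, hk, rfl⟩
    rw [Finset.mem_singleton] at hl
    exact hl ▸ hlA
  by_cases hc : ∀ n, ∀ A ∈ Hit (X n), A ∈ V
  · obtain ⟨Z, hZ⟩ := (hFc.insert {s | ∃ k ∈ (univ : Set ℕ), s = {k}}).exists_eq_range
      (insert_nonempty _ _)
    have hZV : ∀ j, ∀ A ∈ Hit (Z j), A ∈ V := by
      intro j
      have : Z j ∈ insert {s | ∃ k ∈ (univ : Set ℕ), s = {k}} F := hZ ▸ mem_range_self j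
      rcases this with h | h
      · rw [h]
        exact hsing univ univ_mem
      · exact hVF _ h
    choose Y hYf hYX hY using fun n => exists_finite_part V hV Z hZV (X n) (hc n) n
    refine ⟨⋃ n, Y n, ?_, Or.inr ⟨Y, fun n => ⟨hYf n, hYX n⟩, rfl⟩⟩
    intro T hT hTA
    rcases T.eq_empty_or_nonempty with rfl | hne
    · simpa using infinite_univ
    obtain ⟨A, hA⟩ := hT.countable.exists_eq_range hne
    have h1 : ∀ B ∈ T, ∃ N : ℕ, (∃ i < N, A i = B) ∧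
        ((∃ j ≤ N, B ∈ Hit (Z j)) ∨ B ∈ Hit (⋃ n, Y n)) := by
      intro B hB
      obtain ⟨i, hi⟩ : B ∈ range A := hA ▸ hB
      obtain ⟨Y', hY', hBY⟩ := hTA B hB
      rcases hY' with rfl | hY'
      · exact ⟨i + 1, ⟨i, Nat.lt_succ_self i, hi⟩, Or.inr hBY⟩
      · obtain ⟨j, hj⟩ : Y' ∈ range Z := hZ ▸ mem_insert_of_mem _ hY'
        exact ⟨i + 1 + j, ⟨i, by omega, hi⟩, Or.inl ⟨j, by omega, hj ▸ hBY⟩⟩
    choose! N hN1 hN2 using h1
    obtain ⟨M, hM⟩ := (hT.image N).bddAbove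
    have hM' : ∀ B ∈ T, N B ≤ M := fun B hB => hM ⟨B, hB, rfl⟩
    apply infinite_of_forall_exists_gt
    intro b
    obtain ⟨k, hk1, hk2⟩ := hY (M + b + 1) A (fun i => by
      have hi : A i ∈ T := hA ▸ mem_range_self i
      rcases hN2 _ hi with ⟨j, hj, h⟩ | h
      · exact Or.inl ⟨j, by have := hM' _ hi; omega, h⟩
      · exact Or.inr (Hit.anti (subset_iUnion Y _) h))
    refine ⟨k, fun B hB => ?_, by omega⟩
    obtain ⟨i, hi, rfl⟩ := hN1 B hB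
    exact hk2 i (by have := hM' _ hB; omega)
  · push Not at hc
    obtain ⟨n, A, hA, hAV⟩ := hc
    have hAc : Aᶜ ∈ V := Ultrafilter.compl_mem_iff_notMem.2 hAV
    refine ⟨{s | ∃ k ∈ Aᶜ, s = {k}}, cent_of_ultra V hV ?_, Or.inl ⟨n, A, hA, ?_⟩⟩
    · rintro Y (rfl | hY)
      · exact hsing _ hAc
      · exact hVF Y hY
    · rintro s ⟨k, hk, rfl⟩
      exact ⟨k, Finset.mem_singleton_self k, hk⟩

/-- Canjar's property of an ultrafilter. -/
def IsCanjar (U : Ultrafilter ℕ) : Prop :=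
  ∀ X : ℕ → Set (Finset ℕ), (∀ n, ∀ A ∈ Hit (X n), A ∈ U) →
    ∃ Y : ℕ → Set (Finset ℕ), (∀ n, (Y n).Finite ∧ Y n ⊆ X n) ∧ ∀ A ∈ Hit (⋃ n, Y n), A ∈ U

theorem exists_canjar (hCH : Cardinal.continuum.{0} = Cardinal.aleph 1) :
    ∃ U : Ultrafilter ℕ, (∀ A ∈ U, A.Infinite) ∧ IsCanjar U := by
  obtain ⟨r, hr, hrc⟩ := exists_wo hCH (ℕ → Set (Finset ℕ)) (by simp)
  obtain ⟨f, hf1, hf2⟩ := exists_rec r hrc Cent
    (fun F G hFG hG T hT hA => hG T hT fun A hAT => by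
      obtain ⟨Y, hY, h⟩ := hA A hAT
      exact ⟨Y, hFG hY, h⟩)
    (fun T _ hA => by
      have : T = ∅ := eq_empty_of_forall_notMem fun A hAT => by
        obtain ⟨Y, hY, -⟩ := hA A hAT
        exact hY
      rw [this]
      simpa using infinite_univ)
    (fun F hF T hT hA => by
      choose! Y hY1 hY2 using hA
      refine hF (Y '' T) ?_ (hT.image Y) T hT fun A hAT => ⟨Y A, ⟨A, hAT, rfl⟩, hY2 A hAT⟩
      rintro _ ⟨A, hAT, rfl⟩
      exact hY1 A hAT)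
    Task cent_step
  obtain ⟨U, hU1, hU2⟩ := hf1.exists_ultra
  refine ⟨U, hU1, fun X hX => ?_⟩
  rcases hf2 X with ⟨n, A, hA, hAc⟩ | ⟨Y, hY, hYa⟩
  · exact absurd (hX n A hA)
      (Ultrafilter.compl_mem_iff_notMem.1 (hU2 _ (mem_range_self X) _ hAc))
  · exact ⟨Y, hY, fun A hA => hU2 _ (mem_range_self X) A (hYa ▸ hA)⟩

/-- A Canjar ultrafilter is a P-point. -/
theorem IsCanjar.ppoint {U : Ultrafilter ℕ} (hU : IsCanjar U) {S : Set (Set ℕ)}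
    (hS : S.Countable) (hSU : ∀ B ∈ S, B ∈ U) : ∃ P ∈ U, ∀ B ∈ S, (P \ B).Finite := by
  rcases S.eq_empty_or_nonempty with rfl | hne
  · exact ⟨univ, univ_mem, fun B hB => hB.elim⟩
  obtain ⟨B, rfl⟩ := hS.exists_eq_range hne
  obtain ⟨Y, hY1, hY2⟩ := hU (fun n => {s | ∃ k, (∀ j ≤ n, k ∈ B j) ∧ s = {k}}) (by
    intro n A hA
    have h1 : (⋂ j ∈ Iic n, B j) ∈ U :=
      (biInter_mem (finite_Iic n)).2 fun j _ => hSU _ (mem_range_self j)
    refine mem_of_superset h1 fun k hk => ?_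
    obtain ⟨l, hl, hlA⟩ := hA {k} ⟨k, fun j hj => mem_iInter₂.1 hk j hj, rfl⟩
    rw [Finset.mem_singleton] at hl
    exact hl ▸ hlA)
  refine ⟨{k | ∃ n, {k} ∈ Y n}, hY2 _ ?_, ?_⟩
  · intro s hs
    obtain ⟨n, hn⟩ := mem_iUnion.1 hs
    obtain ⟨k, -, rfl⟩ := (hY1 n).2 hn
    exact ⟨k, Finset.mem_singleton_self k, n, hn⟩
  · rintro _ ⟨j, rfl⟩
    have h1 : (⋃ n ∈ Iio j, (fun k : ℕ => ({k} : Finset ℕ)) ⁻¹' Y n).Finite :=
      (finite_Iio j).biUnion fun n _ =>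
        (hY1 n).1.preimage Finset.singleton_injective.injOn
    refine h1.subset ?_
    rintro k ⟨⟨n, hn⟩, hkB⟩
    refine mem_iUnion₂.2 ⟨n, ?_, hn⟩
    by_contra hlt
    obtain ⟨l, hl, hkl⟩ := (hY1 n).2 hn
    have : k = l := Finset.singleton_injective hkl
    subst this
    exact hkB (hl j (not_lt.1 hlt))

end Pool.Agent.H148Z.PH
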