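import Pool.Agent.H148Z.PH2

set_option autoImplicit false

namespace Pool.Agent.H148Z.PH

open Set Filter Topology

/-- An ultrafilter as a subset of the Cantor space. -/
def uset (U : Ultrafilter ℕ) : Set (ℕ → Bool) := {x | {n | x n = true} ∈ U}

theorem isClosed_up (B : Set ℕ) : IsClosed {x : ℕ → Bool | ∀ k ∈ B, x k = true} := by
  have : {x : ℕ → Bool | ∀ k ∈ B, x k = true} = ⋂ k ∈ B, (fun x : ℕ → Bool => x k) ⁻¹' {true} := by
    ext x
    simp
  rw [this]
  exact isClosed_biInter fun k _ => (isClosed_discrete _).preimage (continuous_apply k)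

/-- A Canjar ultrafilter is a Menger space. -/
theorem IsCanjar.menger {U : Ultrafilter ℕ} (hU : IsCanjar U) : IsMenger (uset U) := by
  classical
  intro W hW
  let X : ℕ → Set (Finset ℕ) := fun n => {s | ∃ F : Set (Set (uset U)), F.Finite ∧ F ⊆ W n ∧
    ∀ x : uset U, (∀ k ∈ s, x.1 k = true) → x ∈ ⋃₀ F}
  have hX : ∀ n, ∀ A ∈ Hit (X n), A ∈ U := by
    intro n A hA
    by_contra hAU
    have hB : Aᶜ ∈ U := Ultrafilter.compl_mem_iff_notMem.2 hAU
    have hO : ∀ u : W n, ∃ O : Set (ℕ → Bool), IsOpen O ∧ Subtype.val ⁻¹' O = u.1 :=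
      fun u => isOpen_induced_iff.1 ((hW n).1 u.1 u.2)
    choose O hO1 hO2 using hO
    have hK : IsCompact {x : ℕ → Bool | ∀ k ∈ Aᶜ, x k = true} := (isClosed_up _).isCompact
    obtain ⟨T, hT⟩ := hK.elim_finite_subcover O hO1 (by
      intro x hx
      have hxU : x ∈ uset U := mem_of_superset hB fun k hk => hx k hk
      have h1 : (⟨x, hxU⟩ : uset U) ∈ ⋃₀ W n := by
        rw [(hW n).2]
        trivial
      obtain ⟨u, hu, hxu⟩ := h1
      refine mem_iUnion.2 ⟨⟨u, hu⟩, ?_⟩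
      have h2 : (⟨x, hxU⟩ : uset U) ∈ Subtype.val ⁻¹' O ⟨u, hu⟩ := by
        rw [hO2]
        exact hxu
      exact h2)
    have hOo : IsOpen (⋃ u ∈ T, O u) := isOpen_biUnion fun u _ => hO1 u
    have hC : IsCompact (⋃ u ∈ T, O u)ᶜ := hOo.isClosed_compl.isCompact
    obtain ⟨m, hm⟩ := hC.elim_directed_family_closed
      (fun m : ℕ => {x : ℕ → Bool | ∀ k ∈ Aᶜ ∩ Iio m, x k = true}) (fun m => isClosed_up _)
      (by
        rw [← disjoint_iff_inter_eq_empty, disjoint_left]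
        intro x hx hx2
        apply hx
        apply hT
        intro k hk
        exact mem_iInter.1 hx2 (k + 1) k ⟨hk, Nat.lt_succ_self k⟩)
      (by
        intro a b
        refine ⟨max a b, fun x hx k hk => hx k ⟨hk.1, ?_⟩, fun x hx k hk => hx k ⟨hk.1, ?_⟩⟩
        · exact lt_of_lt_of_le hk.2 (le_max_left a b)
        · exact lt_of_lt_of_le hk.2 (le_max_right a b))
    have hs : (Finset.range m).filter (fun k => k ∉ A) ∈ X n := by
      refine ⟨Subtype.val '' (T : Set (W n)), T.finite_toSet.image _, ?_, ?_⟩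
      · rintro _ ⟨u, -, rfl⟩
        exact u.2
      · intro x hx
        have h1 : x.1 ∈ ⋃ u ∈ T, O u := by
          by_contra h2
          refine disjoint_left.1 (disjoint_iff_inter_eq_empty.2 hm) h2 ?_
          intro k hk
          exact hx k (Finset.mem_filter.2 ⟨Finset.mem_range.2 hk.2, hk.1⟩)
        obtain ⟨u, hu, hxu⟩ := mem_iUnion₂.1 h1
        refine ⟨u.1, ⟨u, hu, rfl⟩, ?_⟩
        rw [← hO2]
        exact hxu
    obtain ⟨k, hk, hkA⟩ := hA _ hs
    exact (Finset.mem_filter.1 hk).2 hkA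
  obtain ⟨Y, hY1, hY2⟩ := hU X hX
  have hF : ∀ n (s : Finset ℕ), ∃ F : Set (Set (uset U)), s ∈ X n → F.Finite ∧ F ⊆ W n ∧
      ∀ x : uset U, (∀ k ∈ s, x.1 k = true) → x ∈ ⋃₀ F := by
    intro n s
    by_cases h : s ∈ X n
    · obtain ⟨F, hF⟩ := h
      exact ⟨F, fun _ => hF⟩
    · exact ⟨∅, fun h' => (h h').elim⟩
  choose F hF using hF
  refine ⟨fun n => ⋃ s ∈ Y n, F n s, fun n => ⟨?_, ?_⟩, ?_⟩
  · exact (hY1 n).1.biUnion fun s hs => (hF n s ((hY1 n).2 hs)).1
  · exact iUnion₂_subset fun s hs => (hF n s ((hY1 n).2 hs)).2.1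
  · apply eq_univ_of_forall
    intro x
    have h1 : {n | x.1 n = true}ᶜ ∉ Hit (⋃ n, Y n) := fun h =>
      Ultrafilter.compl_mem_iff_notMem.1 (hY2 _ h) x.2
    simp only [Hit, mem_ofPred_eq, not_forall] at h1
    obtain ⟨s, hs, hsx⟩ := h1
    obtain ⟨n, hn⟩ := mem_iUnion.1 hs
    obtain ⟨u, hu, hxu⟩ := (hF n s ((hY1 n).2 hn)).2.2 x (fun k hk => by
      by_contra hkx
      exact hsx ⟨k, hk, hkx⟩)
    exact mem_iUnion.2 ⟨n, u, mem_iUnion₂.2 ⟨s, hn, hu⟩, hxu⟩

end Pool.Agent.H148Z.PH
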