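import Pool.Agent.H148Z.PHDefs

set_option autoImplicit false

namespace Pool.Agent.H148Z.PH

open Set Filter Topology

universe u

theorem exists_cyl {β : Type} [TopologicalSpace β] {X : Set (ℕ → β)} {Y : Type u}
    [TopologicalSpace Y] {u : Set (X × Y)} (hu : IsOpen u) {s : X} {y : Y} (h : (s, y) ∈ u) :
    ∀ᶠ p : ℕ × Y in atTop ×ˢ 𝓝 y, ∀ x : X, (∀ i < p.1, x.1 i = s.1 i) → (x, p.2) ∈ u := by
  obtain ⟨a, b, ha, hb, hsa, hyb, hab⟩ := isOpen_prod_iff.1 hu s y h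
  obtain ⟨O, hO, rfl⟩ := isOpen_induced_iff.1 ha
  obtain ⟨I, v, hv, hIv⟩ := isOpen_pi_iff.1 hO s.1 hsa
  have h1 : ∀ᶠ p : ℕ × Y in atTop ×ˢ 𝓝 y, I.sup id + 1 ≤ p.1 ∧ p.2 ∈ b :=
    (eventually_ge_atTop (I.sup id + 1)).prod_mk (hb.mem_nhds hyb)
  refine h1.mono fun p hp x hx => hab ⟨hIv fun i hi => ?_, hp.2⟩
  have h2 : i ≤ I.sup id := Finset.le_sup (f := id) hi
  have h3 : x.1 i = s.1 i := hx i (by have := hp.1; omega)
  change x.1 i ∈ v i
  rw [h3]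
  exact (hv i hi).2

theorem slice_hurewicz {X : Type} [TopologicalSpace X] {Y : Type u} [TopologicalSpace Y]
    (hY : IsHurewicz Y) (W : ℕ → Set (Set (X × Y))) (hW : ∀ n, IsOpenCoverOf (X × Y) (W n))
    (x : X) : ∃ G : ℕ → Set (Set (X × Y)), (∀ k, (G k).Finite ∧ G k ⊆ W k) ∧
      ∀ y, {k | (x, y) ∉ ⋃₀ G k}.Finite := by
  obtain ⟨F, hF1, hF2⟩ := hY (fun n => (fun u => Prod.mk x ⁻¹' u) '' W n) (by
    intro n
    constructor
    · rintro _ ⟨u, hu, rfl⟩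
      exact ((hW n).1 u hu).preimage (Continuous.prodMk_right x)
    · apply eq_univ_of_forall
      intro y
      have h1 : (x, y) ∈ ⋃₀ W n := by
        rw [(hW n).2]
        trivial
      obtain ⟨u, hu, h2⟩ := h1
      exact ⟨_, ⟨u, hu, rfl⟩, h2⟩)
  choose G hG1 hG2 hG3 using fun n => (hF1 n).1.exists_subset_finite_image_eq (hF1 n).2
  refine ⟨G, fun k => ⟨hG2 k, hG1 k⟩, fun y => (hF2 y).subset fun k hk h => hk ?_⟩
  rw [← hG3 k] at h
  obtain ⟨_, ⟨u, hu, rfl⟩, h2⟩ := h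
  exact ⟨u, hu, h2⟩

/-- Sets with the gap property are productively Hurewicz. -/
theorem prod_hurewicz {β : Type} [TopologicalSpace β] [Finite β] (b0 : β) (X : Set (ℕ → β))
    (hFin : ∀ s : ℕ → β, ∀ m, (∀ i, m ≤ i → s i = b0) → s ∈ X)
    (hgap : ∀ h : ℕ → ℕ, ∃ μ : ℕ → ℕ, (∀ k, k ≤ μ k) ∧
      {x : X | ¬ ∀ᶠ k in atTop, ∀ i, μ k ≤ i → i < h (μ k) → x.1 i = b0}.Countable)
    (Y : Type u) [TopologicalSpace Y] (hY : IsHurewicz Y) : IsHurewicz (X × Y) := by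
  classical
  intro W hW
  have hu : ∀ k (p : X × Y), ∃ u ∈ W k, p ∈ u := by
    intro k p
    have h1 : p ∈ ⋃₀ W k := by
      rw [(hW k).2]
      trivial
    exact h1
  choose u hu1 hu2 using hu
  have hS : ∀ m : ℕ, {s : X | ∀ i, m ≤ i → s.1 i = b0}.Finite := by
    intro m
    refine Set.Finite.of_finite_image (f := fun (s : X) (i : Fin m) => s.1 i) (toFinite _) ?_
    intro s hs t ht hst
    apply Subtype.ext
    funext i
    by_cases hi : i < m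
    · exact congrFun hst ⟨i, hi⟩
    · rw [hs i (not_lt.1 hi), ht i (not_lt.1 hi)]
  let Good : ℕ → Set Y → ℕ → (ℕ → Set (Set (X × Y))) → Prop := fun m V m' F =>
    (∀ k, (F k).Finite ∧ F k ⊆ W k) ∧ ∀ k ≤ m, ∀ x : X, (∀ i, m ≤ i → i < m' → x.1 i = b0) →
      ∀ y ∈ V, (x, y) ∈ ⋃₀ F k
  obtain ⟨T, hT1, hT2⟩ := hY (fun m => {V | IsOpen V ∧ ∃ m' F, Good m V m' F}) (by
    intro m
    refine ⟨fun V hV => hV.1, eq_univ_of_forall fun y => ?_⟩
    have h1 : ∀ᶠ p : ℕ × Y in atTop ×ˢ 𝓝 y, ∀ k ∈ Iic m, ∀ s ∈ {s : X | ∀ i, m ≤ i → s.1 i = b0},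
        ∀ x : X, (∀ i < p.1, x.1 i = s.1 i) → (x, p.2) ∈ u k (s, y) :=
      (eventually_all_finite (finite_Iic m)).2 fun k _ =>
        (eventually_all_finite (hS m)).2 fun s _ =>
          exists_cyl ((hW k).1 _ (hu1 k (s, y))) (hu2 k (s, y))
    obtain ⟨pa, hpa, pb, hpb, hp⟩ := eventually_prod_iff.1 h1
    obtain ⟨m', hm'⟩ := hpa.exists
    obtain ⟨V, hV1, hV2, hV3⟩ := eventually_nhds_iff.1 hpb
    refine ⟨V, ⟨hV2, m', fun k => (fun s => u k (s, y)) '' {s : X | ∀ i, m ≤ i → s.1 i = b0},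
      fun k => ⟨(hS m).image _, ?_⟩, ?_⟩, hV3⟩
    · rintro _ ⟨s, -, rfl⟩
      exact hu1 k _
    · intro k hk x hx y' hy'
      have hs : ∀ i, m ≤ i → (fun i => if i < m then x.1 i else b0) i = b0 := by
        intro i hi
        simp [not_lt.2 hi]
      refine ⟨_, ⟨⟨_, hFin _ m hs⟩, hs, rfl⟩, ?_⟩
      refine hp hm' (hV1 y' hy') k hk ⟨_, hFin _ m hs⟩ hs x ?_
      intro i hi
      by_cases him : i < m
      · simp [him]
      · simp only [him, if_false]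
        exact hx i (not_lt.1 him) hi)
  have hc : ∀ m (V : Set Y), ∃ m' F, V ∈ T m → Good m V m' F := by
    intro m V
    by_cases h : V ∈ T m
    · obtain ⟨-, m', F, hF⟩ := (hT1 m).2 h
      exact ⟨m', F, fun _ => hF⟩
    · exact ⟨0, fun _ => ∅, fun h' => (h h').elim⟩
  choose M F hMF using hc
  have hh : ∀ m, ∃ b : ℕ, ∀ V ∈ T m, M m V ≤ b := by
    intro m
    obtain ⟨b, hb⟩ := ((hT1 m).1.image (M m)).bddAbove
    exact ⟨b, fun V hV => hb ⟨V, hV, rfl⟩⟩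
  choose h hh using hh
  obtain ⟨μ, hμ, hE⟩ := hgap h
  obtain ⟨z, hz⟩ := (hE.insert ⟨fun _ => b0, hFin _ 0 fun _ _ => rfl⟩).exists_eq_range
    (insert_nonempty _ _)
  choose G hG1 hG2 using slice_hurewicz hY W hW
  refine ⟨fun k => (⋃ V ∈ T (μ k), F (μ k) V k) ∪ ⋃ j ∈ Iic k, G (z j) k, fun k => ⟨?_, ?_⟩, ?_⟩
  · exact ((hT1 _).1.biUnion fun V hV => ((hMF _ V hV).1 k).1).union
      ((finite_Iic k).biUnion fun j _ => (hG1 _ k).1)
  · exact union_subset (iUnion₂_subset fun V hV => ((hMF _ V hV).1 k).2)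
      (iUnion₂_subset fun j _ => (hG1 _ k).2)
  · rintro ⟨x, y⟩
    by_cases hx : ∀ᶠ k in atTop, ∀ i, μ k ≤ i → i < h (μ k) → x.1 i = b0
    · obtain ⟨N, hN⟩ := eventually_atTop.1 hx
      obtain ⟨N', hN'⟩ := (hT2 y).bddAbove
      refine (finite_le_nat (N + N')).subset fun k hk => ?_
      by_contra hlt
      have hlt' : N + N' < k := not_le.1 hlt
      apply hk
      have h1 : y ∈ ⋃₀ T (μ k) := by
        by_contra h2
        have h3 : μ k ≤ N' := hN' h2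
        have := hμ k
        omega
      obtain ⟨V, hV, hyV⟩ := h1
      obtain ⟨w, hw, hxw⟩ := (hMF _ V hV).2 k (hμ k) x
        (fun i hi1 hi2 => hN k (by omega) i hi1 (lt_of_lt_of_le hi2 (hh _ V hV))) y hyV
      exact ⟨w, Or.inl (mem_iUnion₂.2 ⟨V, hV, hw⟩), hxw⟩
    · obtain ⟨j, rfl⟩ : x ∈ range z := hz ▸ mem_insert_of_mem _ hx
      refine ((hG2 (z j) y).union (finite_lt_nat j)).subset fun k hk => ?_
      by_cases hjk : k < j
      · exact Or.inr hjk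
      · left
        rintro ⟨w, hw, hxw⟩
        exact hk ⟨w, Or.inr (mem_iUnion₂.2 ⟨j, not_lt.1 hjk, hw⟩), hxw⟩

end Pool.Agent.H148Z.PH
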