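import Pool.Agent.H148Z.PH3
import Pool.Agent.H148Z.PH4

set_option autoImplicit false

namespace Pool.Agent.H148Z.PH

open Set Filter Topology

universe u

theorem exists_gap (U : Ultrafilter ℕ) (h : ℕ → ℕ) :
    ∃ μ : ℕ → ℕ, (∀ k, k ≤ μ k) ∧ {i | ∃ k, μ k ≤ i ∧ i < h (μ k)} ∉ U := by
  let a : ℕ → ℕ := fun j => Nat.rec 0 (fun _ b => max (h b) (b + 1)) j
  have ha : ∀ j, a (j + 1) = max (h (a j)) (a j + 1) := fun j => rfl
  have hmono : StrictMono a := strictMono_nat_of_lt_succ fun j => by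
    rw [ha]
    exact lt_of_lt_of_le (Nat.lt_succ_self _) (le_max_right _ _)
  have hh : ∀ j, h (a j) ≤ a (j + 1) := fun j => by
    rw [ha]
    exact le_max_left _ _
  by_cases h0 : {i | ∃ k, a (2 * k) ≤ i ∧ i < h (a (2 * k))} ∈ U
  · refine ⟨fun k => a (2 * k + 1),
      fun k => le_trans (by omega : k ≤ 2 * k + 1) (hmono.id_le (2 * k + 1)), fun h1 => ?_⟩
    obtain ⟨i, ⟨k, hk1, hk2⟩, ⟨l, hl1, hl2⟩⟩ := Ultrafilter.nonempty_of_mem (inter_mem h0 h1)
    have h2 : a (2 * k) < a (2 * l + 1 + 1) := lt_of_le_of_lt hk1 (lt_of_lt_of_le hl2 (hh (2 * l + 1)))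
    have h3 : a (2 * l + 1) < a (2 * k + 1) := lt_of_le_of_lt hl1 (lt_of_lt_of_le hk2 (hh (2 * k)))
    have h4 : 2 * k < 2 * l + 1 + 1 := (hmono.lt_iff_lt (a := 2 * k) (b := 2 * l + 1 + 1)).1 h2
    have h5 : 2 * l + 1 < 2 * k + 1 := (hmono.lt_iff_lt (a := 2 * l + 1) (b := 2 * k + 1)).1 h3
    omega
  · exact ⟨fun k => a (2 * k),
      fun k => le_trans (by omega : k ≤ 2 * k) (hmono.id_le (2 * k)), h0⟩

theorem exists_sparse {S : Set ℕ} (hS : S.Infinite) (h : ℕ → ℕ) :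
    ∃ e : ℕ → ℕ, (range e).Infinite ∧ (∀ n, e n ∈ S) ∧ ∀ n j, n ≤ j → h n ≤ e j := by
  choose e he1 he2 using fun j : ℕ => hS.exists_gt (j + (Finset.range (j + 1)).sup h)
  refine ⟨e, ?_, he1, fun n j hnj => ?_⟩
  · apply infinite_of_forall_exists_gt
    intro b
    exact ⟨e b, mem_range_self b, by have := he2 b; omega⟩
  · have h1 : h n ≤ (Finset.range (j + 1)).sup h :=
      Finset.le_sup (Finset.mem_range.2 (Nat.lt_succ_of_le hnj))
    have := he2 j
    omega

theorem not_menger (U : Ultrafilter ℕ) (hU : ∀ A ∈ U, A.Infinite) (X : Set (ℕ → Bool × Bool))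
    (h1 : ∀ x ∈ X, (∃ m, ∀ i, m ≤ i → x i = (false, false)) ∨ {i | (x i).2 = true}.Infinite)
    (h2 : ∀ h : ℕ → ℕ, ∃ x ∈ X, {i | (x i).1 = true} ∈ U ∧ ∃ e : ℕ → ℕ,
      (∀ i, (x i).2 = true → i ∈ range e) ∧ ∀ n j, n ≤ j → h n ≤ e j) :
    ¬ IsMenger (X × uset U) := by
  classical
  intro hM
  let W : Set (X × uset U) := {p | ∃ i, p.2.1 i = true ∧ (p.1.1 i).1 = false}
  let O : Finset ℕ → Set (X × uset U) := fun s => {p | ∀ i ∈ s, (p.1.1 i).2 = true}
  have hc1 : ∀ i, Continuous fun p : X × uset U => p.2.1 i := fun i =>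
    (continuous_apply i).comp (continuous_subtype_val.comp continuous_snd)
  have hc2 : ∀ i, Continuous fun p : X × uset U => p.1.1 i := fun i =>
    (continuous_apply i).comp (continuous_subtype_val.comp continuous_fst)
  have hW : IsOpen W := by
    have : W = ⋃ i, ((fun p : X × uset U => p.2.1 i) ⁻¹' {true} ∩
        (fun p : X × uset U => (p.1.1 i).1) ⁻¹' {false}) := by
      ext p
      simp [W]
    rw [this]
    exact isOpen_iUnion fun i => ((isOpen_discrete _).preimage (hc1 i)).inter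
      ((isOpen_discrete _).preimage (hc2 i).fst)
  have hO : ∀ s, IsOpen (O s) := by
    intro s
    have : O s = ⋂ i ∈ s, (fun p : X × uset U => (p.1.1 i).2) ⁻¹' {true} := by
      ext p
      simp [O]
    rw [this]
    exact isOpen_biInter_finset fun i _ => (isOpen_discrete _).preimage (hc2 i).snd
  obtain ⟨F, hF1, hF2⟩ := hM (fun n => insert W (O '' {s | s.card = n + 1})) (by
    intro n
    constructor
    · rintro V (rfl | ⟨s, -, rfl⟩)
      · exact hW
      · exact hO s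
    · apply eq_univ_of_forall
      rintro ⟨x, y⟩
      rcases h1 x.1 x.2 with ⟨m, hm⟩ | hinf
      · obtain ⟨i, hi, hmi⟩ := (hU _ y.2).exists_gt m
        refine ⟨W, mem_insert _ _, i, hi, ?_⟩
        change (x.1 i).1 = false
        rw [hm i hmi.le]
      · obtain ⟨s, hs1, hs2⟩ := hinf.exists_subset_card_eq (n + 1)
        exact ⟨O s, mem_insert_of_mem _ ⟨s, hs2, rfl⟩, fun i hi => hs1 hi⟩)
  have hb : ∀ n, ∃ b : ℕ, ∀ V ∈ F n, V = W ∨ ∃ s : Finset ℕ, s.card = n + 1 ∧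
      (∀ i ∈ s, i < b) ∧ V = O s := by
    intro n
    have h3 : ∀ V ∈ F n, ∃ b : ℕ, V = W ∨ ∃ s : Finset ℕ, s.card = n + 1 ∧
        (∀ i ∈ s, i < b) ∧ V = O s := by
      intro V hV
      rcases (hF1 n).2 hV with h | ⟨s, hs, h⟩
      · exact ⟨0, Or.inl h⟩
      · exact ⟨s.sup id + 1, Or.inr ⟨s, hs,
          fun i hi => Nat.lt_succ_of_le (Finset.le_sup (f := id) hi), h.symm⟩⟩
    choose! b hb using h3
    obtain ⟨c, hc⟩ := ((hF1 n).1.image b).bddAbove
    refine ⟨c, fun V hV => (hb V hV).imp_right ?_⟩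
    rintro ⟨s, hs1, hs2, hs3⟩
    exact ⟨s, hs1, fun i hi => lt_of_lt_of_le (hs2 i hi) (hc ⟨V, hV, rfl⟩), hs3⟩
  choose h hh using hb
  obtain ⟨x, hx, hxU, e, he1, he2⟩ := h2 h
  have h4 : ((⟨x, hx⟩, ⟨fun i => (x i).1, hxU⟩) : X × uset U) ∈ ⋃ n, ⋃₀ F n := by
    rw [hF2]
    trivial
  obtain ⟨n, V, hV, hpV⟩ := mem_iUnion.1 h4
  rcases hh n V hV with rfl | ⟨s, hs1, hs2, rfl⟩
  · obtain ⟨i, hi1, hi2⟩ := hpV
    have hi1' : (x i).1 = true := hi1
    have hi2' : (x i).1 = false := hi2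
    rw [hi1'] at hi2'
    exact Bool.noConfusion hi2'
  · have h5 : s ⊆ (Finset.range n).image e := by
      intro i hi
      obtain ⟨j, rfl⟩ := he1 i (hpV i hi)
      refine Finset.mem_image_of_mem e (Finset.mem_range.2 ?_)
      by_contra hj
      exact absurd (hs2 _ hi) (not_lt.2 (he2 n j (not_lt.1 hj)))
    have h6 := Finset.card_le_card h5
    have h7 : ((Finset.range n).image e).card ≤ n :=
      Finset.card_image_le.trans (Finset.card_range n).le
    omega

theorem main (hCH : Cardinal.continuum.{0} = Cardinal.aleph 1) :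
    ∃ X : Set (ℕ → Bool × Bool),
      (∀ (Y : Type u) [TopologicalSpace Y], IsHurewicz Y → IsHurewicz (X × Y)) ∧
      ∃ M : Set (ℕ → Bool), IsMenger M ∧ ¬ IsMenger (X × M) := by
  classical
  obtain ⟨U, hU, hC⟩ := exists_canjar hCH
  obtain ⟨r, hr, hrc⟩ := exists_wo hCH (ℕ → ℕ) (by simp)
  choose μ hμ1 hμ2 using exists_gap U
  let G : (ℕ → ℕ) → Set ℕ := fun h => {i | ∃ k, μ h k ≤ i ∧ i < h (μ h k)}
  have hS : ∀ g : ℕ → ℕ, ∃ P ∈ U, ∀ h, (h = g ∨ r h g) → (P ∩ G h).Finite := by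
    intro g
    obtain ⟨P, hP1, hP2⟩ := hC.ppoint (S := (fun h => (G h)ᶜ) '' insert g {h | r h g})
      (((hrc g).insert g).image _) (by
        rintro _ ⟨h, -, rfl⟩
        exact Ultrafilter.compl_mem_iff_notMem.2 (hμ2 h))
    refine ⟨P, hP1, fun h hh => ?_⟩
    have := hP2 _ ⟨h, hh, rfl⟩
    rwa [Set.sdiff_compl] at this
  choose S hS1 hS2 using hS
  choose e he1 he2 he3 using fun g => exists_sparse (hU _ (hS1 g)) g
  let pt : (ℕ → ℕ) → ℕ → Bool × Bool := fun g i => (decide (i ∈ S g), decide (i ∈ range (e g)))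
  refine ⟨{x | ∃ m, ∀ i, m ≤ i → x i = (false, false)} ∪ range pt, fun Y _ hY => ?_,
    uset U, hC.menger, not_menger U hU _ ?_ ?_⟩
  · refine prod_hurewicz (false, false) _ (fun s m hs => Or.inl ⟨m, hs⟩) (fun h => ?_) Y hY
    refine ⟨μ h, hμ1 h, ?_⟩
    refine (((hrc h).image pt).preimage_of_injOn (f := Subtype.val)
      Subtype.val_injective.injOn).mono ?_
    rintro ⟨x, ⟨m, hm⟩ | ⟨g, rfl⟩⟩ hx
    · exfalso
      apply hx
      filter_upwards [eventually_ge_atTop m] with k hk i hi _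
      exact hm i (hk.trans ((hμ1 h k).trans hi))
    · refine ⟨g, ?_, rfl⟩
      by_contra hg
      apply hx
      have h1 : h = g ∨ r h g := by
        rcases trichotomous_of r h g with h2 | h2 | h2
        · exact Or.inr h2
        · exact Or.inl h2
        · exact (hg h2).elim
      obtain ⟨b, hb⟩ := (hS2 g h h1).bddAbove
      filter_upwards [eventually_ge_atTop (b + 1)] with k hk i hi1 hi2
      have h2 : i ∉ S g := fun hi => by
        have h3 : i ≤ b := hb ⟨hi, k, hi1, hi2⟩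
        have := hμ1 h k
        omega
      have h3 : i ∉ range (e g) := by
        rintro ⟨j, rfl⟩
        exact h2 (he2 g j)
      change (decide (i ∈ S g), decide (i ∈ range (e g))) = (false, false)
      rw [decide_eq_false h2, decide_eq_false h3]
  · rintro x (hx | ⟨g, rfl⟩)
    · exact Or.inl hx
    · right
      refine (he1 g).mono fun i hi => ?_
      exact decide_eq_true hi
  · intro h
    refine ⟨pt h, Or.inr (mem_range_self h), mem_of_superset (hS1 h) fun i hi => decide_eq_true hi,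
      e h, fun i hi => of_decide_eq_true hi, he3 h⟩

end Pool.Agent.H148Z.PH
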