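import Mathlib

/-!
The covering properties of Menger and Hurewicz for arbitrary topological spaces.
-/

set_option autoImplicit false

namespace Pool.Agent.H148Z.PH

universe u

/-- `U` is an open cover of the space `X`. -/
def IsOpenCoverOf (X : Type u) [TopologicalSpace X] (U : Set (Set X)) : Prop :=
  (∀ V ∈ U, IsOpen V) ∧ ⋃₀ U = Set.univ

/-- Menger's property. -/
def IsMenger (X : Type u) [TopologicalSpace X] : Prop :=
  ∀ U : ℕ → Set (Set X), (∀ n, IsOpenCoverOf X (U n)) →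
    ∃ F : ℕ → Set (Set X), (∀ n, (F n).Finite ∧ F n ⊆ U n) ∧ (⋃ n, ⋃₀ F n) = Set.univ

/-- Hurewicz's property. -/
def IsHurewicz (X : Type u) [TopologicalSpace X] : Prop :=
  ∀ U : ℕ → Set (Set X), (∀ n, IsOpenCoverOf X (U n)) →
    ∃ F : ℕ → Set (Set X), (∀ n, (F n).Finite ∧ F n ⊆ U n) ∧
      ∀ x : X, {n : ℕ | x ∉ ⋃₀ F n}.Finite

end Pool.Agent.H148Z.PH
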